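import Pool.Agent.Helper11.CN.Basic

/-!
The exceptional numbers: those with a large prime factor, and those with a divisor `d` with a large
`Lam f d`.
-/

namespace Pool.Agent.Helper11.CN

open Finset

theorem harm_le (N : ℕ) : ∑ n ∈ Icc 1 N, (1 / (n : ℝ)) ≤ 1 + Real.log N := by
  have h := harmonic_le_one_add_log N
  rw [harmonic_eq_sum_Icc] at h
  push_cast at h
  simpa [one_div] using h

open Classical in
theorem bad_one {K : ℕ} {f : ℕ → ℕ} (hf : Adm K f) {N : ℕ} {W M0 : ℝ} (hW : 0 < W)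
    (hM0 : 0 < M0) :
    (((cnt f N).filter (fun n => ∃ p : ℕ, p.Prime ∧ W < p ∧ p ∣ n)).card : ℝ) ≤
      K * N * M0 / W + N * (1 + Real.log N) / M0 := by
  set P : Finset ℕ := (Icc 1 N).filter (fun p => p.Prime ∧ W < p) with hP
  have hsub : (cnt f N).filter (fun n => ∃ p : ℕ, p.Prime ∧ W < p ∧ p ∣ n) ⊆
      P.biUnion (fun p => (cnt f N).filter (fun n => p ∣ n)) := by
    intro n hn
    rw [mem_filter] at hn
    obtain ⟨hn, p, hp, hpW, hpn⟩ := hn
    rw [mem_biUnion]
    have h1 := mem_cnt.1 hn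
    refine ⟨p, ?_, ?_⟩
    · rw [hP, mem_filter, mem_Icc]
      exact ⟨⟨hp.one_lt.le, (Nat.le_of_dvd (by have := h1.2.1; omega) hpn).trans h1.1⟩, hp, hpW⟩
    · rw [mem_filter]
      exact ⟨hn, hpn⟩
  have h1 : (((cnt f N).filter (fun n => ∃ p : ℕ, p.Prime ∧ W < p ∧ p ∣ n)).card : ℝ) ≤
      ∑ p ∈ P, (N : ℝ) / (p * f p) := by
    have h2 := (Finset.card_le_card hsub).trans Finset.card_biUnion_le
    have h3 : (((cnt f N).filter (fun n => ∃ p : ℕ, p.Prime ∧ W < p ∧ p ∣ n)).card : ℝ) ≤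
        ∑ p ∈ P, (((cnt f N).filter (fun n => p ∣ n)).card : ℝ) := by
      exact_mod_cast h2
    refine h3.trans (Finset.sum_le_sum ?_)
    intro p hp
    rw [hP, mem_filter] at hp
    have h4 := count_prime (N := N) hf hp.2.1
    have h5 : ((N / (p * f p) : ℕ) : ℝ) ≤ (N : ℝ) / ((p * f p : ℕ) : ℝ) := Nat.cast_div_le
    rw [Nat.cast_mul] at h5
    exact le_trans (by exact_mod_cast h4) h5
  refine h1.trans ?_
  rw [← Finset.sum_filter_add_sum_filter_not P (fun p => (f p : ℝ) ≤ M0)]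
  have hN0 : (0 : ℝ) ≤ N := Nat.cast_nonneg N
  apply add_le_add
  · have hmaps : ∀ p ∈ P.filter (fun p => (f p : ℝ) ≤ M0), f p ∈ Icc 1 ⌊M0⌋₊ := by
      intro p hp
      rw [mem_filter, hP, mem_filter] at hp
      rw [mem_Icc]
      exact ⟨hf.pos p hp.1.2.1, Nat.le_floor hp.2⟩
    rw [← Finset.sum_fiberwise_of_maps_to hmaps]
    have h2 : ∀ m ∈ Icc 1 ⌊M0⌋₊,
        ∑ p ∈ (P.filter (fun p => (f p : ℝ) ≤ M0)).filter (fun p => f p = m),
          (N : ℝ) / (p * f p) ≤ K * N / W := by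
      intro m hm
      rw [mem_Icc] at hm
      have hm0 : (0 : ℝ) < m := by exact_mod_cast hm.1
      have h3 : ∀ p ∈ (P.filter (fun p => (f p : ℝ) ≤ M0)).filter (fun p => f p = m),
          (N : ℝ) / (p * f p) ≤ N / (W * m) := by
        intro p hp
        rw [mem_filter, mem_filter, hP, mem_filter] at hp
        rw [hp.2]
        apply div_le_div_of_nonneg_left hN0 (mul_pos hW hm0)
        exact mul_le_mul_of_nonneg_right hp.1.1.2.2.le hm0.le
      refine (Finset.sum_le_sum h3).trans ?_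
      rw [Finset.sum_const, nsmul_eq_mul]
      have h4 : (((P.filter (fun p => (f p : ℝ) ≤ M0)).filter (fun p => f p = m)).card : ℝ) ≤
          K * m := by
        have := hf.fib m ((P.filter (fun p => (f p : ℝ) ≤ M0)).filter (fun p => f p = m))
          (by
            intro p hp
            rw [mem_filter, mem_filter, hP, mem_filter] at hp
            exact ⟨hp.1.1.2.1, hp.2⟩)
        exact_mod_cast this
      calc _ ≤ K * m * ((N : ℝ) / (W * m)) :=
            mul_le_mul_of_nonneg_right h4 (by positivity)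
        _ = K * N / W := by
            field_simp
    refine (Finset.sum_le_sum h2).trans ?_
    rw [Finset.sum_const, nsmul_eq_mul, Nat.card_Icc, Nat.add_sub_cancel]
    calc (⌊M0⌋₊ : ℝ) * (K * N / W) ≤ M0 * (K * N / W) :=
          mul_le_mul_of_nonneg_right (Nat.floor_le hM0.le) (by positivity)
      _ = K * N * M0 / W := by ring
  · have h2 : ∀ p ∈ P.filter (fun p => ¬ (f p : ℝ) ≤ M0),
        (N : ℝ) / (p * f p) ≤ N / M0 * (1 / (p : ℝ)) := by
      intro p hp
      rw [mem_filter, hP, mem_filter, mem_Icc] at hp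
      have hp0 : (0 : ℝ) < p := by exact_mod_cast hp.1.2.1.pos
      have hfp : M0 ≤ f p := (not_le.1 hp.2).le
      rw [div_mul_div_comm, mul_one]
      apply div_le_div_of_nonneg_left hN0 (mul_pos hM0 hp0)
      rw [mul_comm M0]
      exact mul_le_mul_of_nonneg_left hfp hp0.le
    refine (Finset.sum_le_sum h2).trans ?_
    rw [← Finset.mul_sum]
    have h3 : ∑ p ∈ P.filter (fun p => ¬ (f p : ℝ) ≤ M0), (1 / (p : ℝ)) ≤
        ∑ n ∈ Icc 1 N, (1 / (n : ℝ)) := by
      apply Finset.sum_le_sum_of_subset_of_nonneg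
      · intro p hp
        rw [mem_filter, hP, mem_filter] at hp
        exact hp.1.1
      · intro i _ _
        positivity
    calc _ ≤ (N : ℝ) / M0 * (1 + Real.log N) :=
          mul_le_mul_of_nonneg_left (h3.trans (harm_le N)) (by positivity)
      _ = N * (1 + Real.log N) / M0 := by ring

open Classical in
theorem bad_two (f : ℕ → ℕ) (N D : ℕ) {Y : ℝ} (hY : 0 < Y) :
    (((cnt f N).filter (fun n => ∃ d : ℕ, d ≤ D ∧ d ∣ n ∧ Y < Lam f d)).card : ℝ) ≤
      N * (1 + Real.log D) / Y + D := by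
  set P : Finset ℕ := (Icc 1 D).filter (fun d => Y < Lam f d) with hP
  have hsub : (cnt f N).filter (fun n => ∃ d : ℕ, d ≤ D ∧ d ∣ n ∧ Y < Lam f d) ⊆
      P.biUnion (fun d => (cnt f N).filter (fun n => d ∣ n)) := by
    intro n hn
    rw [mem_filter] at hn
    obtain ⟨hn, d, hdD, hdn, hd⟩ := hn
    rw [mem_biUnion]
    have h1 := mem_cnt.1 hn
    refine ⟨d, ?_, ?_⟩
    · rw [hP, mem_filter, mem_Icc]
      exact ⟨⟨Nat.pos_of_dvd_of_pos hdn (by have := h1.2.1; omega), hdD⟩, hd⟩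
    · rw [mem_filter]
      exact ⟨hn, hdn⟩
  have h1 : (((cnt f N).filter (fun n => ∃ d : ℕ, d ≤ D ∧ d ∣ n ∧ Y < Lam f d)).card : ℝ) ≤
      ∑ d ∈ P, ((N : ℝ) / (d * Lam f d) + 1) := by
    have h2 := (Finset.card_le_card hsub).trans Finset.card_biUnion_le
    have h3 : (((cnt f N).filter (fun n => ∃ d : ℕ, d ≤ D ∧ d ∣ n ∧ Y < Lam f d)).card : ℝ) ≤
        ∑ d ∈ P, (((cnt f N).filter (fun n => d ∣ n)).card : ℝ) := by
      exact_mod_cast h2
    refine h3.trans (Finset.sum_le_sum ?_)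
    intro d hd
    have h4 := count_dvd f d N
    have h5 : ((N / (d * Lam f d) : ℕ) : ℝ) ≤ (N : ℝ) / ((d * Lam f d : ℕ) : ℝ) :=
      Nat.cast_div_le
    rw [Nat.cast_mul] at h5
    have h6 : (((cnt f N).filter (fun n => d ∣ n)).card : ℝ) ≤
        ((N / (d * Lam f d) : ℕ) : ℝ) + 1 := by exact_mod_cast h4
    linarith
  refine h1.trans ?_
  rw [Finset.sum_add_distrib]
  have hN0 : (0 : ℝ) ≤ N := Nat.cast_nonneg N
  apply add_le_add
  · have h2 : ∀ d ∈ P, (N : ℝ) / (d * Lam f d) ≤ N / Y * (1 / (d : ℝ)) := by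
      intro d hd
      rw [hP, mem_filter, mem_Icc] at hd
      have hd0 : (0 : ℝ) < d := by exact_mod_cast hd.1.1
      rw [div_mul_div_comm, mul_one]
      apply div_le_div_of_nonneg_left hN0 (mul_pos hY hd0)
      rw [mul_comm Y]
      exact mul_le_mul_of_nonneg_left hd.2.le hd0.le
    refine (Finset.sum_le_sum h2).trans ?_
    rw [← Finset.mul_sum]
    have h3 : ∑ d ∈ P, (1 / (d : ℝ)) ≤ ∑ n ∈ Icc 1 D, (1 / (n : ℝ)) := by
      apply Finset.sum_le_sum_of_subset_of_nonneg
      · exact Finset.filter_subset _ _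
      · intro i _ _
        positivity
    calc _ ≤ (N : ℝ) / Y * (1 + Real.log D) :=
          mul_le_mul_of_nonneg_left (h3.trans (harm_le D)) (by positivity)
      _ = N * (1 + Real.log D) / Y := by ring
  · rw [Finset.sum_const, nsmul_eq_mul, mul_one]
    have h2 : P.card ≤ D := by
      have := Finset.card_le_card (Finset.filter_subset (fun d => Y < Lam f d) (Icc 1 D))
      rwa [Nat.card_Icc, Nat.add_sub_cancel] at this
    exact_mod_cast h2

end Pool.Agent.Helper11.CN
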