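import Mathlib

/-!
Counting numbers `n` with `f p ∣ n - 1` for all primes `p ∣ n`.
-/

namespace Pool.Agent.Helper11.CN

open Finset

/-- Order functions: `f p ∣ p - 1`, and at most `K * m` primes have `f p = m`. -/
structure Adm (K : ℕ) (f : ℕ → ℕ) : Prop where
  pos : ∀ p : ℕ, p.Prime → 0 < f p
  dvd : ∀ p : ℕ, p.Prime → f p ∣ p - 1
  fib : ∀ (m : ℕ) (S : Finset ℕ), (∀ p ∈ S, p.Prime ∧ f p = m) → S.card ≤ K * m

/-- `n` is composite and `f p ∣ n - 1` for all primes `p ∣ n`. -/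
def Psp (f : ℕ → ℕ) (n : ℕ) : Prop :=
  1 < n ∧ ¬ n.Prime ∧ ∀ p : ℕ, p.Prime → p ∣ n → f p ∣ n - 1

/-- least common multiple of `f p`, `p ∣ d`. -/
def Lam (f : ℕ → ℕ) (d : ℕ) : ℕ := d.primeFactors.lcm f

theorem lam_dvd {f : ℕ → ℕ} {n d : ℕ} (hn : Psp f n) (hd : d ∣ n) :
    Lam f d ∣ n - 1 := by
  apply Finset.lcm_dvd
  intro p hp
  exact hn.2.2 p (Nat.prime_of_mem_primeFactors hp)
    ((Nat.dvd_of_mem_primeFactors hp).trans hd)

theorem lam_pos {K : ℕ} {f : ℕ → ℕ} (hf : Adm K f) (d : ℕ) : 0 < Lam f d := by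
  apply Nat.pos_of_ne_zero
  intro h
  unfold Lam at h
  rw [Finset.lcm_eq_zero_iff] at h
  obtain ⟨p, hp, h0⟩ := h
  exact (hf.pos p (Nat.prime_of_mem_primeFactors (by simpa using hp))).ne' h0

theorem lam_le {K : ℕ} {f : ℕ → ℕ} (hf : Adm K f) {d : ℕ} (hd : 0 < d) : Lam f d ≤ d := by
  have h1 : Lam f d ∣ ∏ p ∈ d.primeFactors, f p := by
    apply Finset.lcm_dvd
    intro p hp
    exact Finset.dvd_prod_of_mem f hp
  have h2 : (∏ p ∈ d.primeFactors, f p) ≤ ∏ p ∈ d.primeFactors, p := by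
    apply Finset.prod_le_prod'
    intro p hp
    have hpp := Nat.prime_of_mem_primeFactors hp
    have := Nat.le_of_dvd (by have := hpp.two_le; omega) (hf.dvd p hpp)
    omega
  have h3 : (∏ p ∈ d.primeFactors, p) ≤ d :=
    Nat.le_of_dvd hd (Nat.prod_primeFactors_dvd d)
  have h4 : 0 < ∏ p ∈ d.primeFactors, f p :=
    Finset.prod_pos (fun p hp => hf.pos p (Nat.prime_of_mem_primeFactors hp))
  exact ((Nat.le_of_dvd h4 h1).trans h2).trans h3

theorem lam_mul {K : ℕ} {f : ℕ → ℕ} (hf : Adm K f) {a b : ℕ} (ha : a ≠ 0) (hb : b ≠ 0) :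
    Lam f (a * b) ≤ Lam f a * Lam f b := by
  have h1 : Lam f (a * b) ∣ Lam f a * Lam f b := by
    apply Finset.lcm_dvd
    intro p hp
    rw [Nat.primeFactors_mul ha hb, Finset.mem_union] at hp
    rcases hp with hp | hp
    · exact (Finset.dvd_lcm hp).trans (Dvd.intro _ rfl)
    · exact (Finset.dvd_lcm hp).trans (Dvd.intro_left _ rfl)
  exact Nat.le_of_dvd (Nat.mul_pos (lam_pos hf a) (lam_pos hf b)) h1

/-- elements of one residue class -/
theorem class_count {q N : ℕ} (S : Finset ℕ) (hS : ∀ n ∈ S, n ≤ N)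
    (hc : ∀ a ∈ S, ∀ b ∈ S, a ≡ b [MOD q]) : S.card ≤ N / q + 1 := by
  have h1 : Set.InjOn (fun n => n / q) (S : Set ℕ) := by
    intro a ha b hb hab
    have h2 := hc a ha b hb
    simp only at hab
    rw [← Nat.div_add_mod a q, ← Nat.div_add_mod b q, hab, h2]
  have h3 : (S.image (fun n => n / q)) ⊆ Finset.range (N / q + 1) := by
    intro m hm
    obtain ⟨n, hn, rfl⟩ := Finset.mem_image.1 hm
    rw [Finset.mem_range]
    have := Nat.div_le_div_right (c := q) (hS n hn)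
    omega
  have h4 := Finset.card_le_card h3
  rwa [Finset.card_image_of_injOn h1, Finset.card_range] at h4

theorem class_count' {q N : ℕ} (hq : 0 < q) (S : Finset ℕ) (hS : ∀ n ∈ S, n ≤ N)
    (hl : ∀ n ∈ S, q ≤ n)
    (hc : ∀ a ∈ S, ∀ b ∈ S, a ≡ b [MOD q]) : S.card ≤ N / q := by
  have h1 : Set.InjOn (fun n => n / q) (S : Set ℕ) := by
    intro a ha b hb hab
    have h2 := hc a ha b hb
    simp only at hab
    rw [← Nat.div_add_mod a q, ← Nat.div_add_mod b q, hab, h2]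
  have h3 : (S.image (fun n => n / q)) ⊆ Finset.Icc 1 (N / q) := by
    intro m hm
    obtain ⟨n, hn, rfl⟩ := Finset.mem_image.1 hm
    rw [Finset.mem_Icc]
    exact ⟨(Nat.one_le_div_iff hq).2 (hl n hn), Nat.div_le_div_right (hS n hn)⟩
  have h4 := Finset.card_le_card h3
  rwa [Finset.card_image_of_injOn h1, Nat.card_Icc, Nat.add_sub_cancel] at h4

theorem modEq_of_dvd {f : ℕ → ℕ} {a b d : ℕ} (ha : Psp f a) (hb : Psp f b)
    (hda : d ∣ a) (hdb : d ∣ b) : a ≡ b [MOD d * Lam f d] := by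
  have h1 := lam_dvd ha hda
  have h2 := lam_dvd hb hdb
  have h3 : Nat.Coprime d (Lam f d) := by
    have h4 : Nat.Coprime a (a - 1) := by
      have ha1 := ha.1
      have : Nat.Coprime (a - 1 + 1) (a - 1) := by simp
      rwa [Nat.sub_add_cancel (by omega)] at this
    exact Nat.Coprime.coprime_dvd_left hda (Nat.Coprime.coprime_dvd_right h1 h4)
  rw [← Nat.modEq_and_modEq_iff_modEq_mul h3]
  constructor
  · exact ((Nat.modEq_zero_iff_dvd).2 hda).trans ((Nat.modEq_zero_iff_dvd).2 hdb).symm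
  · have h5 : 1 ≡ a [MOD Lam f d] := (Nat.modEq_iff_dvd' (by have := ha.1; omega)).2 h1
    have h6 : 1 ≡ b [MOD Lam f d] := (Nat.modEq_iff_dvd' (by have := hb.1; omega)).2 h2
    exact h5.symm.trans h6

open Classical in
/-- the numbers counted -/
noncomputable def cnt (f : ℕ → ℕ) (N : ℕ) : Finset ℕ :=
  (Finset.Icc 1 N).filter (fun n => Psp f n)

open Classical in
theorem mem_cnt {f : ℕ → ℕ} {N n : ℕ} : n ∈ cnt f N ↔ n ≤ N ∧ Psp f n := by
  unfold cnt
  rw [Finset.mem_filter, Finset.mem_Icc]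
  constructor
  · rintro ⟨⟨_, h⟩, h'⟩
    exact ⟨h, h'⟩
  · rintro ⟨h, h'⟩
    exact ⟨⟨h'.1.le, h⟩, h'⟩

open Classical in
theorem count_dvd (f : ℕ → ℕ) (d N : ℕ) :
    ((cnt f N).filter (fun n => d ∣ n)).card ≤ N / (d * Lam f d) + 1 := by
  apply class_count
  · intro n hn
    exact (mem_cnt.1 (Finset.mem_filter.1 hn).1).1
  · intro a ha b hb
    rw [Finset.mem_filter, mem_cnt] at ha hb
    exact modEq_of_dvd ha.1.2 hb.1.2 ha.2 hb.2

open Classical in
theorem count_prime {K : ℕ} {f : ℕ → ℕ} (hf : Adm K f) {p N : ℕ} (hp : p.Prime) :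
    ((cnt f N).filter (fun n => p ∣ n)).card ≤ N / (p * f p) := by
  have hL : Lam f p = f p := by
    unfold Lam
    rw [hp.primeFactors]
    simp
  apply class_count' (Nat.mul_pos hp.pos (hf.pos p hp))
  · intro n hn
    exact (mem_cnt.1 (Finset.mem_filter.1 hn).1).1
  · intro n hn
    rw [Finset.mem_filter, mem_cnt] at hn
    obtain ⟨⟨_, hn1⟩, m, rfl⟩ := hn
    have h1 := hn1.2.2 p hp (Dvd.intro _ rfl)
    have h2 := hf.dvd p hp
    have hm : 2 ≤ m := by
      by_contra hm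
      have : m = 0 ∨ m = 1 := by omega
      rcases this with rfl | rfl
      · have := hn1.1
        omega
      · exact hn1.2.1 (by simpa using hp)
    have h3 : f p ∣ m - 1 := by
      have h4 : p * m - 1 = (p - 1) * m + (m - 1) := by
        have hp1 := hp.pos
        obtain ⟨k, rfl⟩ : ∃ k, p = k + 1 := ⟨p - 1, by omega⟩
        rw [Nat.add_sub_cancel, Nat.add_mul, one_mul]
        omega
      rw [h4] at h1
      exact (Nat.dvd_add_right (h2.mul_right m)).1 h1
    have h5 : f p ≤ m - 1 := Nat.le_of_dvd (by omega) h3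
    exact Nat.mul_le_mul_left p (by omega)
  · intro a ha b hb
    rw [Finset.mem_filter, mem_cnt] at ha hb
    have := modEq_of_dvd ha.1.2 hb.1.2 ha.2 hb.2
    rwa [hL] at this

end Pool.Agent.Helper11.CN
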