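import Pool.Agent.Helper11.CN.Main

/-!
Carmichael numbers (`f p = p - 1`) and pseudoprimes to the base `a` (`f p` the order of `a`
modulo `p`).
-/

namespace Pool.Agent.Helper11.CN

open Finset Filter

theorem adm_carm : Adm 1 (fun p => p - 1) where
  pos := fun p hp => by
    have := hp.two_le
    change 0 < p - 1
    omega
  dvd := fun p _ => dvd_refl _
  fib := by
    intro m S hS
    rw [one_mul]
    rcases Nat.eq_zero_or_pos m with hm | hm
    · have : S = ∅ := by
        rw [Finset.eq_empty_iff_forall_notMem]
        intro p hp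
        obtain ⟨h1, h2⟩ := hS p hp
        have := h1.two_le
        change p - 1 = m at h2
        omega
      rw [this]
      simp
    · have h1 : S ⊆ {m + 1} := by
        intro p hp
        obtain ⟨h1, h2⟩ := hS p hp
        have := h1.two_le
        change p - 1 = m at h2
        rw [Finset.mem_singleton]
        omega
      have h2 := Finset.card_le_card h1
      rw [Finset.card_singleton] at h2
      omega

theorem psp_carm {n : ℕ} (h1 : 1 < n) (h2 : ¬ n.Prime)
    (h3 : ∀ b : ℕ, Nat.Coprime b n → b ^ (n - 1) ≡ 1 [MOD n]) : Psp (fun p => p - 1) n := by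
  refine ⟨h1, h2, ?_⟩
  intro p hp hpn
  have : Fact p.Prime := ⟨hp⟩
  have : NeZero n := ⟨by omega⟩
  have h4 : ∀ u : (ZMod p)ˣ, u ^ (n - 1) = 1 := by
    intro u
    obtain ⟨v, hv⟩ := ZMod.unitsMap_surjective hpn u
    have h5 : v ^ (n - 1) = 1 := by
      have h6 : Nat.Coprime (v : ZMod n).val n := ZMod.val_coe_unit_coprime v
      have h7 := h3 _ h6
      have h8 := (ZMod.natCast_eq_natCast_iff _ _ _).2 h7
      push_cast at h8
      rw [ZMod.natCast_zmod_val] at h8
      ext
      push_cast
      exact h8
    rw [← hv, ← map_pow, h5, map_one]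
  have h5 := Monoid.exponent_dvd_of_forall_pow_eq_one h4
  rwa [IsCyclic.exponent_eq_card, Nat.card_eq_fintype_card, ZMod.card_units_eq_totient,
    Nat.totient_prime hp] at h5

/-- the order of `a` modulo `p` (and `1` if `p ∣ a`) -/
noncomputable def ordf (a p : ℕ) : ℕ := if p ∣ a then 1 else orderOf (a : ZMod p)

theorem ordf_pow {a p : ℕ} (hp : p.Prime) (h : ¬ p ∣ a) : (a : ZMod p) ^ (p - 1) = 1 := by
  have : Fact p.Prime := ⟨hp⟩
  apply ZMod.pow_card_sub_one_eq_one
  rwa [Ne, ZMod.natCast_eq_zero_iff]

theorem adm_ord {a : ℕ} (ha : 2 ≤ a) : Adm a (ordf a) := by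
  have hpos : ∀ p : ℕ, p.Prime → 0 < ordf a p := by
    intro p hp
    unfold ordf
    split_ifs with h
    · exact Nat.one_pos
    · rw [orderOf_pos_iff, isOfFinOrder_iff_pow_eq_one]
      exact ⟨p - 1, by have := hp.two_le; omega, ordf_pow hp h⟩
  refine ⟨hpos, ?_, ?_⟩
  · intro p hp
    unfold ordf
    split_ifs with h
    · exact one_dvd _
    · exact orderOf_dvd_of_pow_eq_one (ordf_pow hp h)
  · intro m S hS
    have hle : ∀ p ∈ S, m = 0 ∨ p ∣ a ∧ m = 1 ∨ p ∣ a ^ m - 1 := by
      intro p hp
      obtain ⟨h1, h2⟩ := hS p hp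
      unfold ordf at h2
      split_ifs at h2 with h
      · exact Or.inr (Or.inl ⟨h, h2.symm⟩)
      · right
        right
        have h3 : (a : ZMod p) ^ m = 1 := by
          rw [← h2]
          exact pow_orderOf_eq_one _
        have h4 : ((a ^ m : ℕ) : ZMod p) = ((1 : ℕ) : ZMod p) := by
          push_cast
          exact h3
        rw [ZMod.natCast_eq_natCast_iff] at h4
        exact (Nat.modEq_iff_dvd' (Nat.one_le_pow _ _ (by omega))).1 h4.symm
    rcases Nat.lt_or_ge 1 m with hm | hm
    · -- orders at least two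
      have hd : ∀ p ∈ S, p ∣ a ^ m - 1 := by
        intro p hp
        rcases hle p hp with h | h | h
        · omega
        · omega
        · exact h
      have ham : 1 < a ^ m := Nat.one_lt_pow (by omega) (by omega)
      have h1 : ∏ p ∈ S, p ∣ a ^ m - 1 := by
        apply Finset.prod_primes_dvd
        · intro p hp
          exact Nat.Prime.prime (hS p hp).1
        · exact hd
      have h2 : 2 ^ S.card ≤ a ^ m - 1 := by
        calc 2 ^ S.card = ∏ _p ∈ S, 2 := by rw [Finset.prod_const]
          _ ≤ ∏ p ∈ S, p := by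
              apply Finset.prod_le_prod'
              intro p hp
              exact (hS p hp).1.two_le
          _ ≤ a ^ m - 1 := Nat.le_of_dvd (by omega) h1
      have h3 : a ^ m ≤ 2 ^ (a * m) := by
        rw [pow_mul]
        exact Nat.pow_le_pow_left Nat.lt_two_pow_self.le m
      have h4 : 2 ^ S.card < 2 ^ (a * m) := by omega
      exact ((Nat.pow_lt_pow_iff_right (by norm_num)).1 h4).le
    · rcases Nat.eq_zero_or_pos m with hm0 | hm0
      · have : S = ∅ := by
          rw [Finset.eq_empty_iff_forall_notMem]
          intro p hp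
          obtain ⟨h1, h2⟩ := hS p hp
          have := hpos p h1
          omega
        rw [this]
        simp
      · have hm1 : m = 1 := by omega
        subst hm1
        have h1 : S ⊆ Icc 1 a := by
          intro p hp
          have hpp := (hS p hp).1
          rw [mem_Icc]
          refine ⟨hpp.one_lt.le, ?_⟩
          rcases hle p hp with h | h | h
          · omega
          · exact Nat.le_of_dvd (by omega) h.1
          · rw [pow_one] at h
            exact (Nat.le_of_dvd (by omega) h).trans (Nat.sub_le a 1)
        have h2 := Finset.card_le_card h1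
        rw [Nat.card_Icc] at h2
        omega

theorem psp_ord {a n : ℕ} (h1 : 1 < n) (h2 : ¬ n.Prime) (h3 : a ^ (n - 1) ≡ 1 [MOD n]) :
    Psp (ordf a) n := by
  refine ⟨h1, h2, ?_⟩
  intro p hp hpn
  unfold ordf
  split_ifs with h
  · exact one_dvd _
  · apply orderOf_dvd_of_pow_eq_one
    have h4 := (ZMod.natCast_eq_natCast_iff _ _ _).2 (h3.of_dvd hpn)
    push_cast at h4
    exact h4

end Pool.Agent.Helper11.CN
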