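import Pool.Agent.Helper11.CN.Suff
import Pool.Agent.Helper11.CN.Inst

/-!
The criterion for order functions.
-/

set_option autoImplicit false

open Finset Filter Topology

namespace Pool.Agent.Helper11.CN

open Pool.Agent.Helper18.BV
open Pool.Agent.Helper34.CA

/-- `SM` without the upper bound for `z`. -/
def SM' (f : ℕ → ℕ) (ε y : ℝ) : Prop :=
  ∃ (L : ℕ) (z : ℝ), 1 ≤ L ∧ (L : ℝ) ≤ Real.exp y ∧ y ^ (1 / ε) ≤ z ∧
    ∃ P : Finset ℕ, (∀ p ∈ P, p.Prime ∧ (p : ℝ) ≤ z ∧ f p ∣ L) ∧ z ^ (1 - ε) ≤ (P.card : ℝ)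

theorem SM'_mono {f : ℕ → ℕ} {ε ε' y : ℝ} (hε : 0 < ε) (h : ε ≤ ε') (hy : 1 ≤ y)
    (hS : SM' f ε y) : SM' f ε' y := by
  obtain ⟨L, z, h1, h2, h3, P, h4, h5⟩ := hS
  have hz : 1 ≤ z := (Real.one_le_rpow hy (by positivity)).trans h3
  refine ⟨L, z, h1, h2, ?_, P, h4, ?_⟩
  · exact (Real.rpow_le_rpow_of_exponent_le hy (one_div_le_one_div_of_le hε h)).trans h3
  · exact (Real.rpow_le_rpow_of_exponent_le hz (by linarith)).trans h5

theorem SM.toSM' {f : ℕ → ℕ} {ε y : ℝ} (h : SM f ε y) : SM' f ε y := by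
  obtain ⟨L, z, h1, h2, h3, _, P, h4, h5⟩ := h
  exact ⟨L, z, h1, h2, h3, P, h4, h5⟩

/-- The upper bound for `z` may be dropped. -/
theorem SM_of_SM' (K : ℕ) {ε : ℝ} (hε : 0 < ε) (hε1 : ε ≤ 1) :
    ∃ y0 : ℝ, ∀ y : ℝ, y0 ≤ y → ∀ f : ℕ → ℕ, Adm K f → SM' f (ε / 96) y → SM f ε y := by
  classical
  set C1 : ℝ := (K + 2) / (1 - (2 : ℝ) ^ (-(ε / 2 / 12 - ε / 48))) with hC1
  have e2 : ∀ᶠ y : ℝ in atTop,
      4 * (y ^ (ε / 2 / 2) * (3 + Real.log y)) ≤ ε / 2 / 12 * (y ^ (ε / 2) - 2) := by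
    have h1 : Tendsto (fun y : ℝ => y ^ (ε / 8)) atTop atTop := tendsto_rpow_atTop (by positivity)
    filter_upwards [h1.eventually_ge_atTop (24 / ε * (4 * (3 + 1 / (ε / 8)) + ε / 12)),
      eventually_ge_atTop (1 : ℝ)] with y hy hy1
    have hy0 : 0 < y := by linarith
    have h2 : Real.log y ≤ y ^ (ε / 8) / (ε / 8) := Real.log_le_rpow_div hy0.le (by positivity)
    have h3 : 1 ≤ y ^ (ε / 8) := Real.one_le_rpow hy1 (by positivity)
    have h4 : y ^ (ε / 2) = y ^ (ε / 2 / 2) * y ^ (ε / 8) * y ^ (ε / 8) := by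
      rw [← Real.rpow_add hy0, ← Real.rpow_add hy0]
      congr 1
      ring
    have h5 : 1 ≤ y ^ (ε / 2 / 2) := Real.one_le_rpow hy1 (by positivity)
    have h6 : 3 + Real.log y ≤ (3 + 1 / (ε / 8)) * y ^ (ε / 8) := by
      have : y ^ (ε / 8) / (ε / 8) = 1 / (ε / 8) * y ^ (ε / 8) := by ring
      rw [this] at h2
      linarith
    have h7 : 4 * (3 + 1 / (ε / 8)) + ε / 12 ≤ ε / 24 * y ^ (ε / 8) := by
      have h8 := mul_le_mul_of_nonneg_left hy (by positivity : 0 ≤ ε / 24)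
      have h9 : ε / 24 * (24 / ε * (4 * (3 + 1 / (ε / 8)) + ε / 12)) =
          4 * (3 + 1 / (ε / 8)) + ε / 12 := by
        field_simp
      linarith
    have hq : 0 ≤ y ^ (ε / 2 / 2) * y ^ (ε / 8) := by positivity
    have hq1 : 1 ≤ y ^ (ε / 2 / 2) * y ^ (ε / 8) := one_le_mul_of_one_le_of_one_le h5 h3
    have h10 := mul_le_mul_of_nonneg_left h7 hq
    have h11 : y ^ (ε / 2 / 2) * (3 + Real.log y) ≤
        y ^ (ε / 2 / 2) * ((3 + 1 / (ε / 8)) * y ^ (ε / 8)) :=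
      mul_le_mul_of_nonneg_left h6 (by positivity)
    rw [h4]
    nlinarith
  have e3 : ∀ᶠ y : ℝ in atTop, 2 + 4 * y ^ (ε / 2) ≤ y ^ ε := by
    have h1 : Tendsto (fun y : ℝ => y ^ (ε / 2)) atTop atTop := tendsto_rpow_atTop (by positivity)
    filter_upwards [h1.eventually_ge_atTop 6, eventually_ge_atTop (1 : ℝ)] with y hy hy1
    have hy0 : 0 < y := by linarith
    have h4 : y ^ ε = y ^ (ε / 2) * y ^ (ε / 2) := by
      rw [← Real.rpow_add hy0]
      congr 1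
      ring
    rw [h4]
    nlinarith
  have e4 : ∀ᶠ y : ℝ in atTop, 1 + |C1| < Real.exp (ε / 96 * y ^ ε) := by
    have h1 : Tendsto (fun y : ℝ => Real.exp (ε / 96 * y ^ ε)) atTop atTop :=
      Real.tendsto_exp_atTop.comp ((tendsto_rpow_atTop hε).const_mul_atTop (by positivity))
    exact h1.eventually_gt_atTop _
  obtain ⟨y0, hy0⟩ := (e2.and (e3.and (e4.and (eventually_ge_atTop (1 : ℝ))))).exists_forall_of_atTop
  refine ⟨y0, fun y hy f hf hS => ?_⟩
  obtain ⟨b2, b3, b4, b5⟩ := hy0 y hy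
  obtain ⟨L, z, hL, hLy, hz1, P, hP, hPc⟩ := hS
  have hz : 1 ≤ z := (Real.one_le_rpow b5 (by positivity)).trans hz1
  have hz0 : 0 < z := by linarith
  refine ⟨L, z, hL, hLy, ?_, ?_, P, hP, ?_⟩
  · refine (Real.rpow_le_rpow_of_exponent_le b5 ?_).trans hz1
    exact one_div_le_one_div_of_le (by positivity) (by linarith)
  · by_contra hcon
    have hzy : Real.exp (y ^ ε) < z := not_le.1 hcon
    have hlz : y ^ ε ≤ Real.log z := by
      have := Real.log_le_log (Real.exp_pos _) hzy.le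
      rwa [Real.log_exp] at this
    have hL0 : (0 : ℝ) < L := by exact_mod_cast hL
    have hlogL : Real.log L ≤ y := by
      have := Real.log_le_log hL0 hLy
      rwa [Real.log_exp] at this
    -- small primes
    set E : ℝ := 2 * Real.exp (y ^ (ε / 2)) with hE
    have h1 : ((P.filter (fun p : ℕ => (p : ℝ) ≤ E)).card : ℝ) ≤ z ^ (1 / 2 : ℝ) := by
      have h2 : (P.filter (fun p : ℕ => (p : ℝ) ≤ E)).card ≤ (Icc 1 ⌊E⌋₊).card := by
        refine Finset.card_le_card fun p hp => ?_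
        rw [mem_filter] at hp
        rw [mem_Icc]
        exact ⟨(hP p hp.1).1.one_lt.le, Nat.le_floor hp.2⟩
      rw [Nat.card_Icc, Nat.add_sub_cancel] at h2
      have h3 : ((P.filter (fun p : ℕ => (p : ℝ) ≤ E)).card : ℝ) ≤ E :=
        (Nat.cast_le.2 h2).trans (Nat.floor_le (by positivity))
      refine h3.trans ?_
      rw [Real.rpow_def_of_pos hz0, hE]
      have h4 : (2 : ℝ) ≤ Real.exp 1 := by
        have := Real.add_one_le_exp (1 : ℝ)
        linarith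
      calc 2 * Real.exp (y ^ (ε / 2)) ≤ Real.exp 1 * Real.exp (y ^ (ε / 2)) :=
            mul_le_mul_of_nonneg_right h4 (Real.exp_pos _).le
        _ = Real.exp (1 + y ^ (ε / 2)) := by rw [Real.exp_add]
        _ ≤ _ := Real.exp_le_exp.2 (by
            have : 0 ≤ y ^ (ε / 2) := by positivity
            linarith)
    -- large primes
    have h2 : ((P.filter (fun p : ℕ => ¬ (p : ℝ) ≤ E)).card : ℝ) ≤ C1 * z ^ (1 - ε / 48) := by
      have h3 : ∑ p ∈ P.filter (fun p : ℕ => ¬ (p : ℝ) ≤ E), (p : ℝ) ^ (-(1 - ε / 48)) ≤ C1 := by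
        rw [hC1]
        apply sum_dyadic (by linarith) (by linarith) (by positivity)
        · intro p hp
          exact (hP p (mem_filter.1 hp).1).1.ne_zero
        · intro j Q hQP hQj hQne
          obtain ⟨p0, hp0⟩ := hQne
          have hp0' := hQP hp0
          rw [mem_filter] at hp0'
          have h2 : (p0 : ℝ) ≤ (2 : ℝ) ^ (j + 1) := by exact_mod_cast (hQj p0 hp0).2.le
          have h3 : (2 : ℝ) ^ (j + 1) = 2 * 2 ^ j := by rw [pow_succ]; ring
          apply card_large hf hL b5 hlogL (by linarith) (by linarith) j Q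
          · intro p hp
            have hp' := hP p (mem_filter.1 (hQP hp)).1
            exact ⟨hp'.1, hp'.2.2, (hQj p hp).2⟩
          · refine b2.trans ?_
            apply mul_le_mul_of_nonneg_left _ (by positivity)
            have h4 : Real.exp (y ^ (ε / 2)) ≤ (2 : ℝ) ^ j := by
              have := not_le.1 hp0'.2
              rw [hE] at this
              linarith
            have h5 := Real.log_le_log (Real.exp_pos _) h4
            rw [Real.log_exp] at h5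
            linarith
      have h4 : ((P.filter (fun p : ℕ => ¬ (p : ℝ) ≤ E)).card : ℝ) ≤
          ∑ p ∈ P.filter (fun p : ℕ => ¬ (p : ℝ) ≤ E),
            z ^ (1 - ε / 48) * (p : ℝ) ^ (-(1 - ε / 48)) := by
        rw [Finset.card_eq_sum_ones, Nat.cast_sum]
        apply Finset.sum_le_sum
        intro p hp
        have hp' := hP p (mem_filter.1 hp).1
        have hp0 : (0 : ℝ) < p := by exact_mod_cast hp'.1.pos
        rw [Real.rpow_neg hp0.le, ← div_eq_mul_inv, ← Real.div_rpow hz0.le hp0.le]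
        push_cast
        apply Real.one_le_rpow _ (by linarith)
        rw [le_div_iff₀ hp0, one_mul]
        exact hp'.2.1
      rw [← Finset.mul_sum] at h4
      refine h4.trans ?_
      rw [mul_comm]
      exact mul_le_mul_of_nonneg_right h3 (by positivity)
    have h3 : (P.card : ℝ) = ((P.filter (fun p : ℕ => (p : ℝ) ≤ E)).card : ℝ) +
        ((P.filter (fun p : ℕ => ¬ (p : ℝ) ≤ E)).card : ℝ) := by
      exact_mod_cast (Finset.card_filter_add_card_filter_not (s := P)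
        (fun p : ℕ => (p : ℝ) ≤ E)).symm
    have h4 : z ^ (1 / 2 : ℝ) ≤ z ^ (1 - ε / 48) :=
      Real.rpow_le_rpow_of_exponent_le hz (by linarith)
    have h5 : (0 : ℝ) < z ^ (1 - ε / 48) := by positivity
    have h6 : (P.card : ℝ) ≤ (1 + |C1|) * z ^ (1 - ε / 48) := by
      have h7 : C1 * z ^ (1 - ε / 48) ≤ |C1| * z ^ (1 - ε / 48) :=
        mul_le_mul_of_nonneg_right (le_abs_self C1) h5.le
      rw [h3]
      linarith
    have h7 : z ^ (1 - ε / 96) = z ^ (ε / 96) * z ^ (1 - ε / 48) := by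
      rw [← Real.rpow_add hz0]
      congr 1
      ring
    have h8 : 1 + |C1| < z ^ (ε / 96) := by
      refine b4.trans_le ?_
      rw [Real.rpow_def_of_pos hz0]
      apply Real.exp_le_exp.2
      have := mul_le_mul_of_nonneg_left hlz (by positivity : 0 ≤ ε / 96)
      linarith
    have h9 : (1 + |C1|) * z ^ (1 - ε / 48) < z ^ (ε / 96) * z ^ (1 - ε / 48) :=
      mul_lt_mul_of_pos_right h8 h5
    rw [← h7] at h9
    linarith
  · exact (Real.rpow_le_rpow_of_exponent_le hz (by linarith)).trans hPc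

theorem IsG.psp {f : ℕ → ℕ} {u : ℝ} {n : ℕ} (h : IsG f u n) : Psp f n :=
  ⟨h.1, h.2.1, fun p hp hpn => (h.2.2.2 p hp hpn).1⟩

/-- necessity, all `N` -/
theorem crit_nec {K : ℕ} {f : ℕ → ℕ} (hf : Adm K f)
    (h : ∀ ε : ℝ, 0 < ε → ∃ N0 : ℕ, ∀ N : ℕ, N0 ≤ N → (N : ℝ) ^ (1 - ε) ≤ ((cnt f N).card : ℝ))
    {ε : ℝ} (hε : 0 < ε) : ∃ y0 : ℝ, ∀ y : ℝ, y0 ≤ y → SM' f ε y := by
  obtain ⟨y0, hy0⟩ := nec K (ε := min ε 1) (lt_min hε one_pos) (min_le_right _ _)
  obtain ⟨N0, hN0⟩ := h (min ε 1 / 384) (by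
    have := lt_min hε one_pos
    positivity)
  have e1 : ∀ᶠ y : ℝ in atTop, N0 ≤ ⌊Real.exp y⌋₊ :=
    (tendsto_nat_floor_atTop.comp Real.tendsto_exp_atTop).eventually_ge_atTop N0
  obtain ⟨y1, hy1⟩ := (e1.and (eventually_ge_atTop (1 : ℝ))).exists_forall_of_atTop
  refine ⟨max y0 y1, fun y hy => ?_⟩
  obtain ⟨b1, b2⟩ := hy1 y ((le_max_right _ _).trans hy)
  have h1 := hy0 y ((le_max_left _ _).trans hy) f hf (hN0 _ b1)
  exact SM'_mono (lt_min hε one_pos) (min_le_left _ _) b2 h1.toSM'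

/-- sufficiency, all `N` -/
theorem crit_suff (h1 : QuadLBE) (h2 : PhiTail) (h3 : Equi) (h4 : SwapT) (h5 : BadT) (h6 : Pop)
    {K : ℕ} {f : ℕ → ℕ} (hf : Adm K f)
    (h : ∀ ε : ℝ, 0 < ε → ∃ y0 : ℝ, ∀ y : ℝ, y0 ≤ y → SM' f ε y) {ε : ℝ} (hε : 0 < ε) (u0 : ℝ) :
    ∃ N0 : ℕ, ∀ N : ℕ, N0 ≤ N → ∀ S : Finset ℕ, (∀ n, n ≤ N → IsG f u0 n → n ∈ S) →
      (N : ℝ) ^ (1 - ε) ≤ (S.card : ℝ) := by
  classical
  obtain ⟨ε₁, c, C, hε₁, hε₁1, hc, hc1, hC, hev⟩ :=
    suff h1 h2 h3 h4 h5 h6 (ε := min ε 1) (lt_min hε one_pos) (min_le_right _ _)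
  obtain ⟨y0, hy0⟩ := SM_of_SM' K hε₁ hε₁1
  obtain ⟨y1, hy1⟩ := h (ε₁ / 96) (by positivity)
  have hC0 : 0 < C := by linarith
  have e1 : ∀ᶠ l : ℝ in atTop, max (max y0 y1) u0 ≤ l ^ c :=
    (tendsto_rpow_atTop hc).eventually_ge_atTop _
  have e2 : Tendsto (fun N : ℕ => Real.log (N : ℝ) / C) atTop atTop :=
    (Real.tendsto_log_atTop.comp tendsto_natCast_atTop_atTop).atTop_div_const hC0
  have e3 := e2.eventually (hev.and e1)
  obtain ⟨N0, hN0⟩ := (e3.and (eventually_ge_atTop (1 : ℕ))).exists_forall_of_atTop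
  refine ⟨N0, fun N hN S hS => ?_⟩
  obtain ⟨⟨b1, b2⟩, b3⟩ := hN0 N hN
  set l : ℝ := Real.log (N : ℝ) / C with hl
  have hN1 : (1 : ℝ) ≤ N := by exact_mod_cast b3
  have hNp : (0 : ℝ) < N := by linarith
  have hCl : C * l = Real.log N := by
    rw [hl]
    field_simp
  have b4 : y0 ≤ l ^ c := (le_max_left _ _).trans ((le_max_left _ _).trans b2)
  have b5 : y1 ≤ l ^ c := (le_max_right _ _).trans ((le_max_left _ _).trans b2)
  have b6 : u0 ≤ l ^ c := (le_max_right _ _).trans b2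
  have hSM := hy0 _ b4 f hf (hy1 _ b5)
  set S' : Finset ℕ := (Icc 1 N).filter (fun n => IsG f (l ^ c) n) with hS'
  have h7 := b1 f hf.dvd hSM S' (by
    intro n
    rw [hS', mem_filter, mem_Icc, hCl, Real.exp_log hNp, Nat.cast_le]
    constructor
    · rintro ⟨⟨_, h8⟩, h9⟩
      exact ⟨h9, h8⟩
    · rintro ⟨h8, h9⟩
      exact ⟨⟨h8.1.le, h9⟩, h8⟩)
  have h8 : S' ⊆ S := by
    intro n hn
    rw [hS', mem_filter, mem_Icc] at hn
    obtain ⟨⟨_, h9⟩, h10⟩ := hn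
    refine hS n h9 ⟨h10.1, h10.2.1, h10.2.2.1, fun p hp hpn => ?_⟩
    have := h10.2.2.2 p hp hpn
    exact ⟨this.1, by linarith⟩
  have h9 : (S'.card : ℝ) ≤ S.card := by exact_mod_cast Finset.card_le_card h8
  refine le_trans ?_ (h7.trans h9)
  rw [hCl, mul_comm, ← Real.rpow_def_of_pos hNp]
  apply Real.rpow_le_rpow_of_exponent_le hN1
  linarith [min_le_left ε 1]

end Pool.Agent.Helper11.CN
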