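import Pool.Agent.Helper34.CA.LDer
import Pool.Agent.Helper34.CA.Combos
import Pool.Agent.Helper34.CA.Page
import Pool.Agent.Helper34.CA.NearP
import Pool.Agent.Helper34.CA.SmallP
import Pool.Agent.Helper34.CA.Exc
import Pool.Agent.Helper34.CA.Red
import Pool.Agent.Helper34.CA.TwLarge
import Pool.Agent.Helper34.CA.TwAv
import Pool.Agent.Helper34.CA.BrunPure
import Pool.Agent.Helper34.CA.Conv4
import Pool.Agent.Helper34.CA.Moment
import Pool.Agent.Helper34.CA.ProdBound
import Pool.Agent.Helper34.CA.PhiTail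
import Pool.Agent.Helper34.CA.Equi
import Pool.Agent.Helper34.CA.SwapT
import Pool.Agent.Helper34.CA.BadT
import Pool.Agent.Helper34.CA.Pop
import Pool.Agent.Helper18.BV.Final
import Pool.Agent.Helper11.CN.Crit

/-!
The hypotheses of the criterion are proved.
-/

set_option autoImplicit false

namespace Pool.Agent.Helper11.CN

open Pool.Agent.Helper18.BV
open Pool.Agent.Helper34.CA

theorem c_small_bv : Small := by
  have hB := Pool.Agent.Helper85.BV.lBound
  have hU := Pool.Agent.Helper85.BV.lUpper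
  have hC := Pool.Agent.Helper30.BV.lComplex hU
  have hE := Pool.Agent.Helper18.BV.estermann
  have hAP := Pool.Agent.Helper79.BV.altProd
  have hAO := Pool.Agent.Helper79.BV.altOne
  have hSi := Pool.Agent.Helper37.BV.siegelReal hB hU hE hAP hAO
  have hF := Pool.Agent.Helper46.BV.fourierRep
  have hN := Pool.Agent.Helper79.BV.nearOne hU hC hSi
  exact Pool.Agent.Helper81.BV.small hN hF

theorem c_typeTwo : TypeTwo :=
  Pool.Agent.Helper96.BV.typeTwo Pool.Agent.Helper96.BV.tls Pool.Agent.Helper46.BV.fourierRep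

theorem c_exc : Exc := exc (page lDer combos) (smallP nearP Pool.Agent.Helper46.BV.fourierRep)

theorem c_twAv : TwAv := twAv (twLarge Pool.Agent.Helper18.BV.vaughanId
  Pool.Agent.Helper18.BV.coefFacts Pool.Agent.Helper44.BV.typeOne c_typeTwo)

theorem c_nice : NiceApproxE := niceApproxE brunPure

theorem c_quad : QuadLBE :=
  quadLBE (niceHatE c_nice c_twAv c_exc) (niceMassE c_nice bv Pool.Agent.Helper44.BV.mass) conv4

theorem c_tail : PhiTail := phiTail (prodBound (moment mls_red))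

/-- sufficiency, all `N`, without hypotheses -/
theorem crit_suff_closed {K : ℕ} {f : ℕ → ℕ} (hf : Adm K f)
    (h : ∀ ε : ℝ, 0 < ε → ∃ y0 : ℝ, ∀ y : ℝ, y0 ≤ y → SM' f ε y) {ε : ℝ} (hε : 0 < ε) (u0 : ℝ) :
    ∃ N0 : ℕ, ∀ N : ℕ, N0 ≤ N → ∀ S : Finset ℕ, (∀ n, n ≤ N → IsG f u0 n → n ∈ S) →
      (N : ℝ) ^ (1 - ε) ≤ (S.card : ℝ) :=
  crit_suff c_quad c_tail equi swapT badT pop hf h hε u0

end Pool.Agent.Helper11.CN
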