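import Pool.Agent.Helper11.CN.Main

/-!
Large divisors of `L`, dyadic sums over primes.
-/

set_option autoImplicit false

open Finset Filter Topology

namespace Pool.Agent.Helper11.CN

/-- `n ↦ n ^ (-a)` -/
noncomputable def powHom (a : ℝ) : ℕ →* ℝ where
  toFun n := (n : ℝ) ^ (-a)
  map_one' := by simp
  map_mul' m n := by
    push_cast
    rw [Real.mul_rpow (Nat.cast_nonneg m) (Nat.cast_nonneg n)]

theorem powHom_apply (a : ℝ) (n : ℕ) : powHom a n = (n : ℝ) ^ (-a) := rfl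

theorem prime_pow_le {p : ℕ} (hp : p.Prime) {a : ℝ} (ha : 1 / 2 ≤ a) :
    (p : ℝ) ^ (-a) ≤ 3 / 4 := by
  have h2 : (2 : ℝ) ≤ p := by exact_mod_cast hp.two_le
  calc (p : ℝ) ^ (-a) ≤ (2 : ℝ) ^ (-a) :=
        Real.rpow_le_rpow_of_nonpos (by norm_num) h2 (by linarith)
    _ ≤ (2 : ℝ) ^ (-(1 / 2) : ℝ) :=
        Real.rpow_le_rpow_of_exponent_le (by norm_num) (by linarith)
    _ ≤ 3 / 4 := by
        rw [Real.rpow_neg (by norm_num : (0 : ℝ) ≤ 2), ← Real.sqrt_eq_rpow]
        rw [inv_le_comm₀ (by positivity) (by norm_num)]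
        apply Real.le_sqrt_of_sq_le
        norm_num

theorem inv_le_exp {x : ℝ} (hx : 0 ≤ x) (hx1 : x ≤ 3 / 4) : (1 - x)⁻¹ ≤ Real.exp (4 * x) := by
  have h0 : 0 < 1 - x := by linarith
  have h1 := Real.one_sub_inv_le_log_of_pos h0
  have h2 : -(4 * x) ≤ 1 - (1 - x)⁻¹ := by
    have h3 : (1 - x)⁻¹ ≤ 4 := by
      rw [inv_le_comm₀ h0 (by norm_num)]
      linarith
    have h4 : (1 - x)⁻¹ - 1 = x * (1 - x)⁻¹ := by
      field_simp
      ring
    nlinarith
  have h3 : Real.exp (-(4 * x)) ≤ 1 - x := by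
    rw [← Real.exp_log h0]
    exact Real.exp_le_exp.2 (h2.trans h1)
  rw [inv_le_comm₀ h0 (Real.exp_pos _), ← Real.exp_neg]
  exact h3

/-- sums over the divisors -/
theorem div_sum_le (L : ℕ) {a : ℝ} (ha : 1 / 2 ≤ a) :
    ∑ m ∈ L.divisors, (m : ℝ) ^ (-a) ≤
      Real.exp (4 * ∑ p ∈ L.primeFactors, (p : ℝ) ^ (-a)) := by
  have h := (EulerProduct.summable_and_hasSum_factoredNumbers_prod_filter_prime_geometric
    (f := powHom a) (by
      intro p hp
      rw [powHom_apply, Real.norm_of_nonneg (by positivity)]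
      linarith [prime_pow_le hp ha]) L.primeFactors).2
  have hmem : ∀ m ∈ L.divisors, m ∈ Nat.factoredNumbers L.primeFactors := by
    intro m hm
    rw [Nat.mem_divisors] at hm
    rw [Nat.mem_factoredNumbers_iff_primeFactors_subset]
    refine ⟨?_, Nat.primeFactors_mono hm.1 hm.2⟩
    rintro rfl
    exact hm.2 (zero_dvd_iff.1 hm.1)
  have h1 : ∑ m ∈ L.divisors, (m : ℝ) ^ (-a) ≤
      ∏ p ∈ L.primeFactors with p.Prime, (1 - powHom a p)⁻¹ := by
    set S : Finset (Nat.factoredNumbers L.primeFactors) :=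
      L.divisors.attach.image (fun m => ⟨m.1, hmem m.1 m.2⟩) with hS
    have h2 : ∑ m ∈ S, powHom a m.1 = ∑ m ∈ L.divisors, (m : ℝ) ^ (-a) := by
      rw [hS, Finset.sum_image]
      · rw [← Finset.sum_attach L.divisors]
        rfl
      · intro x _ y _ hxy
        simp only [Subtype.mk.injEq] at hxy
        exact Subtype.ext hxy
    rw [← h2]
    exact sum_le_hasSum S (fun m _ => by rw [powHom_apply]; positivity) h
  refine h1.trans ?_
  have h2 : (L.primeFactors.filter fun p => p.Prime) = L.primeFactors := by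
    apply Finset.filter_true_of_mem
    intro p hp
    exact Nat.prime_of_mem_primeFactors hp
  rw [h2, Finset.mul_sum, Real.exp_sum]
  apply Finset.prod_le_prod
  · intro p hp
    rw [powHom_apply]
    have := prime_pow_le (Nat.prime_of_mem_primeFactors hp) ha
    rw [inv_nonneg]
    linarith
  · intro p hp
    rw [powHom_apply]
    exact inv_le_exp (by positivity) (prime_pow_le (Nat.prime_of_mem_primeFactors hp) ha)

/-- sums over the prime factors -/
theorem pf_sum_le {L : ℕ} (hL : 0 < L) {y s : ℝ} (hy : 1 ≤ y) (hLy : Real.log L ≤ y)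
    (hs : 0 ≤ s) (hs1 : s ≤ 1) :
    ∑ p ∈ L.primeFactors, (p : ℝ) ^ (-(1 - s)) ≤ y ^ s * (3 + Real.log y) := by
  classical
  have hy0 : 0 < y := by linarith
  rw [← Finset.sum_filter_add_sum_filter_not L.primeFactors (fun p : ℕ => (p : ℝ) ≤ y)]
  have h1 : ∑ p ∈ L.primeFactors.filter (fun p : ℕ => (p : ℝ) ≤ y), (p : ℝ) ^ (-(1 - s)) ≤
      y ^ s * (1 + Real.log y) := by
    have h2 : ∑ p ∈ L.primeFactors.filter (fun p : ℕ => (p : ℝ) ≤ y), (p : ℝ) ^ (-(1 - s)) ≤
        ∑ n ∈ Icc 1 ⌊y⌋₊, (n : ℝ) ^ (-(1 - s)) := by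
      apply Finset.sum_le_sum_of_subset_of_nonneg
      · intro p hp
        rw [mem_filter] at hp
        rw [mem_Icc]
        exact ⟨(Nat.prime_of_mem_primeFactors hp.1).one_lt.le, Nat.le_floor hp.2⟩
      · intro i _ _
        positivity
    refine (h2.trans (sum_pow_le hs hy0.le)).trans ?_
    apply mul_le_mul_of_nonneg_left _ (by positivity)
    linarith [log_floor_le hy]
  have h2 : ∑ p ∈ L.primeFactors.filter (fun p : ℕ => ¬ (p : ℝ) ≤ y), (p : ℝ) ^ (-(1 - s)) ≤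
      2 * y ^ s := by
    have h3 : ∀ p ∈ L.primeFactors.filter (fun p : ℕ => ¬ (p : ℝ) ≤ y),
        (p : ℝ) ^ (-(1 - s)) ≤ y ^ (-(1 - s)) := by
      intro p hp
      rw [mem_filter] at hp
      exact Real.rpow_le_rpow_of_nonpos hy0 (not_le.1 hp.2).le (by linarith)
    refine (Finset.sum_le_sum h3).trans ?_
    rw [Finset.sum_const, nsmul_eq_mul]
    have h4 : ((L.primeFactors.filter (fun p : ℕ => ¬ (p : ℝ) ≤ y)).card : ℝ) ≤ 2 * y := by
      have h5 := card_pf hL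
      have h6 : ((L.primeFactors.filter (fun p : ℕ => ¬ (p : ℝ) ≤ y)).card : ℝ) ≤
          L.primeFactors.card := by
        exact_mod_cast Finset.card_filter_le _ _
      linarith
    calc _ ≤ 2 * y * y ^ (-(1 - s)) := mul_le_mul_of_nonneg_right h4 (by positivity)
      _ = 2 * y ^ s := by
          rw [show s = 1 + (-(1 - s)) by ring, Real.rpow_add hy0, Real.rpow_one]
          rw [show 1 - (1 + -(1 - s)) = 1 - s by ring]
          ring
  linarith

/-- large divisors -/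
theorem big_div_sum {L : ℕ} (hL : 0 < L) {y s V : ℝ} (hy : 1 ≤ y) (hLy : Real.log L ≤ y)
    (hs : 0 ≤ s) (hs1 : s ≤ 1 / 2) (hV : 0 < V) :
    ∑ m ∈ L.divisors.filter (fun m : ℕ => V < (m : ℝ)), 1 / (m : ℝ) ≤
      V ^ (-s) * Real.exp (4 * (y ^ s * (3 + Real.log y))) := by
  have h1 : ∀ m ∈ L.divisors.filter (fun m : ℕ => V < (m : ℝ)), 1 / (m : ℝ) ≤
      V ^ (-s) * (m : ℝ) ^ (-(1 - s)) := by
    intro m hm
    rw [mem_filter] at hm
    have hm0 : (0 : ℝ) < m := hV.trans hm.2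
    have e1 : 1 / (m : ℝ) = (m : ℝ) ^ (-s) * (m : ℝ) ^ (-(1 - s)) := by
      rw [← Real.rpow_add hm0, one_div, ← Real.rpow_neg_one]
      congr 1
      ring
    rw [e1]
    apply mul_le_mul_of_nonneg_right _ (by positivity)
    exact Real.rpow_le_rpow_of_nonpos hV hm.2.le (by linarith)
  refine (Finset.sum_le_sum h1).trans ?_
  rw [← Finset.mul_sum]
  apply mul_le_mul_of_nonneg_left _ (by positivity)
  have h2 : ∑ m ∈ L.divisors.filter (fun m : ℕ => V < (m : ℝ)), (m : ℝ) ^ (-(1 - s)) ≤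
      ∑ m ∈ L.divisors, (m : ℝ) ^ (-(1 - s)) :=
    Finset.sum_le_sum_of_subset_of_nonneg (Finset.filter_subset _ _) (fun i _ _ => by positivity)
  refine (h2.trans (div_sum_le L (by linarith))).trans ?_
  apply Real.exp_le_exp.2
  have := pf_sum_le hL hy hLy hs (by linarith)
  linarith

/-- dyadic summation -/
theorem sum_dyadic {c δ C : ℝ} (hδc : δ < c) (hδ1 : δ ≤ 1) (hC : 0 ≤ C) (P : Finset ℕ)
    (hP0 : ∀ p ∈ P, p ≠ 0)
    (hP : ∀ (j : ℕ) (Q : Finset ℕ), Q ⊆ P → (∀ p ∈ Q, 2 ^ j ≤ p ∧ p < 2 ^ (j + 1)) →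
      Q.Nonempty → (Q.card : ℝ) ≤ C * ((2 : ℝ) ^ j) ^ (1 - c)) :
    ∑ p ∈ P, (p : ℝ) ^ (-(1 - δ)) ≤ C / (1 - (2 : ℝ) ^ (-(c - δ))) := by
  classical
  obtain ⟨J, hJ⟩ : ∃ J : ℕ, ∀ p ∈ P, Nat.log 2 p ∈ range J := by
    refine ⟨P.sup (fun p => Nat.log 2 p) + 1, ?_⟩
    intro p hp
    rw [mem_range, Nat.lt_succ_iff]
    exact Finset.le_sup (f := fun p => Nat.log 2 p) hp
  rw [← Finset.sum_fiberwise_of_maps_to hJ]
  set x : ℝ := (2 : ℝ) ^ (-(c - δ)) with hx
  have hx0 : 0 ≤ x := by positivity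
  have hx1 : x < 1 := by
    rw [hx]
    apply Real.rpow_lt_one_of_one_lt_of_neg (by norm_num)
    linarith
  have h1 : ∀ j ∈ range J, ∑ p ∈ P.filter (fun p => Nat.log 2 p = j),
      (p : ℝ) ^ (-(1 - δ)) ≤ C * x ^ j := by
    intro j _
    rcases (P.filter (fun p => Nat.log 2 p = j)).eq_empty_or_nonempty with he | hne
    · rw [he]
      simp only [Finset.sum_empty]
      positivity
    · have h2 : ∀ p ∈ P.filter (fun p => Nat.log 2 p = j), 2 ^ j ≤ p ∧ p < 2 ^ (j + 1) := by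
        intro p hp
        rw [mem_filter] at hp
        rw [← hp.2]
        exact ⟨Nat.pow_log_le_self 2 (hP0 p hp.1), Nat.lt_pow_succ_log_self (by norm_num) p⟩
      have h5 := hP j _ (Finset.filter_subset _ _) h2 hne
      have h6 : ∀ p ∈ P.filter (fun p => Nat.log 2 p = j), (p : ℝ) ^ (-(1 - δ)) ≤
          ((2 : ℝ) ^ j) ^ (-(1 - δ)) := by
        intro p hp
        apply Real.rpow_le_rpow_of_nonpos (by positivity)
        · exact_mod_cast (h2 p hp).1
        · linarith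
      refine (Finset.sum_le_sum h6).trans ?_
      rw [Finset.sum_const, nsmul_eq_mul]
      have h7 : (0 : ℝ) ≤ ((2 : ℝ) ^ j) ^ (-(1 - δ)) := by positivity
      refine (mul_le_mul_of_nonneg_right h5 h7).trans (le_of_eq ?_)
      rw [mul_assoc, ← Real.rpow_add (by positivity), hx, ← Real.rpow_natCast,
        ← Real.rpow_natCast, ← Real.rpow_mul (by norm_num), ← Real.rpow_mul (by norm_num)]
      congr 2
      ring
  refine (Finset.sum_le_sum h1).trans ?_
  rw [← Finset.mul_sum, div_eq_mul_inv]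
  apply mul_le_mul_of_nonneg_left _ hC
  rw [← tsum_geometric_of_lt_one hx0 hx1]
  exact Summable.sum_le_tsum _ (fun i _ => by positivity) (summable_geometric_of_lt_one hx0 hx1)

end Pool.Agent.Helper11.CN
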