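import Pool.Agent.Helper11.CN.Close
import Pool.Agent.Helper34.CA.Kors

/-!
Counting functions, the final forms of the criterion.
-/

set_option autoImplicit false

open Finset Filter Topology

namespace Pool.Agent.Helper11.CN

open Pool.Agent.Helper34.CA

theorem tendsto_iff (c : ℕ → ℕ) :
    (∀ ε : ℝ, 0 < ε → Tendsto (fun N : ℕ => (c N : ℝ) / (N : ℝ) ^ (1 - ε)) atTop atTop) ↔
    ∀ ε : ℝ, 0 < ε → ∃ N0 : ℕ, ∀ N : ℕ, N0 ≤ N → (N : ℝ) ^ (1 - ε) ≤ (c N : ℝ) := by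
  constructor
  · intro h ε hε
    obtain ⟨N0, hN0⟩ := (((h ε hε).eventually_ge_atTop 1).and
      (eventually_ge_atTop 1)).exists_forall_of_atTop
    refine ⟨N0, fun N hN => ?_⟩
    obtain ⟨h1, h2⟩ := hN0 N hN
    have h3 : (0 : ℝ) < N := by exact_mod_cast h2
    rwa [le_div_iff₀ (by positivity), one_mul] at h1
  · intro h ε hε
    obtain ⟨N0, hN0⟩ := h (ε / 2) (by positivity)
    have h1 : Tendsto (fun N : ℕ => (N : ℝ) ^ (ε / 2)) atTop atTop :=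
      (tendsto_rpow_atTop (by positivity)).comp tendsto_natCast_atTop_atTop
    refine tendsto_atTop_mono' atTop ?_ h1
    filter_upwards [eventually_ge_atTop N0, eventually_ge_atTop 1] with N h2 h3
    have h4 : (0 : ℝ) < N := by exact_mod_cast h3
    rw [le_div_iff₀ (by positivity), ← Real.rpow_add h4]
    refine le_trans (le_of_eq ?_) (hN0 N h2)
    congr 1
    ring

theorem finite_le (N : ℕ) (p : ℕ → Prop) : {n : ℕ | n ≤ N ∧ p n}.Finite :=
  (Set.finite_Iic N).subset fun _ h => h.1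

theorem finite_le' (z : ℝ) (p : ℕ → Prop) : {n : ℕ | n.Prime ∧ (n : ℝ) ≤ z ∧ p n}.Finite :=
  (Set.finite_Iic ⌊z⌋₊).subset fun _ h => Nat.le_floor h.2.1

/-- Carmichael numbers up to `N` -/
theorem carm_le_cnt (N : ℕ) : {n : ℕ | n ≤ N ∧ 1 < n ∧ ¬ n.Prime ∧
    ∀ b : ℕ, Nat.Coprime b n → b ^ (n - 1) ≡ 1 [MOD n]}.ncard ≤
      (cnt (fun p => p - 1) N).card := by
  rw [← Set.ncard_coe_finset]
  apply Set.ncard_le_ncard _ (Finset.finite_toSet _)
  rintro n ⟨h1, h2, h3, h4⟩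
  rw [Finset.mem_coe, mem_cnt]
  exact ⟨h1, psp_carm h2 h3 h4⟩

theorem pseu_le_cnt (a N : ℕ) : {n : ℕ | n ≤ N ∧ 1 < n ∧ ¬ n.Prime ∧
    a ^ (n - 1) ≡ 1 [MOD n]}.ncard ≤ (cnt (ordf a) N).card := by
  rw [← Set.ncard_coe_finset]
  apply Set.ncard_le_ncard _ (Finset.finite_toSet _)
  rintro n ⟨h1, h2, h3, h4⟩
  rw [Finset.mem_coe, mem_cnt]
  exact ⟨h1, psp_ord h2 h3 h4⟩

/-- `ordf a p ∣ L` -/
theorem ordf_dvd_iff {a p L : ℕ} (ha : 1 ≤ a) (h : ¬ p ∣ a) :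
    ordf a p ∣ L ↔ p ∣ a ^ L - 1 := by
  unfold ordf
  rw [if_neg h, orderOf_dvd_iff_pow_eq_one]
  have h1 : (a : ZMod p) ^ L = 1 ↔ ((a ^ L : ℕ) : ZMod p) = ((1 : ℕ) : ZMod p) := by
    push_cast
    rfl
  rw [h1, ZMod.natCast_eq_natCast_iff]
  constructor
  · intro h2
    exact (Nat.modEq_iff_dvd' (Nat.one_le_pow _ _ ha)).1 h2.symm
  · intro h2
    exact ((Nat.modEq_iff_dvd' (Nat.one_le_pow _ _ ha)).2 h2).symm

theorem isG_pseudo {a n : ℕ} (ha : 2 ≤ a) (h : IsG (ordf a) (a : ℝ) n) :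
    a ^ (n - 1) ≡ 1 [MOD n] := by
  obtain ⟨h1, h2, h3, h4⟩ := h
  have h5 : n ∣ a ^ (n - 1) - 1 := by
    rw [← Nat.prod_primeFactors_of_squarefree h3]
    apply Finset.prod_primes_dvd
    · intro p hp
      exact (Nat.prime_of_mem_primeFactors hp).prime
    · intro p hp
      have hpp := Nat.prime_of_mem_primeFactors hp
      have hpn := Nat.dvd_of_mem_primeFactors hp
      obtain ⟨h6, h7⟩ := h4 p hpp hpn
      have h8 : a < p := by exact_mod_cast h7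
      rw [Nat.prod_primeFactors_of_squarefree h3]
      refine (ordf_dvd_iff (by omega) ?_).1 h6
      intro hd
      exact absurd (Nat.le_of_dvd (by omega) hd) (by omega)
  exact ((Nat.modEq_iff_dvd' (Nat.one_le_pow _ _ (by omega))).2 h5).symm

/-- the criterion for Carmichael numbers -/
theorem carm_crit :
    (∀ ε : ℝ, 0 < ε → ∃ N0 : ℕ, ∀ N : ℕ, N0 ≤ N → (N : ℝ) ^ (1 - ε) ≤
      (({n : ℕ | n ≤ N ∧ 1 < n ∧ ¬ n.Prime ∧
        ∀ b : ℕ, Nat.Coprime b n → b ^ (n - 1) ≡ 1 [MOD n]}.ncard : ℕ) : ℝ)) ↔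
    ∀ ε : ℝ, 0 < ε → ∃ y0 : ℝ, ∀ y : ℝ, y0 ≤ y → ∃ (L : ℕ) (z : ℝ), 1 ≤ L ∧
      (L : ℝ) ≤ Real.exp y ∧ y ^ (1 / ε) ≤ z ∧
      z ^ (1 - ε) ≤ (({p : ℕ | p.Prime ∧ (p : ℝ) ≤ z ∧ p - 1 ∣ L}.ncard : ℕ) : ℝ) := by
  classical
  constructor
  · intro h ε hε
    obtain ⟨y0, hy0⟩ := crit_nec adm_carm (fun ε hε => by
      obtain ⟨N0, hN0⟩ := h ε hε
      exact ⟨N0, fun N hN => (hN0 N hN).trans (by exact_mod_cast carm_le_cnt N)⟩) hε
    refine ⟨y0, fun y hy => ?_⟩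
    obtain ⟨L, z, h1, h2, h3, P, h4, h5⟩ := hy0 y hy
    refine ⟨L, z, h1, h2, h3, h5.trans ?_⟩
    rw [Nat.cast_le, ← Set.ncard_coe_finset]
    exact Set.ncard_le_ncard (fun p hp => h4 p hp) (finite_le' z _)
  · intro h ε hε
    obtain ⟨N0, hN0⟩ := crit_suff_closed adm_carm (fun ε hε => by
      obtain ⟨y0, hy0⟩ := h ε hε
      refine ⟨y0, fun y hy => ?_⟩
      obtain ⟨L, z, h1, h2, h3, h4⟩ := hy0 y hy
      refine ⟨L, z, h1, h2, h3, (finite_le' z (fun p => p - 1 ∣ L)).toFinset, ?_, ?_⟩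
      · intro p hp
        rw [Set.Finite.mem_toFinset] at hp
        exact hp
      · rwa [← Set.ncard_eq_toFinset_card _ (finite_le' z _)]) hε 1
    refine ⟨N0, fun N hN => ?_⟩
    have h1 := hN0 N hN (finite_le N (fun n => 1 < n ∧ ¬ n.Prime ∧
        ∀ b : ℕ, Nat.Coprime b n → b ^ (n - 1) ≡ 1 [MOD n])).toFinset (by
      intro n hn hG
      rw [Set.Finite.mem_toFinset]
      refine ⟨hn, ?_⟩
      exact kors n hG.1 hG.2.1 hG.2.2.1 (fun p hp hpn => (hG.2.2.2 p hp hpn).1))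
    rwa [← Set.ncard_eq_toFinset_card _ (finite_le N _)] at h1

/-- the criterion for pseudoprimes to the base `a` -/
theorem pseu_crit {a : ℕ} (ha : 2 ≤ a) :
    (∀ ε : ℝ, 0 < ε → ∃ N0 : ℕ, ∀ N : ℕ, N0 ≤ N → (N : ℝ) ^ (1 - ε) ≤
      (({n : ℕ | n ≤ N ∧ 1 < n ∧ ¬ n.Prime ∧ a ^ (n - 1) ≡ 1 [MOD n]}.ncard : ℕ) : ℝ)) ↔
    ∀ ε : ℝ, 0 < ε → ∃ y0 : ℝ, ∀ y : ℝ, y0 ≤ y → ∃ (L : ℕ) (z : ℝ), 1 ≤ L ∧
      (L : ℝ) ≤ Real.exp y ∧ y ^ (1 / ε) ≤ z ∧
      z ^ (1 - ε) ≤ (({p : ℕ | p.Prime ∧ (p : ℝ) ≤ z ∧ p ∣ a ^ L - 1}.ncard : ℕ) : ℝ) := by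
  classical
  constructor
  · intro h ε hε
    set ε' := min ε 1 with hε'
    have hε'0 : 0 < ε' := lt_min hε one_pos
    have hε'1 : ε' ≤ 1 := min_le_right _ _
    obtain ⟨y0, hy0⟩ := crit_nec (adm_ord ha) (fun ε hε => by
      obtain ⟨N0, hN0⟩ := h ε hε
      exact ⟨N0, fun N hN => (hN0 N hN).trans (by exact_mod_cast pseu_le_cnt a N)⟩)
      (ε := ε' / 2) (by positivity)
    have e1 : ∀ᶠ y : ℝ in atTop, (a : ℝ) + 1 ≤ y :=
      eventually_ge_atTop _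
    obtain ⟨y1, hy1⟩ := (e1.and (eventually_ge_atTop (1 : ℝ))).exists_forall_of_atTop
    refine ⟨max y0 y1, fun y hy => ?_⟩
    obtain ⟨b1, b2⟩ := hy1 y ((le_max_right _ _).trans hy)
    obtain ⟨L, z, h1, h2, h3, P, h4, h5⟩ := hy0 y ((le_max_left _ _).trans hy)
    have hy0' : 0 < y := by linarith
    have hz : 1 ≤ z := (Real.one_le_rpow b2 (by positivity)).trans h3
    have hz0 : 0 < z := by linarith
    refine ⟨L, z, h1, h2, ?_, ?_⟩
    · refine (Real.rpow_le_rpow_of_exponent_le b2 ?_).trans h3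
      exact one_div_le_one_div_of_le (by positivity) (by linarith [min_le_left ε 1])
    · set A : Set ℕ := {p : ℕ | p.Prime ∧ (p : ℝ) ≤ z ∧ p ∣ a ^ L - 1} with hA
      have hAf : A.Finite := finite_le' z _
      have h6 : (P : Set ℕ) ⊆ A ∪ (Icc 1 a : Finset ℕ) := by
        intro p hp
        rw [Finset.mem_coe] at hp
        obtain ⟨h7, h8, h9⟩ := h4 p hp
        by_cases hpa : p ∣ a
        · right
          rw [Finset.mem_coe, mem_Icc]
          exact ⟨h7.one_lt.le, Nat.le_of_dvd (by omega) hpa⟩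
        · left
          exact ⟨h7, h8, (ordf_dvd_iff (by omega) hpa).1 h9⟩
      have h7 : P.card ≤ A.ncard + a := by
        have h8 := Set.ncard_le_ncard h6 (hAf.union (Finset.finite_toSet _))
        have h9 := Set.ncard_union_le A ((Icc 1 a : Finset ℕ) : Set ℕ)
        rw [Set.ncard_coe_finset] at h8 h9
        rw [Nat.card_Icc, Nat.add_sub_cancel] at h9
        exact h8.trans h9
      have h8 : (P.card : ℝ) ≤ A.ncard + a := by exact_mod_cast h7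
      have h9 : y ≤ z ^ (ε' / 2) := by
        have h10 := Real.rpow_le_rpow (by positivity) h3 (by positivity : 0 ≤ ε' / 2)
        rwa [← Real.rpow_mul hy0'.le, one_div_mul_cancel (by positivity), Real.rpow_one] at h10
      have h10 : z ^ (1 - ε' / 2) = z ^ (1 - ε') * z ^ (ε' / 2) := by
        rw [← Real.rpow_add hz0]
        congr 1
        ring
      have h11 : 1 ≤ z ^ (1 - ε') := Real.one_le_rpow hz (by linarith)
      have h12 : z ^ (1 - ε) ≤ z ^ (1 - ε') :=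
        Real.rpow_le_rpow_of_exponent_le hz (by linarith [min_le_left ε 1])
      have h13 : z ^ (1 - ε') * ((a : ℝ) + 1) ≤ z ^ (1 - ε') * z ^ (ε' / 2) :=
        mul_le_mul_of_nonneg_left (b1.trans h9) (by linarith)
      have h14 : (a : ℝ) ≤ z ^ (1 - ε') * a := le_mul_of_one_le_left (Nat.cast_nonneg a) h11
      linarith
  · intro h ε hε
    obtain ⟨N0, hN0⟩ := crit_suff_closed (adm_ord ha) (fun ε hε => by
      obtain ⟨y0, hy0⟩ := h ε hε
      refine ⟨y0, fun y hy => ?_⟩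
      obtain ⟨L, z, h1, h2, h3, h4⟩ := hy0 y hy
      refine ⟨L, z, h1, h2, h3, (finite_le' z (fun p => p ∣ a ^ L - 1)).toFinset, ?_, ?_⟩
      · intro p hp
        rw [Set.Finite.mem_toFinset] at hp
        obtain ⟨h5, h6, h7⟩ := hp
        refine ⟨h5, h6, (ordf_dvd_iff (by omega) ?_).2 h7⟩
        intro hpa
        have h8 : p ∣ a ^ L := hpa.trans (dvd_pow_self a (by omega))
        have h9 : p ∣ a ^ L - (a ^ L - 1) := Nat.dvd_sub h8 h7
        have h10 : 1 ≤ a ^ L := Nat.one_le_pow _ _ (by omega)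
        have h11 : a ^ L - (a ^ L - 1) = 1 := by omega
        rw [h11] at h9
        exact h5.one_lt.ne' (Nat.dvd_one.1 h9)
      · rwa [← Set.ncard_eq_toFinset_card _ (finite_le' z _)]) hε a
    refine ⟨N0, fun N hN => ?_⟩
    have h1 := hN0 N hN (finite_le N (fun n => 1 < n ∧ ¬ n.Prime ∧
        a ^ (n - 1) ≡ 1 [MOD n])).toFinset (by
      intro n hn hG
      rw [Set.Finite.mem_toFinset]
      exact ⟨hn, hG.1, hG.2.1, isG_pseudo ha hG⟩)
    rwa [← Set.ncard_eq_toFinset_card _ (finite_le N _)] at h1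

end Pool.Agent.Helper11.CN
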