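import Pool.Agent.Helper11.CN.Bad

/-!
The remaining numbers: `n = b ^ 2 * a` with `a` squarefree, all `f p`, `p ∣ a`, divide a small
number `L`; Rankin's trick.
-/

namespace Pool.Agent.Helper11.CN

open Finset

open Classical in
/-- primes `p ≤ N` with `f p ∣ L` -/
noncomputable def PL (f : ℕ → ℕ) (N L : ℕ) : Finset ℕ :=
  (Icc 1 N).filter (fun p => p.Prime ∧ f p ∣ L)

open Classical in
theorem mem_PL {f : ℕ → ℕ} {N L p : ℕ} : p ∈ PL f N L ↔ p ≤ N ∧ p.Prime ∧ f p ∣ L := by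
  unfold PL
  rw [mem_filter, mem_Icc]
  constructor
  · rintro ⟨⟨_, h1⟩, h2, h3⟩
    exact ⟨h1, h2, h3⟩
  · rintro ⟨h1, h2, h3⟩
    exact ⟨⟨h2.one_lt.le, h1⟩, h2, h3⟩

/-- the sum in Rankin's bound -/
noncomputable def TL (f : ℕ → ℕ) (N L : ℕ) (σ : ℝ) : ℝ := ∑ p ∈ PL f N L, (p : ℝ) ^ (-σ)

theorem sum_sqf {f : ℕ → ℕ} {N L : ℕ} {σ : ℝ} (A : Finset ℕ)
    (hA : ∀ a ∈ A, a ≤ N ∧ Squarefree a ∧ ∀ p : ℕ, p.Prime → p ∣ a → f p ∣ L) :
    ∑ a ∈ A, (a : ℝ) ^ (-σ) ≤ Real.exp (TL f N L σ) := by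
  classical
  have h1 : ∏ p ∈ PL f N L, (1 + (p : ℝ) ^ (-σ)) ≤ Real.exp (TL f N L σ) := by
    unfold TL
    rw [Real.exp_sum]
    apply Finset.prod_le_prod
    · intro p _
      positivity
    · intro p _
      rw [add_comm]
      exact Real.add_one_le_exp _
  refine le_trans ?_ h1
  rw [Finset.prod_one_add]
  have hinj : Set.InjOn (fun a : ℕ => a.primeFactors) (A : Set ℕ) := by
    intro a ha b hb hab
    simp only at hab
    rw [← Nat.prod_primeFactors_of_squarefree (hA a ha).2.1,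
      ← Nat.prod_primeFactors_of_squarefree (hA b hb).2.1, hab]
  have h2 : ∑ a ∈ A, (a : ℝ) ^ (-σ) =
      ∑ S ∈ A.image (fun a : ℕ => a.primeFactors), ∏ p ∈ S, (p : ℝ) ^ (-σ) := by
    rw [Finset.sum_image hinj]
    apply Finset.sum_congr rfl
    intro a ha
    rw [Real.finsetProd_rpow _ _ (fun p _ => Nat.cast_nonneg p)]
    rw [← Nat.cast_prod, Nat.prod_primeFactors_of_squarefree (hA a ha).2.1]
  rw [h2]
  apply Finset.sum_le_sum_of_subset_of_nonneg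
  · intro S hS
    rw [mem_image] at hS
    obtain ⟨a, ha, rfl⟩ := hS
    rw [mem_powerset]
    intro p hp
    rw [mem_PL]
    have hpp := Nat.prime_of_mem_primeFactors hp
    have hpd := Nat.dvd_of_mem_primeFactors hp
    obtain ⟨h3, h4, h5⟩ := hA a ha
    exact ⟨(Nat.le_of_dvd (Nat.pos_of_ne_zero h4.ne_zero) hpd).trans h3, hpp, h5 p hpp hpd⟩
  · intro S _ _
    apply Finset.prod_nonneg
    intro p _
    positivity

/-- Rankin's bound -/
theorem rankin {f : ℕ → ℕ} {N L : ℕ} {σ : ℝ} (hσ : 1 / 2 ≤ σ) (G : Finset ℕ)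
    (hG : ∀ n ∈ G, 1 ≤ n ∧ n ≤ N ∧ ∃ a b : ℕ, b ^ 2 * a = n ∧ Squarefree a ∧
      ∀ p : ℕ, p.Prime → p ∣ a → f p ∣ L) :
    (G.card : ℝ) ≤ (N : ℝ) ^ σ * (1 + Real.log N) * Real.exp (TL f N L σ) := by
  classical
  set A : Finset ℕ := (Icc 1 N).filter
    (fun a => Squarefree a ∧ ∀ p : ℕ, p.Prime → p ∣ a → f p ∣ L) with hA
  set Q : Finset (ℕ × ℕ) := Icc 1 N ×ˢ A with hQ
  have hsub : G ⊆ Q.image (fun q => q.1 ^ 2 * q.2) := by
    intro n hn
    obtain ⟨h1, h2, a, b, hab, hsq, hp⟩ := hG n hn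
    rw [mem_image]
    refine ⟨(b, a), ?_, hab⟩
    have hb : b ≠ 0 := by
      rintro rfl
      rw [← hab] at h1
      simp at h1
    have ha : a ≠ 0 := hsq.ne_zero
    rw [hQ, mem_product, hA, mem_filter, mem_Icc, mem_Icc]
    have hb1 : 1 ≤ b := Nat.pos_of_ne_zero hb
    have ha1 : 1 ≤ a := Nat.pos_of_ne_zero ha
    have hbn : b ≤ n := by
      rw [← hab]
      calc b = b * 1 * 1 := by ring
        _ ≤ b * b * a := Nat.mul_le_mul (Nat.mul_le_mul le_rfl hb1) ha1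
        _ = b ^ 2 * a := by ring
    have han : a ≤ n := by
      rw [← hab]
      exact Nat.le_mul_of_pos_left a (by positivity)
    exact ⟨⟨hb1, hbn.trans h2⟩, ⟨ha1, han.trans h2⟩, hsq, hp⟩
  have hσ0 : 0 < σ := by linarith
  rcases Nat.eq_zero_or_pos N with hN | hN
  · have : G = ∅ := by
      rw [Finset.eq_empty_iff_forall_notMem]
      intro n hn
      have := hG n hn
      omega
    rw [this]
    simp only [Finset.card_empty, Nat.cast_zero]
    rw [hN]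
    simp only [Nat.cast_zero, Real.log_zero, add_zero, mul_one]
    positivity
  have hN0 : (0 : ℝ) < N := by exact_mod_cast hN
  have h1 : (G.card : ℝ) ≤ ∑ n ∈ G, (N : ℝ) ^ σ * (n : ℝ) ^ (-σ) := by
    rw [Finset.card_eq_sum_ones, Nat.cast_sum]
    apply Finset.sum_le_sum
    intro n hn
    obtain ⟨h1, h2, -⟩ := hG n hn
    have hn0 : (0 : ℝ) < n := by exact_mod_cast h1
    rw [Real.rpow_neg hn0.le, ← div_eq_mul_inv, ← Real.div_rpow hN0.le hn0.le]
    push_cast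
    apply Real.one_le_rpow _ hσ0.le
    rw [le_div_iff₀ hn0, one_mul]
    exact_mod_cast h2
  refine h1.trans ?_
  rw [← Finset.mul_sum, mul_assoc]
  apply mul_le_mul_of_nonneg_left _ (Real.rpow_nonneg hN0.le _)
  set g : ℕ × ℕ → ℕ := fun q => q.1 ^ 2 * q.2 with hg
  have h2 : ∑ n ∈ G, (n : ℝ) ^ (-σ) ≤ ∑ n ∈ Q.image g, (n : ℝ) ^ (-σ) :=
    Finset.sum_le_sum_of_subset_of_nonneg hsub (fun i _ _ => by positivity)
  have h3 : ∑ n ∈ Q.image g, (n : ℝ) ^ (-σ) ≤ ∑ q ∈ Q, ((g q : ℕ) : ℝ) ^ (-σ) :=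
    Finset.sum_image_le_of_nonneg (fun q _ => by positivity)
  refine (h2.trans h3).trans ?_
  rw [hQ, Finset.sum_product]
  have h4 : ∀ b ∈ Icc 1 N, ∑ a ∈ A, (((b ^ 2 * a : ℕ)) : ℝ) ^ (-σ) ≤
      (1 / (b : ℝ)) * Real.exp (TL f N L σ) := by
    intro b hb
    rw [mem_Icc] at hb
    have hb0 : (1 : ℝ) ≤ b := by exact_mod_cast hb.1
    have h5 : ∀ a ∈ A, (((b ^ 2 * a : ℕ)) : ℝ) ^ (-σ) ≤ (1 / (b : ℝ)) * (a : ℝ) ^ (-σ) := by
      intro a _
      push_cast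
      rw [Real.mul_rpow (by positivity) (Nat.cast_nonneg a)]
      apply mul_le_mul_of_nonneg_right _ (by positivity)
      rw [← Real.rpow_natCast, ← Real.rpow_mul (by linarith), one_div, ← Real.rpow_neg_one]
      apply Real.rpow_le_rpow_of_exponent_le hb0
      push_cast
      linarith
    refine (Finset.sum_le_sum h5).trans ?_
    rw [← Finset.mul_sum]
    apply mul_le_mul_of_nonneg_left _ (by positivity)
    apply sum_sqf
    intro a ha
    rw [hA, mem_filter, mem_Icc] at ha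
    exact ⟨ha.1.2, ha.2⟩
  refine (Finset.sum_le_sum h4).trans ?_
  rw [← Finset.sum_mul]
  exact mul_le_mul_of_nonneg_right (harm_le N) (Real.exp_pos _).le

/-- a divisor of controlled size -/
theorem exists_div {a : ℕ} {R W : ℝ} (ha : 0 < a) (hW : 1 ≤ W)
    (hp : ∀ p : ℕ, p.Prime → p ∣ a → (p : ℝ) ≤ W) (h : R ≤ a) :
    ∃ d : ℕ, d ∣ a ∧ R ≤ d ∧ (d : ℝ) ≤ max 1 (R * W) := by
  classical
  have hex : ∃ d : ℕ, d ∣ a ∧ R ≤ d := ⟨a, dvd_refl a, h⟩
  refine ⟨Nat.find hex, (Nat.find_spec hex).1, (Nat.find_spec hex).2, ?_⟩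
  set d := Nat.find hex with hd
  have hda : d ∣ a := (Nat.find_spec hex).1
  have hd0 : 0 < d := Nat.pos_of_dvd_of_pos hda ha
  rcases Nat.eq_or_lt_of_le (show 1 ≤ d from hd0) with h1 | h1
  · rw [← h1]
    simp
  · apply le_max_of_le_right
    obtain ⟨p, hpp, hpd⟩ := Nat.exists_prime_and_dvd (by omega : d ≠ 1)
    obtain ⟨e, he⟩ := hpd
    have he0 : 0 < e := Nat.pos_of_ne_zero (by rintro rfl; omega)
    have hlt : e < d := by
      rw [he]
      have := hpp.two_le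
      nlinarith
    have h2 := Nat.find_min hex (by rw [← hd]; exact hlt)
    have h3 : (e : ℝ) < R := by
      by_contra hcon
      exact h2 ⟨(Dvd.intro_left p he.symm).trans hda, not_lt.1 hcon⟩
    have h4 : (p : ℝ) ≤ W := hp p hpp ((Dvd.intro e he.symm).trans hda)
    rw [he]
    push_cast
    rw [mul_comm R W]
    exact mul_le_mul h4 h3.le (Nat.cast_nonneg e) (by linarith)

/-- factorisation into two factors of controlled size -/
theorem exists_fac {a N : ℕ} {W : ℝ} (ha : 0 < a) (haN : a ≤ N) (hW : 1 ≤ W)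
    (hp : ∀ p : ℕ, p.Prime → p ∣ a → (p : ℝ) ≤ W) :
    ∃ d e : ℕ, d * e = a ∧ (d : ℝ) ≤ Real.sqrt N * W ∧ (e : ℝ) ≤ Real.sqrt N * W := by
  have hN : 1 ≤ N := by omega
  have hN1 : (1 : ℝ) ≤ N := by exact_mod_cast hN
  have hs1 : 1 ≤ Real.sqrt N := by
    rw [Real.one_le_sqrt]
    exact hN1
  have hsW : 1 ≤ Real.sqrt N * W := by nlinarith
  have hsW' : Real.sqrt N ≤ Real.sqrt N * W := by nlinarith
  rcases le_or_gt (Real.sqrt N) a with h | h
  · obtain ⟨d, hda, hRd, hdW⟩ := exists_div ha hW hp h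
    rw [max_eq_right hsW] at hdW
    obtain ⟨e, he⟩ := hda
    refine ⟨d, e, he.symm, hdW, ?_⟩
    have h1 : (a : ℝ) = d * e := by exact_mod_cast he
    have h2 : (d : ℝ) * e ≤ Real.sqrt N * Real.sqrt N := by
      rw [← h1, Real.mul_self_sqrt (Nat.cast_nonneg N)]
      exact_mod_cast haN
    have h3 : Real.sqrt N * e ≤ Real.sqrt N * Real.sqrt N :=
      le_trans (mul_le_mul_of_nonneg_right hRd (Nat.cast_nonneg e)) h2
    exact (le_of_mul_le_mul_left h3 (by linarith)).trans hsW'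
  · exact ⟨a, 1, by simp, h.le.trans hsW', by simpa using hsW⟩

open Classical in
theorem good_card {K : ℕ} {f : ℕ → ℕ} (hf : Adm K f) {N : ℕ} {W Y σ T : ℝ} (hW : 1 ≤ W)
    (hY : 0 ≤ Y) (hσ : 1 / 2 ≤ σ) (hT : ∀ L : ℕ, 1 ≤ L → (L : ℝ) ≤ Y ^ 2 → TL f N L σ ≤ T)
    (hN : 1 ≤ N) (G : Finset ℕ)
    (hG : ∀ n ∈ G, n ∈ cnt f N ∧ (∀ p : ℕ, p.Prime → p ∣ n → (p : ℝ) ≤ W) ∧
      ∀ d : ℕ, (d : ℝ) ≤ Real.sqrt N * W → d ∣ n → (Lam f d : ℝ) ≤ Y) :
    (G.card : ℝ) ≤ Y ^ 2 * ((N : ℝ) ^ σ * (1 + Real.log N) * Real.exp T) := by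
  set H : ℕ → Finset ℕ := fun L => G.filter (fun n => ∃ a b : ℕ, b ^ 2 * a = n ∧
    Squarefree a ∧ ∀ p : ℕ, p.Prime → p ∣ a → f p ∣ L) with hH
  have hsub : G ⊆ (Icc 1 ⌊Y ^ 2⌋₊).biUnion H := by
    intro n hn
    obtain ⟨hc, hpW, hdY⟩ := hG n hn
    rw [mem_cnt] at hc
    have hn0 : 0 < n := by have := hc.2.1; omega
    obtain ⟨a, b, hab, hsq⟩ := Nat.sq_mul_squarefree n
    have ha0 : 0 < a := Nat.pos_of_ne_zero hsq.ne_zero
    have han : a ∣ n := Dvd.intro_left _ hab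
    have haN : a ≤ N := (Nat.le_of_dvd hn0 han).trans hc.1
    obtain ⟨d, e, hde, hd, he⟩ := exists_fac ha0 haN hW
      (fun p hp hpa => hpW p hp (hpa.trans han))
    have hd0 : d ≠ 0 := by
      rintro rfl
      omega
    have he0 : e ≠ 0 := by
      rintro rfl
      omega
    have h1 := hdY d hd ((Dvd.intro e hde).trans han)
    have h2 := hdY e he ((Dvd.intro_left d hde).trans han)
    have h3 : Lam f a ≤ Lam f d * Lam f e := by
      rw [← hde]
      exact lam_mul hf hd0 he0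
    have h4 : (Lam f a : ℝ) ≤ Y ^ 2 := by
      have h5 : (Lam f a : ℝ) ≤ Lam f d * Lam f e := by exact_mod_cast h3
      refine h5.trans ?_
      rw [sq]
      exact mul_le_mul h1 h2 (Nat.cast_nonneg _) hY
    rw [mem_biUnion]
    refine ⟨Lam f a, ?_, ?_⟩
    · rw [mem_Icc]
      exact ⟨lam_pos hf a, Nat.le_floor h4⟩
    · rw [hH, mem_filter]
      refine ⟨hn, a, b, hab, hsq, ?_⟩
      intro p hp hpa
      exact Finset.dvd_lcm (Nat.mem_primeFactors.2 ⟨hp, hpa, ha0.ne'⟩)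
  have hN0 : (1 : ℝ) ≤ N := by exact_mod_cast hN
  have hlog : 0 ≤ Real.log N := Real.log_nonneg hN0
  have h1 : ∀ L ∈ Icc 1 ⌊Y ^ 2⌋₊, ((H L).card : ℝ) ≤
      (N : ℝ) ^ σ * (1 + Real.log N) * Real.exp T := by
    intro L hL
    rw [mem_Icc] at hL
    have hLY : (L : ℝ) ≤ Y ^ 2 :=
      le_trans (by exact_mod_cast hL.2) (Nat.floor_le (by positivity))
    have h2 := rankin (f := f) (N := N) (L := L) hσ (H L) (by
      intro n hn
      rw [hH, mem_filter] at hn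
      obtain ⟨hnG, hab⟩ := hn
      have h3 := mem_cnt.1 (hG n hnG).1
      exact ⟨h3.2.1.le, h3.1, hab⟩)
    refine h2.trans ?_
    apply mul_le_mul_of_nonneg_left _ (by positivity)
    exact Real.exp_le_exp.2 (hT L hL.1 hLY)
  have h2 := (Finset.card_le_card hsub).trans Finset.card_biUnion_le
  have h3 : (G.card : ℝ) ≤ ∑ L ∈ Icc 1 ⌊Y ^ 2⌋₊, ((H L).card : ℝ) := by exact_mod_cast h2
  refine (h3.trans (Finset.sum_le_sum h1)).trans ?_
  rw [Finset.sum_const, nsmul_eq_mul, Nat.card_Icc, Nat.add_sub_cancel]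
  apply mul_le_mul_of_nonneg_right (Nat.floor_le (by positivity))
  positivity

end Pool.Agent.Helper11.CN
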