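import Pool.Agent.Helper11.CN.Good

/-!
The sum over the primes `p` with `f p ∣ L`, if few primes have smooth `f p`.
-/

namespace Pool.Agent.Helper11.CN

open Finset

open Classical in
/-- primes `p ≤ z` such that `f p` is `z ^ ε`-smooth -/
noncomputable def SmS (f : ℕ → ℕ) (z ε : ℝ) : Finset ℕ :=
  (Icc 1 ⌊z⌋₊).filter (fun p => p.Prime ∧ ∀ q : ℕ, q.Prime → q ∣ f p → (q : ℝ) ≤ z ^ ε)

open Classical in
theorem mem_SmS {f : ℕ → ℕ} {z ε : ℝ} (hz : 0 ≤ z) {p : ℕ} : p ∈ SmS f z ε ↔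
    p.Prime ∧ (p : ℝ) ≤ z ∧ ∀ q : ℕ, q.Prime → q ∣ f p → (q : ℝ) ≤ z ^ ε := by
  unfold SmS
  rw [mem_filter, mem_Icc]
  constructor
  · rintro ⟨⟨_, h1⟩, h2, h3⟩
    exact ⟨h2, (Nat.cast_le.2 h1).trans (Nat.floor_le hz), h3⟩
  · rintro ⟨h1, h2, h3⟩
    exact ⟨⟨h1.one_lt.le, Nat.le_floor h2⟩, h1, h3⟩

theorem sum_pow_le {δ X : ℝ} (hδ : 0 ≤ δ) (hX : 0 ≤ X) :
    ∑ n ∈ Icc 1 ⌊X⌋₊, (n : ℝ) ^ (-(1 - δ)) ≤ X ^ δ * (1 + Real.log ⌊X⌋₊) := by
  have h1 : ∀ n ∈ Icc 1 ⌊X⌋₊, (n : ℝ) ^ (-(1 - δ)) ≤ X ^ δ * (1 / (n : ℝ)) := by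
    intro n hn
    rw [mem_Icc] at hn
    have hn0 : (0 : ℝ) < n := by exact_mod_cast hn.1
    have hnX : (n : ℝ) ≤ X := (Nat.cast_le.2 hn.2).trans (Nat.floor_le hX)
    rw [show -(1 - δ) = δ + (-1) by ring, Real.rpow_add hn0, Real.rpow_neg_one, one_div]
    exact mul_le_mul_of_nonneg_right (Real.rpow_le_rpow hn0.le hnX hδ) (by positivity)
  refine (Finset.sum_le_sum h1).trans ?_
  rw [← Finset.mul_sum]
  exact mul_le_mul_of_nonneg_left (harm_le _) (Real.rpow_nonneg hX _)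

theorem sum_biUnion_le' (R : Finset ℕ) (B : ℕ → Finset ℕ) (g : ℕ → ℝ) (hg : ∀ i, 0 ≤ g i) :
    ∑ p ∈ R.biUnion B, g p ≤ ∑ r ∈ R, ∑ p ∈ B r, g p := by
  classical
  induction R using Finset.induction_on with
  | empty => simp
  | insert a s ha ih =>
    rw [Finset.biUnion_insert, Finset.sum_insert ha]
    have h1 := Finset.sum_union_inter (s₁ := B a) (s₂ := s.biUnion B) (f := g)
    have h2 : 0 ≤ ∑ p ∈ B a ∩ s.biUnion B, g p := Finset.sum_nonneg (fun i _ => hg i)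
    linarith

theorem log_floor_le {X : ℝ} (hX : 1 ≤ X) : Real.log ⌊X⌋₊ ≤ Real.log X := by
  apply Real.log_le_log
  · have : 1 ≤ ⌊X⌋₊ := Nat.le_floor (by simpa using hX)
    exact_mod_cast this
  · exact Nat.floor_le (by linarith)

theorem card_pf {L : ℕ} (hL : 0 < L) : (L.primeFactors.card : ℝ) ≤ 2 * Real.log L := by
  have h1 : 2 ^ L.primeFactors.card ≤ L := by
    calc 2 ^ L.primeFactors.card = ∏ _p ∈ L.primeFactors, 2 := by
          rw [Finset.prod_const]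
      _ ≤ ∏ p ∈ L.primeFactors, p := by
          apply Finset.prod_le_prod'
          intro p hp
          exact (Nat.prime_of_mem_primeFactors hp).two_le
      _ ≤ L := Nat.le_of_dvd hL (Nat.prod_primeFactors_dvd L)
  have h2 : (L.primeFactors.card : ℝ) * Real.log 2 ≤ Real.log L := by
    rw [← Real.log_pow]
    apply Real.log_le_log (by positivity)
    exact_mod_cast h1
  have h3 : (1 / 2 : ℝ) < Real.log 2 := by
    have := Real.log_two_gt_d9
    linarith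
  have h4 : (0 : ℝ) ≤ L.primeFactors.card := Nat.cast_nonneg _
  nlinarith

/-- primes `p` with a large prime factor `r` of `f p` -/
theorem sum_r {K : ℕ} {f : ℕ → ℕ} (hf : Adm K f) {ε : ℝ} (hε : 0 < ε) (hε1 : ε ≤ 1) {r : ℕ}
    (hr : 1 ≤ r) (P : Finset ℕ)
    (hP : ∀ p ∈ P, p.Prime ∧ r ∣ f p ∧ (p : ℝ) ^ ε < r) :
    ∑ p ∈ P, (p : ℝ) ^ (-(1 - ε / 4)) ≤ (1 + 4 / ε) * (r : ℝ) ^ (-(1 / 2) : ℝ) := by
  classical
  have hr1 : (1 : ℝ) ≤ r := by exact_mod_cast hr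
  have hr0 : (0 : ℝ) < r := by linarith
  set X : ℝ := (r : ℝ) ^ (1 / ε - 1) with hX
  have hX1 : 1 ≤ X := by
    rw [hX]
    apply Real.one_le_rpow hr1
    rw [sub_nonneg, le_div_iff₀ hε, one_mul]
    exact hε1
  have hsub : P ⊆ (Icc 1 ⌊X⌋₊).image (fun k => r * k + 1) := by
    intro p hp
    obtain ⟨hpp, hrf, hpr⟩ := hP p hp
    obtain ⟨k, hk⟩ := hrf.trans (hf.dvd p hpp)
    have h2 := hpp.two_le
    have hpk : p = r * k + 1 := by omega
    rw [mem_image]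
    refine ⟨k, ?_, hpk.symm⟩
    rw [mem_Icc]
    constructor
    · apply Nat.pos_of_ne_zero
      rintro rfl
      omega
    · apply Nat.le_floor
      have hp0 : (0 : ℝ) < p := by exact_mod_cast hpp.pos
      have h3 : (p : ℝ) ≤ (r : ℝ) ^ (1 / ε) := by
        have h4 := Real.rpow_le_rpow (by positivity) hpr.le (by positivity : 0 ≤ 1 / ε)
        rwa [← Real.rpow_mul hp0.le, mul_one_div_cancel hε.ne', Real.rpow_one] at h4
      have h5 : (r : ℝ) * k ≤ p := by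
        rw [hpk]
        push_cast
        linarith
      rw [hX, Real.rpow_sub hr0, Real.rpow_one, le_div_iff₀ hr0]
      linarith [mul_comm (r : ℝ) k]
  set g : ℕ → ℕ := fun k => r * k + 1 with hg
  have h1 : ∑ p ∈ P, (p : ℝ) ^ (-(1 - ε / 4)) ≤
      ∑ k ∈ Icc 1 ⌊X⌋₊, ((g k : ℕ) : ℝ) ^ (-(1 - ε / 4)) :=
    (Finset.sum_le_sum_of_subset_of_nonneg hsub (fun i _ _ => by positivity)).trans
      (Finset.sum_image_le_of_nonneg (fun q _ => by positivity))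
  have h2 : ∀ k ∈ Icc 1 ⌊X⌋₊, ((g k : ℕ) : ℝ) ^ (-(1 - ε / 4)) ≤
      (r : ℝ) ^ (-(1 - ε / 4)) * (k : ℝ) ^ (-(1 - ε / 4)) := by
    intro k hk
    rw [mem_Icc] at hk
    have hk0 : (0 : ℝ) < k := by exact_mod_cast hk.1
    rw [← Real.mul_rpow hr0.le hk0.le]
    apply Real.rpow_le_rpow_of_nonpos (by positivity)
    · rw [hg]
      push_cast
      linarith
    · linarith
  refine (h1.trans (Finset.sum_le_sum h2)).trans ?_
  rw [← Finset.mul_sum]
  have h3 := sum_pow_le (δ := ε / 4) (X := X) (by positivity) (by linarith)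
  have h4 : X ^ (ε / 4) ≤ (r : ℝ) ^ (1 / 4 - ε / 4) := by
    rw [hX, ← Real.rpow_mul hr0.le]
    apply Real.rpow_le_rpow_of_exponent_le hr1
    field_simp
    exact le_refl _
  have h5 : 1 + Real.log ⌊X⌋₊ ≤ (1 + 4 / ε) * (r : ℝ) ^ (1 / 4 : ℝ) := by
    have h6 : Real.log ⌊X⌋₊ ≤ (1 / ε - 1) * Real.log r := by
      refine (log_floor_le hX1).trans ?_
      rw [hX, Real.log_rpow hr0]
    have h7 : Real.log r ≤ (r : ℝ) ^ (1 / 4 : ℝ) / (1 / 4) :=
      Real.log_le_rpow_div hr0.le (by norm_num)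
    have h8 : 0 ≤ Real.log r := Real.log_nonneg hr1
    have h9 : (1 / ε - 1) * Real.log r ≤ 1 / ε * Real.log r :=
      mul_le_mul_of_nonneg_right (by linarith) h8
    have h10 : 1 / ε * Real.log r ≤ 1 / ε * ((r : ℝ) ^ (1 / 4 : ℝ) / (1 / 4)) :=
      mul_le_mul_of_nonneg_left h7 (by positivity)
    have h11 : 1 ≤ (r : ℝ) ^ (1 / 4 : ℝ) := Real.one_le_rpow hr1 (by norm_num)
    calc 1 + Real.log ⌊X⌋₊ ≤ (r : ℝ) ^ (1 / 4 : ℝ) + 1 / ε * ((r : ℝ) ^ (1 / 4 : ℝ) / (1 / 4)) := by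
          linarith
      _ = _ := by
          field_simp
  have hlog : 0 ≤ 1 + Real.log ⌊X⌋₊ := by
    have : 0 ≤ Real.log ⌊X⌋₊ := Real.log_natCast_nonneg _
    linarith
  calc (r : ℝ) ^ (-(1 - ε / 4)) * ∑ k ∈ Icc 1 ⌊X⌋₊, (k : ℝ) ^ (-(1 - ε / 4)) ≤
        (r : ℝ) ^ (-(1 - ε / 4)) * ((r : ℝ) ^ (1 / 4 - ε / 4) *
          ((1 + 4 / ε) * (r : ℝ) ^ (1 / 4 : ℝ))) := by
        apply mul_le_mul_of_nonneg_left _ (by positivity)
        exact h3.trans (mul_le_mul h4 h5 hlog (by positivity))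
    _ = (1 + 4 / ε) * ((r : ℝ) ^ (-(1 - ε / 4)) * (r : ℝ) ^ (1 / 4 - ε / 4) *
          (r : ℝ) ^ (1 / 4 : ℝ)) := by ring
    _ = (1 + 4 / ε) * (r : ℝ) ^ (-(1 / 2) : ℝ) := by
        rw [← Real.rpow_add hr0, ← Real.rpow_add hr0]
        congr 2
        ring

/-- primes with smooth `f p` -/
theorem sum_smooth {f : ℕ → ℕ} {ε z0 : ℝ} (hε : 0 < ε)
    (hz : ∀ z : ℝ, z0 ≤ z → ((SmS f z ε).card : ℝ) ≤ z ^ (1 - ε)) (P : Finset ℕ)
    (hP : ∀ p ∈ P, p.Prime ∧ z0 ≤ p ∧ ∀ q : ℕ, q.Prime → q ∣ f p → (q : ℝ) ≤ (p : ℝ) ^ ε)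
    (hε1 : ε ≤ 1) :
    ∑ p ∈ P, (p : ℝ) ^ (-(1 - ε / 4)) ≤ 2 / (1 - (2 : ℝ) ^ (-(3 * ε / 4))) := by
  classical
  obtain ⟨J, hJ⟩ : ∃ J : ℕ, ∀ p ∈ P, Nat.log 2 p ∈ range J := by
    refine ⟨P.sup (fun p => Nat.log 2 p) + 1, ?_⟩
    intro p hp
    rw [mem_range, Nat.lt_succ_iff]
    exact Finset.le_sup (f := fun p => Nat.log 2 p) hp
  rw [← Finset.sum_fiberwise_of_maps_to hJ]
  set x : ℝ := (2 : ℝ) ^ (-(3 * ε / 4)) with hx
  have hx0 : 0 ≤ x := by positivity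
  have hx1 : x < 1 := by
    rw [hx]
    apply Real.rpow_lt_one_of_one_lt_of_neg (by norm_num)
    linarith
  have h1 : ∀ j ∈ range J, ∑ p ∈ P.filter (fun p => Nat.log 2 p = j),
      (p : ℝ) ^ (-(1 - ε / 4)) ≤ 2 * x ^ j := by
    intro j _
    rcases (P.filter (fun p => Nat.log 2 p = j)).eq_empty_or_nonempty with he | ⟨p0, hp0⟩
    · rw [he]
      simp only [Finset.sum_empty]
      positivity
    · have h2 : ∀ p ∈ P.filter (fun p => Nat.log 2 p = j), 2 ^ j ≤ p ∧ p < 2 ^ (j + 1) := by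
        intro p hp
        rw [mem_filter] at hp
        have hpp := (hP p hp.1).1
        rw [← hp.2]
        exact ⟨Nat.pow_log_le_self 2 hpp.ne_zero, Nat.lt_pow_succ_log_self (by norm_num) p⟩
      have h3 : z0 ≤ (2 : ℝ) ^ (j + 1) := by
        have h4 := (hP p0 (mem_filter.1 hp0).1).2.1
        have h5 : (p0 : ℝ) < (2 : ℝ) ^ (j + 1) := by exact_mod_cast (h2 p0 hp0).2
        linarith
      have h4 : P.filter (fun p => Nat.log 2 p = j) ⊆ SmS f ((2 : ℝ) ^ (j + 1)) ε := by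
        intro p hp
        have h5 := h2 p hp
        rw [mem_filter] at hp
        obtain ⟨hpp, -, hq⟩ := hP p hp.1
        rw [mem_SmS (by positivity)]
        have h6 : (p : ℝ) ≤ (2 : ℝ) ^ (j + 1) := by exact_mod_cast h5.2.le
        refine ⟨hpp, h6, ?_⟩
        intro q hqp hqd
        exact (hq q hqp hqd).trans (Real.rpow_le_rpow (Nat.cast_nonneg p) h6 hε.le)
      have h5 : ((P.filter (fun p => Nat.log 2 p = j)).card : ℝ) ≤
          ((2 : ℝ) ^ (j + 1)) ^ (1 - ε) :=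
        le_trans (by exact_mod_cast Finset.card_le_card h4) (hz _ h3)
      have h6 : ∀ p ∈ P.filter (fun p => Nat.log 2 p = j), (p : ℝ) ^ (-(1 - ε / 4)) ≤
          ((2 : ℝ) ^ j) ^ (-(1 - ε / 4)) := by
        intro p hp
        apply Real.rpow_le_rpow_of_nonpos (by positivity)
        · exact_mod_cast (h2 p hp).1
        · linarith
      refine (Finset.sum_le_sum h6).trans ?_
      rw [Finset.sum_const, nsmul_eq_mul]
      have h7 : (0 : ℝ) ≤ ((2 : ℝ) ^ j) ^ (-(1 - ε / 4)) := by positivity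
      refine (mul_le_mul_of_nonneg_right h5 h7).trans ?_
      have e1 : ((2 : ℝ) ^ (j + 1)) ^ (1 - ε) = (2 : ℝ) ^ (1 - ε) * ((2 : ℝ) ^ j) ^ (1 - ε) := by
        rw [pow_succ, mul_comm, Real.mul_rpow (by positivity) (by positivity)]
      have e2 : ((2 : ℝ) ^ j) ^ (1 - ε) * ((2 : ℝ) ^ j) ^ (-(1 - ε / 4)) = x ^ j := by
        rw [← Real.rpow_add (by positivity), hx, ← Real.rpow_natCast, ← Real.rpow_natCast,
          ← Real.rpow_mul (by norm_num), ← Real.rpow_mul (by norm_num)]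
        congr 1
        ring
      rw [e1, mul_assoc, e2]
      apply mul_le_mul_of_nonneg_right _ (by positivity)
      calc (2 : ℝ) ^ (1 - ε) ≤ (2 : ℝ) ^ (1 : ℝ) :=
            Real.rpow_le_rpow_of_exponent_le (by norm_num) (by linarith)
        _ = 2 := Real.rpow_one 2
  refine (Finset.sum_le_sum h1).trans ?_
  rw [← Finset.mul_sum, div_eq_mul_inv]
  apply mul_le_mul_of_nonneg_left _ (by norm_num)
  rw [← tsum_geometric_of_lt_one hx0 hx1]
  exact Summable.sum_le_tsum _ (fun i _ => by positivity) (summable_geometric_of_lt_one hx0 hx1)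

/-- the bound for `TL` -/
theorem TL_le {K : ℕ} {f : ℕ → ℕ} (hf : Adm K f) {ε z0 w : ℝ} (hε : 0 < ε) (hε1 : ε ≤ 1)
    (hz : ∀ z : ℝ, z0 ≤ z → ((SmS f z ε).card : ℝ) ≤ z ^ (1 - ε)) {N L : ℕ} (hw : 1 ≤ w)
    (hwz : z0 ≤ w) (hL : 1 ≤ L) (hLw : Real.log L ≤ w) :
    TL f N L (1 - ε / 4) ≤ w ^ (ε / 4) * (1 + Real.log w) +
      2 * w * ((1 + 4 / ε) * w ^ (-(ε / 2))) + 2 / (1 - (2 : ℝ) ^ (-(3 * ε / 4))) := by
  classical
  unfold TL
  rw [← Finset.sum_filter_add_sum_filter_not (PL f N L) (fun p : ℕ => (p : ℝ) ≤ w),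
    ← Finset.sum_filter_add_sum_filter_not ((PL f N L).filter (fun p : ℕ => ¬ (p : ℝ) ≤ w))
      (fun p : ℕ => ∃ r : ℕ, r.Prime ∧ r ∣ f p ∧ (p : ℝ) ^ ε < r), ← add_assoc]
  apply add_le_add (add_le_add _ _) _
  · have h1 : ∑ p ∈ (PL f N L).filter (fun p : ℕ => (p : ℝ) ≤ w), (p : ℝ) ^ (-(1 - ε / 4)) ≤
        ∑ n ∈ Icc 1 ⌊w⌋₊, (n : ℝ) ^ (-(1 - ε / 4)) := by
      apply Finset.sum_le_sum_of_subset_of_nonneg
      · intro p hp
        rw [mem_filter, mem_PL] at hp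
        rw [mem_Icc]
        exact ⟨hp.1.2.1.one_lt.le, Nat.le_floor hp.2⟩
      · intro i _ _
        positivity
    refine (h1.trans (sum_pow_le (by positivity) (by linarith))).trans ?_
    apply mul_le_mul_of_nonneg_left _ (by positivity)
    linarith [log_floor_le hw]
  · set B := ((PL f N L).filter (fun p : ℕ => ¬ (p : ℝ) ≤ w)).filter
      (fun p : ℕ => ∃ r : ℕ, r.Prime ∧ r ∣ f p ∧ (p : ℝ) ^ ε < r) with hB
    set R : Finset ℕ := L.primeFactors.filter (fun r : ℕ => w ^ ε ≤ r) with hR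
    have hsub : B ⊆ R.biUnion (fun r => B.filter (fun p => r ∣ f p ∧ (p : ℝ) ^ ε < r)) := by
      intro p hp
      have hp' := hp
      rw [hB, mem_filter, mem_filter, mem_PL] at hp'
      obtain ⟨⟨⟨-, hpp, hpL⟩, hpw⟩, r, hr, hrf, hrp⟩ := hp'
      rw [mem_biUnion]
      refine ⟨r, ?_, ?_⟩
      · rw [hR, mem_filter, Nat.mem_primeFactors]
        refine ⟨⟨hr, hrf.trans hpL, by omega⟩, ?_⟩
        exact (Real.rpow_le_rpow (by linarith) (not_le.1 hpw).le hε.le).trans hrp.le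
      · rw [mem_filter]
        exact ⟨hp, hrf, hrp⟩
    have h1 : ∑ p ∈ B, (p : ℝ) ^ (-(1 - ε / 4)) ≤
        ∑ r ∈ R, ∑ p ∈ B.filter (fun p => r ∣ f p ∧ (p : ℝ) ^ ε < r), (p : ℝ) ^ (-(1 - ε / 4)) :=
      (Finset.sum_le_sum_of_subset_of_nonneg hsub (fun i _ _ => by positivity)).trans
        (sum_biUnion_le' R
          (fun r => B.filter (fun p => r ∣ f p ∧ (p : ℝ) ^ ε < r))
          (fun p : ℕ => (p : ℝ) ^ (-(1 - ε / 4))) (fun i => by positivity))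
    have h2 : ∀ r ∈ R, ∑ p ∈ B.filter (fun p => r ∣ f p ∧ (p : ℝ) ^ ε < r),
        (p : ℝ) ^ (-(1 - ε / 4)) ≤ (1 + 4 / ε) * w ^ (-(ε / 2)) := by
      intro r hr
      rw [hR, mem_filter] at hr
      have hr0 := (Nat.prime_of_mem_primeFactors hr.1).one_lt.le
      have h3 := sum_r hf hε hε1 hr0 (B.filter (fun p => r ∣ f p ∧ (p : ℝ) ^ ε < r)) (by
        intro p hp
        rw [mem_filter, hB, mem_filter, mem_filter, mem_PL] at hp
        exact ⟨hp.1.1.1.2.1, hp.2⟩)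
      refine h3.trans ?_
      apply mul_le_mul_of_nonneg_left _ (by positivity)
      have h4 : w ^ (-(ε / 2)) = (w ^ ε) ^ (-(1 / 2) : ℝ) := by
        rw [← Real.rpow_mul (by linarith)]
        congr 1
        ring
      rw [h4]
      exact Real.rpow_le_rpow_of_nonpos (by positivity) hr.2 (by norm_num)
    refine (h1.trans (Finset.sum_le_sum h2)).trans ?_
    rw [Finset.sum_const, nsmul_eq_mul]
    apply mul_le_mul_of_nonneg_right _ (by positivity)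
    have h5 : R.card ≤ L.primeFactors.card := Finset.card_le_card (Finset.filter_subset _ _)
    have h6 := card_pf (show 0 < L by omega)
    have h7 : (R.card : ℝ) ≤ L.primeFactors.card := by exact_mod_cast h5
    linarith
  · apply sum_smooth hε hz _ _ hε1
    intro p hp
    rw [mem_filter, mem_filter, mem_PL] at hp
    obtain ⟨⟨⟨-, hpp, -⟩, hpw⟩, hr⟩ := hp
    refine ⟨hpp, by linarith [not_le.1 hpw], ?_⟩
    intro q hq hqf
    by_contra hcon
    exact hr ⟨q, hq, hqf, not_le.1 hcon⟩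

end Pool.Agent.Helper11.CN
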