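import Pool.Agent.Helper34.CA.MainA
import Pool.Agent.Helper11.CN.Primes

/-!
The modulus `(L * primorial Y) ^ B`.
-/

set_option autoImplicit false

open Finset Filter Topology

namespace Pool.Agent.Helper11.CN

open Pool.Agent.Helper34.CA

/-- the modulus -/
def ML (L Y B : ℕ) : ℕ := (L * primorial Y) ^ B

theorem ML_pos {L : ℕ} (hL : 0 < L) (Y B : ℕ) : 0 < ML L Y B :=
  pow_pos (Nat.mul_pos hL (primorial_pos Y)) B

theorem dvd_ML {L : ℕ} (Y : ℕ) {B : ℕ} (hB : B ≠ 0) : L ∣ ML L Y B :=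
  (Dvd.intro _ rfl).trans (dvd_pow_self _ hB)

theorem ML_le {L : ℕ} {y m : ℝ} (hy : 0 ≤ y) (hLm : (L : ℝ) ≤ Real.exp m)
    (B : ℕ) : (ML L ⌊y⌋₊ B : ℝ) ≤ Real.exp ((m + 2 * y) * B) := by
  have h1 : (primorial ⌊y⌋₊ : ℝ) ≤ Real.exp (2 * y) := by
    have h2 : (primorial ⌊y⌋₊ : ℝ) ≤ (4 : ℝ) ^ ⌊y⌋₊ := by
      exact_mod_cast primorial_le_four_pow ⌊y⌋₊
    refine h2.trans ?_
    have h3 : (4 : ℝ) ≤ Real.exp 2 := by
      have h4 := Real.exp_one_gt_d9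
      have h5 : Real.exp 2 = Real.exp 1 * Real.exp 1 := by
        rw [← Real.exp_add]
        norm_num
      rw [h5]
      nlinarith
    calc (4 : ℝ) ^ ⌊y⌋₊ ≤ Real.exp 2 ^ ⌊y⌋₊ := pow_le_pow_left₀ (by norm_num) h3 _
      _ = Real.exp ((⌊y⌋₊ : ℝ) * 2) := (Real.exp_nat_mul 2 ⌊y⌋₊).symm
      _ ≤ Real.exp (2 * y) := Real.exp_le_exp.2 (by linarith [Nat.floor_le hy])
  unfold ML
  push_cast
  calc ((L : ℝ) * primorial ⌊y⌋₊) ^ B ≤ (Real.exp m * Real.exp (2 * y)) ^ B := by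
        apply pow_le_pow_left₀ (by positivity)
        exact mul_le_mul hLm h1 (Nat.cast_nonneg _) (Real.exp_pos _).le
    _ = Real.exp ((B : ℝ) * (m + 2 * y)) := by
        rw [← Real.exp_add, ← Real.exp_nat_mul]
    _ = Real.exp ((m + 2 * y) * B) := by rw [mul_comm]

theorem prime_dvd_ML {L q : ℕ} {y : ℝ} {B : ℕ} (hy : 0 ≤ y) (hq : q.Prime)
    (h : q ∣ ML L ⌊y⌋₊ B) : q ∣ L ∨ (q : ℝ) ≤ y := by
  have h1 := hq.dvd_of_dvd_pow h
  rcases hq.dvd_mul.1 h1 with h2 | h2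
  · exact Or.inl h2
  · rw [prime_dvd_primorial hq] at h2
    exact Or.inr ((Nat.le_floor_iff hy).1 h2)

theorem factorization_ML {L q : ℕ} {y : ℝ} {B : ℕ} (hL : 0 < L) (hq : q.Prime)
    (h : (q : ℝ) ≤ y ∨ q ∣ ML L ⌊y⌋₊ B) : B ≤ (ML L ⌊y⌋₊ B).factorization q := by
  have h1 : q ∣ L * primorial ⌊y⌋₊ := by
    rcases h with h | h
    · exact ((prime_dvd_primorial hq).2 (Nat.le_floor h)).trans (Dvd.intro_left _ rfl)
    · exact hq.dvd_of_dvd_pow h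
  rw [← hq.pow_dvd_iff_le_factorization (ML_pos hL _ _).ne']
  exact pow_dvd_pow_of_dvd h1 B

end Pool.Agent.Helper11.CN
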