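import Pool.Agent.Helper11.CN.Primes

/-!
If few primes `p` have smooth `f p`, then few numbers `n` satisfy `f p ∣ n - 1` for all `p ∣ n`.
-/

namespace Pool.Agent.Helper11.CN

open Finset Filter

theorem T_small {ε C : ℝ} (hε : 0 < ε) (hε1 : ε ≤ 1) (hC : 0 ≤ C) :
    ∃ w1 : ℝ, ∀ w : ℝ, w1 ≤ w → w ^ (ε / 4) * (1 + Real.log w) +
      2 * w * ((1 + 4 / ε) * w ^ (-(ε / 2))) + C ≤ ε / 16 * w := by
  set A : ℝ := 5 + 2 * (1 + 4 / ε) + C with hA
  have h1 : ∀ᶠ w : ℝ in atTop, A * 16 / ε ≤ w ^ (ε / 2) :=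
    (tendsto_rpow_atTop (by positivity)).eventually_ge_atTop _
  obtain ⟨w1, hw1⟩ := (h1.and (eventually_ge_atTop (1 : ℝ))).exists_forall_of_atTop
  refine ⟨w1, fun w hw => ?_⟩
  obtain ⟨h2, h3⟩ := hw1 w hw
  have hw0 : 0 < w := by linarith
  have h4 : w ^ (ε / 4) ≤ w ^ (1 / 4 : ℝ) :=
    Real.rpow_le_rpow_of_exponent_le h3 (by linarith)
  have h5 : Real.log w ≤ w ^ (1 / 4 : ℝ) / (1 / 4) := Real.log_le_rpow_div hw0.le (by norm_num)
  have h6 : 1 ≤ w ^ (1 / 4 : ℝ) := Real.one_le_rpow h3 (by norm_num)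
  have h7 : 0 ≤ Real.log w := Real.log_nonneg h3
  have h8 : w ^ (ε / 4) * (1 + Real.log w) ≤ 5 * w ^ (1 - ε / 2) := by
    calc w ^ (ε / 4) * (1 + Real.log w) ≤ w ^ (1 / 4 : ℝ) * (5 * w ^ (1 / 4 : ℝ)) := by
          apply mul_le_mul h4 (by linarith) (by linarith) (by positivity)
      _ = 5 * w ^ (1 / 2 : ℝ) := by
          rw [show (1 / 2 : ℝ) = 1 / 4 + 1 / 4 by norm_num, Real.rpow_add hw0]
          ring
      _ ≤ 5 * w ^ (1 - ε / 2) := by
          apply mul_le_mul_of_nonneg_left _ (by norm_num)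
          exact Real.rpow_le_rpow_of_exponent_le h3 (by linarith)
  have h9 : 2 * w * ((1 + 4 / ε) * w ^ (-(ε / 2))) = 2 * (1 + 4 / ε) * w ^ (1 - ε / 2) := by
    rw [show 1 - ε / 2 = 1 + -(ε / 2) by ring, Real.rpow_add hw0, Real.rpow_one]
    ring
  have h10 : C ≤ C * w ^ (1 - ε / 2) :=
    le_mul_of_one_le_right hC (Real.one_le_rpow h3 (by linarith))
  have h11 : A * w ^ (1 - ε / 2) ≤ ε / 16 * w := by
    have h12 : w = w ^ (ε / 2) * w ^ (1 - ε / 2) := by
      rw [← Real.rpow_add hw0, show ε / 2 + (1 - ε / 2) = 1 by ring, Real.rpow_one]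
    have h13 : A ≤ ε / 16 * w ^ (ε / 2) := by
      rw [div_le_iff₀ hε] at h2
      linarith
    calc A * w ^ (1 - ε / 2) ≤ ε / 16 * w ^ (ε / 2) * w ^ (1 - ε / 2) :=
          mul_le_mul_of_nonneg_right h13 (by positivity)
      _ = ε / 16 * w := by rw [mul_assoc, ← h12]
  rw [h9]
  calc w ^ (ε / 4) * (1 + Real.log w) + 2 * (1 + 4 / ε) * w ^ (1 - ε / 2) + C ≤
        A * w ^ (1 - ε / 2) := by
        rw [hA]
        linarith
    _ ≤ _ := h11

theorem final_small {ε : ℝ} (hε : 0 < ε) (K : ℕ) :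
    ∃ N1 : ℕ, ∀ N : ℕ, N1 ≤ N → (K : ℝ) + 1 + 3 * (1 + Real.log N) < (N : ℝ) ^ (ε / 64) := by
  set A : ℝ := K + 4 + 384 / ε with hA
  have h1 : ∀ᶠ x : ℝ in atTop, A < x ^ (ε / 128) :=
    (tendsto_rpow_atTop (by positivity)).eventually_gt_atTop _
  have h2 : ∀ᶠ N : ℕ in atTop, A < (N : ℝ) ^ (ε / 128) :=
    tendsto_natCast_atTop_atTop.eventually h1
  obtain ⟨N1, hN1⟩ := (h2.and (eventually_ge_atTop 1)).exists_forall_of_atTop
  refine ⟨N1, fun N hN => ?_⟩
  obtain ⟨h3, h4⟩ := hN1 N hN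
  have hN1 : (1 : ℝ) ≤ N := by exact_mod_cast h4
  have hN0 : (0 : ℝ) < N := by linarith
  have h5 : Real.log N ≤ (N : ℝ) ^ (ε / 128) / (ε / 128) :=
    Real.log_le_rpow_div hN0.le (by positivity)
  have h6 : 1 ≤ (N : ℝ) ^ (ε / 128) := Real.one_le_rpow hN1 (by positivity)
  have h7 : (N : ℝ) ^ (ε / 64) = (N : ℝ) ^ (ε / 128) * (N : ℝ) ^ (ε / 128) := by
    rw [← Real.rpow_add hN0]
    congr 1
    ring
  have h8 : (N : ℝ) ^ (ε / 128) / (ε / 128) = 128 / ε * (N : ℝ) ^ (ε / 128) := by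
    field_simp
  have hK : (0 : ℝ) ≤ K := Nat.cast_nonneg K
  have h9 : ((K : ℝ) + 4) * 1 ≤ (K + 4) * (N : ℝ) ^ (ε / 128) :=
    mul_le_mul_of_nonneg_left h6 (by positivity)
  have h10 : (K : ℝ) + 1 + 3 * (1 + Real.log N) ≤ A * (N : ℝ) ^ (ε / 128) := by
    rw [hA]
    rw [h8] at h5
    have : (384 / ε : ℝ) = 3 * (128 / ε) := by ring
    rw [this]
    linarith
  rw [h7]
  exact h10.trans_lt (mul_lt_mul_of_pos_right h3 (by positivity))

open Classical in
/-- the upper bound, from a bound for `TL` -/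
theorem main_of_TL (K : ℕ) {ε : ℝ} (hε : 0 < ε) (hε1 : ε ≤ 1) :
    ∃ N1 : ℕ, ∀ N : ℕ, N1 ≤ N → ∀ f : ℕ → ℕ, Adm K f →
      (∀ L : ℕ, 1 ≤ L → (L : ℝ) ≤ N → TL f N L (1 - ε / 4) ≤ ε / 16 * Real.log N) →
      ((cnt f N).card : ℝ) < (N : ℝ) ^ (1 - ε / 64) := by
  obtain ⟨N1, hN1⟩ := final_small hε K
  have h1 : ∀ᶠ N : ℕ in atTop, 1 ≤ Real.log N :=
    (Real.tendsto_log_atTop.comp tendsto_natCast_atTop_atTop).eventually_ge_atTop _
  obtain ⟨N0, hN0⟩ := (h1.and (eventually_ge_atTop (max N1 1))).exists_forall_of_atTop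
  refine ⟨N0, fun N hN f hf hTL => ?_⟩
  obtain ⟨hw, h3⟩ := hN0 N hN
  have hN1' : N1 ≤ N := (le_max_left _ _).trans h3
  have hN1'' : 1 ≤ N := (le_max_right _ _).trans h3
  have hNr : (1 : ℝ) ≤ N := by exact_mod_cast hN1''
  have hNp : (0 : ℝ) < N := by linarith
  set η : ℝ := ε / 16 with hη
  have hη0 : 0 < η := by positivity
  have hη1 : η ≤ 1 / 16 := by
    rw [hη]
    linarith
  set W : ℝ := (N : ℝ) ^ η with hW
  have hW1 : 1 ≤ W := Real.one_le_rpow hNr hη0.le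
  set M0 : ℝ := (N : ℝ) ^ (η / 2) with hM0
  have hM01 : 1 ≤ M0 := Real.one_le_rpow hNr (by positivity)
  have hWM : W = M0 * M0 := by
    rw [hW, hM0, ← Real.rpow_add hNp]
    congr 1
    ring
  set l : ℝ := 1 + Real.log N with hl
  have hl1 : 1 ≤ l := by
    rw [hl]
    linarith
  set U : ℝ := (N : ℝ) ^ (1 - η / 2) with hU
  have hU1 : 1 ≤ U := Real.one_le_rpow hNr (by linarith)
  -- first bad set
  have hb1 := bad_one hf (N := N) (W := W) (M0 := M0) (by linarith) (by linarith)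
  have hb1' : (K : ℝ) * N * M0 / W + N * (1 + Real.log N) / M0 = (K + l) * U := by
    have e1 : (N : ℝ) / M0 = U := by
      rw [hU, hM0, Real.rpow_sub hNp, Real.rpow_one]
    rw [hWM]
    have hM0' : M0 ≠ 0 := by linarith
    calc (K : ℝ) * N * M0 / (M0 * M0) + N * (1 + Real.log N) / M0 =
          (K + (1 + Real.log N)) * (N / M0) := by
          field_simp
      _ = _ := by rw [e1]
  rw [hb1'] at hb1
  -- second bad set
  set D : ℕ := ⌊Real.sqrt N * W⌋₊ with hD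
  have hDle : (D : ℝ) ≤ Real.sqrt N * W := Nat.floor_le (by positivity)
  have hsW : Real.sqrt N * W = (N : ℝ) ^ (1 / 2 + η) := by
    rw [Real.sqrt_eq_rpow, hW, ← Real.rpow_add hNp]
  have hDN : (D : ℝ) ≤ N := by
    rw [hsW] at hDle
    refine hDle.trans ?_
    calc (N : ℝ) ^ (1 / 2 + η) ≤ (N : ℝ) ^ (1 : ℝ) :=
          Real.rpow_le_rpow_of_exponent_le hNr (by linarith)
      _ = N := Real.rpow_one _
  have hDU : (D : ℝ) ≤ U := by
    rw [hsW] at hDle
    exact hDle.trans (Real.rpow_le_rpow_of_exponent_le hNr (by linarith))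
  have hlogD : Real.log D ≤ Real.log N := by
    rcases Nat.eq_zero_or_pos D with h | h
    · rw [h]
      simp only [Nat.cast_zero, Real.log_zero]
      linarith
    · exact Real.log_le_log (by exact_mod_cast h) hDN
  have hb2 := bad_two f N D (Y := W) (by linarith)
  have hNW : (N : ℝ) / W ≤ U := by
    rw [hU, hW, div_le_iff₀ (by positivity), ← Real.rpow_add hNp]
    calc (N : ℝ) = (N : ℝ) ^ (1 : ℝ) := (Real.rpow_one _).symm
      _ ≤ _ := Real.rpow_le_rpow_of_exponent_le hNr (by linarith)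
  have hb2' : (N : ℝ) * (1 + Real.log D) / W + D ≤ l * U + U := by
    apply add_le_add _ hDU
    calc (N : ℝ) * (1 + Real.log D) / W = (1 + Real.log D) * (N / W) := by ring
      _ ≤ l * U := by
          apply mul_le_mul _ hNW (by positivity) (by linarith)
          rw [hl]
          linarith
  -- the good set
  set B1 := (cnt f N).filter (fun n => ∃ p : ℕ, p.Prime ∧ W < p ∧ p ∣ n) with hB1
  set B2 := (cnt f N).filter (fun n => ∃ d : ℕ, d ≤ D ∧ d ∣ n ∧ W < Lam f d) with hB2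
  set G := cnt f N \ (B1 ∪ B2) with hG
  have hcard : ((cnt f N).card : ℝ) ≤ B1.card + B2.card + G.card := by
    have h4 : cnt f N ⊆ (B1 ∪ B2) ∪ G := by
      intro n hn
      rw [mem_union, hG, Finset.mem_sdiff]
      by_cases h5 : n ∈ B1 ∪ B2
      · exact Or.inl h5
      · exact Or.inr ⟨hn, h5⟩
    have h5 := (Finset.card_le_card h4).trans (Finset.card_union_le _ _)
    have h6 := Finset.card_union_le B1 B2
    have h7 : (cnt f N).card ≤ B1.card + B2.card + G.card := by omega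
    exact_mod_cast h7
  have hgood := good_card hf (N := N) (W := W) (Y := W) (σ := 1 - ε / 4)
    (T := η * Real.log N) hW1 (by linarith) (by linarith)
    (by
      intro L hL hLW
      refine hTL L hL (hLW.trans ?_)
      rw [hW, ← Real.rpow_natCast, ← Real.rpow_mul hNp.le]
      calc (N : ℝ) ^ (η * (2 : ℕ)) ≤ (N : ℝ) ^ (1 : ℝ) := by
            apply Real.rpow_le_rpow_of_exponent_le hNr
            push_cast
            linarith
        _ = N := Real.rpow_one _) hN1'' G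
    (by
      intro n hn
      rw [hG, Finset.mem_sdiff, mem_union, not_or, hB1, hB2, mem_filter, mem_filter] at hn
      obtain ⟨h4, h5, h6⟩ := hn
      refine ⟨h4, ?_, ?_⟩
      · intro p hp hpn
        by_contra hcon
        exact h5 ⟨h4, p, hp, not_le.1 hcon, hpn⟩
      · intro d hd hdn
        by_contra hcon
        exact h6 ⟨h4, d, Nat.le_floor hd, hdn, not_le.1 hcon⟩)
  have hgood' : W ^ 2 * ((N : ℝ) ^ (1 - ε / 4) * (1 + Real.log N) *
      Real.exp (η * Real.log N)) ≤ l * U := by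
    have e1 : Real.exp (η * Real.log N) = (N : ℝ) ^ η := by
      rw [Real.rpow_def_of_pos hNp, mul_comm]
    have e2 : W ^ 2 = (N : ℝ) ^ (2 * η) := by
      rw [hW, ← Real.rpow_natCast, ← Real.rpow_mul hNp.le]
      congr 1
      push_cast
      ring
    have e3 : (N : ℝ) ^ (2 * η) * (N : ℝ) ^ (1 - ε / 4) * (N : ℝ) ^ η ≤ U := by
      rw [← Real.rpow_add hNp, ← Real.rpow_add hNp, hU]
      apply Real.rpow_le_rpow_of_exponent_le hNr
      rw [hη]
      linarith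
    rw [e1, e2]
    calc (N : ℝ) ^ (2 * η) * ((N : ℝ) ^ (1 - ε / 4) * (1 + Real.log N) * (N : ℝ) ^ η) =
          l * ((N : ℝ) ^ (2 * η) * (N : ℝ) ^ (1 - ε / 4) * (N : ℝ) ^ η) := by
          rw [hl]
          ring
      _ ≤ l * U := mul_le_mul_of_nonneg_left e3 (by linarith)
  have htot : ((cnt f N).card : ℝ) ≤ (K + 1 + 3 * l) * U := by
    calc ((cnt f N).card : ℝ) ≤ B1.card + B2.card + G.card := hcard
      _ ≤ (K + l) * U + (l * U + U) + l * U :=
          add_le_add (add_le_add hb1 (hb2.trans hb2')) (hgood.trans hgood')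
      _ = _ := by ring
  refine htot.trans_lt ?_
  have hfin := hN1 N hN1'
  have hU0 : 0 < U := by linarith
  calc ((K : ℝ) + 1 + 3 * l) * U < (N : ℝ) ^ (ε / 64) * U := mul_lt_mul_of_pos_right hfin hU0
    _ ≤ (N : ℝ) ^ (1 - ε / 64) := by
        rw [hU, ← Real.rpow_add hNp]
        apply Real.rpow_le_rpow_of_exponent_le hNr
        rw [hη]
        linarith

/-- the main upper bound -/
theorem main {K : ℕ} {f : ℕ → ℕ} (hf : Adm K f) {ε z0 : ℝ} (hε : 0 < ε) (hε1 : ε ≤ 1)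
    (hz : ∀ z : ℝ, z0 ≤ z → ((SmS f z ε).card : ℝ) ≤ z ^ (1 - ε)) :
    ∃ N0 : ℕ, ∀ N : ℕ, N0 ≤ N → ((cnt f N).card : ℝ) < (N : ℝ) ^ (1 - ε / 64) := by
  have hx1 : (2 : ℝ) ^ (-(3 * ε / 4)) < 1 := by
    apply Real.rpow_lt_one_of_one_lt_of_neg (by norm_num)
    linarith
  have hC : 0 ≤ 2 / (1 - (2 : ℝ) ^ (-(3 * ε / 4))) :=
    div_nonneg (by norm_num) (by linarith)
  obtain ⟨w1, hw1⟩ := T_small hε hε1 hC
  obtain ⟨N1, hN1⟩ := main_of_TL K hε hε1
  have h1 : ∀ᶠ N : ℕ in atTop, max (max w1 z0) 1 ≤ Real.log N :=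
    (Real.tendsto_log_atTop.comp tendsto_natCast_atTop_atTop).eventually_ge_atTop _
  obtain ⟨N0, hN0⟩ := (h1.and (eventually_ge_atTop N1)).exists_forall_of_atTop
  refine ⟨N0, fun N hN => ?_⟩
  obtain ⟨h2, h3⟩ := hN0 N hN
  have hw : 1 ≤ Real.log N := (le_max_right _ _).trans h2
  have hww1 : w1 ≤ Real.log N := (le_max_left _ _).trans ((le_max_left _ _).trans h2)
  have hwz0 : z0 ≤ Real.log N := (le_max_right _ _).trans ((le_max_left _ _).trans h2)
  refine hN1 N h3 f hf (fun L hL hLN => ?_)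
  have hL0 : (0 : ℝ) < L := by exact_mod_cast hL
  exact (TL_le hf hε hε1 hz hw hwz0 hL (Real.log_le_log hL0 hLN)).trans (hw1 _ hww1)

end Pool.Agent.Helper11.CN
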