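import Pool.Agent.Helper34.CA.NiceApprox

/-!
The sieve expansion of project CA for primes `ℓ` such that `ℓ - 1` has no prime factor in `(y, w]`
apart from the divisors of `M`. Adapted from `Pool.Agent.Helper34.CA.NiceApprox`.
-/

set_option autoImplicit false

open Finset Filter Topology
open scoped ArithmeticFunction.vonMangoldt

namespace Pool.Agent.Helper11.CN

open Pool.Agent.Helper18.BV
open Pool.Agent.Helper34.CA
open Pool.Agent.Helper34.CA.NiceApproxAux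

/-- primes `ℓ ≤ x` such that `ℓ - 1` has no prime factor in `(y, w]` except those dividing `M` -/
noncomputable def nzE (x y w : ℝ) (M : ℕ) : Finset ℕ := by
  classical
  exact (Icc 1 ⌊x⌋₊).filter (fun ℓ => ℓ.Prime ∧ ∀ q : ℕ, q.Prime → q ∣ ℓ - 1 →
    (q : ℝ) ≤ y ∨ w < q ∨ q ∣ M)

/-- the sieve expansion -/
def NiceApproxE : Prop :=
  ∀ κ κ₂ : ℝ, 0 < κ → κ < κ₂ → κ₂ < 1 → ∀ g : ℝ → ℝ, IsWt g → ∃ C0 : ℝ, 0 < C0 ∧
    ∀ A : ℝ, 0 < A → ∃ X0 : ℝ, 3 ≤ X0 ∧ ∀ x : ℝ, X0 ≤ x → ∀ M : ℕ, ∃ 𝒯 : Finset (Finset ℕ),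
      (∀ T ∈ 𝒯, (∀ p ∈ T, p.Prime ∧ ¬ p ∣ M ∧ Real.log x ^ κ < p ∧
        (p : ℝ) ≤ Real.exp (Real.log x ^ κ₂)) ∧ ((∏ p ∈ T, p : ℕ) : ℝ) ≤ x ^ (1 / 80 : ℝ)) ∧
      Real.log x ^ (-C0) ≤ ∑ T ∈ 𝒯, (-1 : ℝ) ^ T.card / ((∏ p ∈ T, p : ℕ).totient : ℝ) ∧
      ∀ b : ℕ → ℂ, (∀ n, ‖b n‖ ≤ 1) →
        ‖∑ ℓ ∈ nzE x (Real.log x ^ κ) (Real.exp (Real.log x ^ κ₂)) M,
            (Real.log ℓ : ℂ) * b ℓ * (wt g x ℓ : ℂ) -
          ∑ T ∈ 𝒯, (-1 : ℂ) ^ T.card *
            ∑ n ∈ (Icc 1 ⌊x⌋₊).filter (fun n => n ≡ 1 [MOD ∏ p ∈ T, p]),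
              LaC n * b n * (wt g x n : ℂ)‖ ≤ 1 / Real.log x ^ A

theorem main_errE (hB : BrunPure) {g : ℝ → ℝ} (hg : IsWt g) {G : ℝ} (hG : ∀ v, g v ≤ G)
    (hG0 : 0 < G) {x : ℝ} (hx : 3 ≤ x) {y w : ℝ} (M0 : ℕ) (P : Finset ℕ)
    (hP : ∀ p, p ∈ P ↔ p.Prime ∧ y < p ∧ (p : ℝ) ≤ w ∧ ¬ p ∣ M0) (r : ℕ) (b : ℕ → ℂ)
    (hb : ∀ n, ‖b n‖ ≤ 1) :
    ‖∑ ℓ ∈ nzE x y w M0, (Real.log ℓ : ℂ) * b ℓ * (wt g x ℓ : ℂ) -
      ∑ T ∈ P.powerset.filter (fun T => T.card ≤ r), (-1 : ℂ) ^ T.card *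
        ∑ n ∈ (Icc 1 ⌊x⌋₊).filter (fun n => n ≡ 1 [MOD ∏ p ∈ T, p]),
          LaC n * b n * (wt g x n : ℂ)‖ ≤
      G * Real.log x * (1 + Real.log x) * es (fun p => 1 / (p : ℝ)) P (r + 1) +
        ∑ n ∈ (Icc 1 ⌊x⌋₊).filter (fun n => ¬ n.Prime), Λ n * wt g x n := by
  classical
  set N := ⌊x⌋₊ with hN
  set c : ℕ → ℂ := fun n => LaC n * b n * (wt g x n : ℂ) with hc
  set I : ℕ → ℝ := fun n => if ∀ p ∈ P, ¬ p ∣ (n - 1) then (1 : ℝ) else 0 with hI
  set M : ℕ → ℝ := fun n => ∑ T ∈ P.powerset.filter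
    (fun T => T.card ≤ r ∧ (∏ p ∈ T, p) ∣ (n - 1)), (-1 : ℝ) ^ T.card with hM
  have hcn : ∀ n, ‖c n‖ ≤ Λ n * wt g x n := by
    intro n
    simp only [hc]
    rw [norm_mul, norm_mul, LaC_apply, Complex.norm_real, Complex.norm_real,
      Real.norm_of_nonneg ArithmeticFunction.vonMangoldt_nonneg,
      Real.norm_of_nonneg (wt_nonneg hg _ _)]
    have h2 : 0 ≤ Λ n := ArithmeticFunction.vonMangoldt_nonneg
    have h3 := wt_nonneg hg x n
    exact mul_le_mul_of_nonneg_right (mul_le_of_le_one_right h2 (hb n)) h3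
  have hI01 : ∀ n, 0 ≤ I n ∧ I n ≤ 1 := by
    intro n
    simp only [hI]
    split_ifs <;> norm_num
  -- the sum over nice primes
  have eA : ∑ ℓ ∈ nzE x y w M0, (Real.log ℓ : ℂ) * b ℓ * (wt g x ℓ : ℂ) =
      ∑ n ∈ (Icc 1 N).filter (fun n => n.Prime), c n * (I n : ℂ) := by
    have e1 : nzE x y w M0 = ((Icc 1 N).filter (fun n => n.Prime)).filter
        (fun n => ∀ p ∈ P, ¬ p ∣ (n - 1)) := by
      ext n
      unfold nzE
      simp only [Finset.mem_filter]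
      constructor
      · rintro ⟨h1, h2, h3⟩
        refine ⟨⟨h1, h2⟩, fun p hp hd => ?_⟩
        have h4 := (hP p).1 hp
        rcases h3 p h4.1 hd with h5 | h5 | h5
        · linarith [h4.2.1]
        · linarith [h4.2.2.1]
        · exact h4.2.2.2 h5
      · rintro ⟨⟨h1, h2⟩, h3⟩
        refine ⟨h1, h2, fun q hq hd => ?_⟩
        by_contra hcon
        rw [not_or, not_or, not_le, not_lt] at hcon
        exact h3 q ((hP q).2 ⟨hq, hcon.1, hcon.2.1, hcon.2.2⟩) hd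
    rw [e1, Finset.sum_filter]
    refine Finset.sum_congr rfl fun n hn => ?_
    have hnp := (Finset.mem_filter.1 hn).2
    simp only [hI, hc]
    split_ifs with h
    · rw [LaC_apply, ArithmeticFunction.vonMangoldt_apply_prime hnp]
      push_cast
      ring
    · simp
  have eB : ∑ T ∈ P.powerset.filter (fun T => T.card ≤ r), (-1 : ℂ) ^ T.card *
        ∑ n ∈ (Icc 1 N).filter (fun n => n ≡ 1 [MOD ∏ p ∈ T, p]),
          LaC n * b n * (wt g x n : ℂ) = ∑ n ∈ Icc 1 N, c n * (M n : ℂ) := by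
    have e1 : ∀ T ∈ P.powerset.filter (fun T => T.card ≤ r), (-1 : ℂ) ^ T.card *
        ∑ n ∈ (Icc 1 N).filter (fun n => n ≡ 1 [MOD ∏ p ∈ T, p]),
          LaC n * b n * (wt g x n : ℂ) =
        ∑ n ∈ Icc 1 N, if (∏ p ∈ T, p) ∣ n - 1 then (-1 : ℂ) ^ T.card * c n else 0 := by
      intro T _
      rw [Finset.mul_sum, Finset.sum_filter]
      refine Finset.sum_congr rfl fun n hn => ?_
      have hn1 := (Finset.mem_Icc.1 hn).1
      have hiff : n ≡ 1 [MOD ∏ p ∈ T, p] ↔ (∏ p ∈ T, p) ∣ n - 1 := by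
        rw [← Nat.modEq_iff_dvd' hn1]
        exact ⟨fun h => h.symm, fun h => h.symm⟩
      by_cases h : (∏ p ∈ T, p) ∣ n - 1
      · rw [if_pos h, if_pos (hiff.2 h)]
      · rw [if_neg h, if_neg (fun h' => h (hiff.1 h'))]
    rw [Finset.sum_congr rfl e1, Finset.sum_comm]
    refine Finset.sum_congr rfl fun n _ => ?_
    simp only [hM]
    rw [← Finset.sum_filter, Finset.filter_filter, ← Finset.sum_mul, mul_comm]
    push_cast
    rfl
  have key : ∑ ℓ ∈ nzE x y w M0, (Real.log ℓ : ℂ) * b ℓ * (wt g x ℓ : ℂ) -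
      ∑ T ∈ P.powerset.filter (fun T => T.card ≤ r), (-1 : ℂ) ^ T.card *
        ∑ n ∈ (Icc 1 N).filter (fun n => n ≡ 1 [MOD ∏ p ∈ T, p]),
          LaC n * b n * (wt g x n : ℂ) =
      ∑ n ∈ Icc 1 N, c n * ((I n - M n : ℝ) : ℂ) -
        ∑ n ∈ (Icc 1 N).filter (fun n => ¬ n.Prime), c n * (I n : ℂ) := by
    rw [eA, eB]
    have e2 : ∑ n ∈ Icc 1 N, c n * (I n : ℂ) =
        ∑ n ∈ (Icc 1 N).filter (fun n => n.Prime), c n * (I n : ℂ) +
        ∑ n ∈ (Icc 1 N).filter (fun n => ¬ n.Prime), c n * (I n : ℂ) :=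
      (Finset.sum_filter_add_sum_filter_not _ _ _).symm
    have e3 : ∑ n ∈ Icc 1 N, c n * ((I n - M n : ℝ) : ℂ) =
        ∑ n ∈ Icc 1 N, c n * (I n : ℂ) - ∑ n ∈ Icc 1 N, c n * (M n : ℂ) := by
      rw [← Finset.sum_sub_distrib]
      refine Finset.sum_congr rfl fun n _ => ?_
      push_cast
      ring
    rw [e3, e2]
    ring
  rw [key]
  refine (norm_sub_le _ _).trans (add_le_add ?_ ?_)
  · refine (norm_sum_le _ _).trans ((Finset.sum_le_sum fun n hn => ?_).trans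
      (err_one hg hG hG0 hx P (fun p hp => ((hP p).1 hp).1) r))
    rw [norm_mul, Complex.norm_real, Real.norm_eq_abs]
    rcases Nat.lt_or_ge n 2 with h2 | h2
    · have hn1 : n = 1 := by have := (Finset.mem_Icc.1 hn).1; omega
      subst hn1
      have h0 : ‖c 1‖ ≤ 0 := by
        refine (hcn 1).trans (le_of_eq ?_)
        simp
      have h0' : ‖c 1‖ = 0 := le_antisymm h0 (norm_nonneg _)
      rw [h0', zero_mul]
      have : (0 : ℝ) ≤ Λ 1 * wt g x 1 :=
        mul_nonneg ArithmeticFunction.vonMangoldt_nonneg (wt_nonneg hg _ _)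
      exact mul_nonneg this (Nat.cast_nonneg _)
    · have h3 := hB P (fun p hp => ((hP p).1 hp).1) (n - 1) r (by omega)
      exact mul_le_mul (hcn n) h3 (abs_nonneg _)
        (mul_nonneg ArithmeticFunction.vonMangoldt_nonneg (wt_nonneg hg _ _))
  · refine (norm_sum_le _ _).trans (Finset.sum_le_sum fun n hn => ?_)
    rw [norm_mul, Complex.norm_real, Real.norm_of_nonneg (hI01 n).1]
    exact (mul_le_of_le_one_right (norm_nonneg _) (hI01 n).2).trans (hcn n)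

theorem niceApproxE (h : BrunPure) : NiceApproxE := by
  intro κ κ₂ hκ hκκ₂ hκ₂ g hg
  obtain ⟨G, hG0, hG⟩ := hg.exists_bound
  obtain ⟨C, hC, hM⟩ := Pool.Agent.Helper44.sum_primesUpTo_bounds
  obtain ⟨C2, hC2, hE2⟩ := err_two hg hG hG0
  refine ⟨7, by norm_num, fun A hA => ?_⟩
  obtain ⟨X1, hX1⟩ := Filter.eventually_atTop.1
    (Real.tendsto_log_atTop.eventually (conditions hκ hκ₂ A C C2 G))
  refine ⟨max 3 X1, le_max_left _ _, fun x hx M0 => ?_⟩
  have hx3 : 3 ≤ x := (le_max_left _ _).trans hx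
  obtain ⟨c1, c2, c3, c4, c5, c6⟩ := hX1 x ((le_max_right _ _).trans hx)
  set l := Real.log x with hl
  have hx0 : 0 < x := by linarith
  have hl0 : 0 < l := by linarith
  set L := Real.log l with hL
  have hL1 : 1 ≤ L := by
    rw [hL, ← Real.log_exp 1]
    refine Real.log_le_log (Real.exp_pos _) ?_
    have := Real.exp_one_lt_d9; linarith
  have hL0 : 0 ≤ L := by linarith
  have hpw : ∀ s : ℝ, l ^ s = Real.exp (s * L) := by
    intro s
    rw [Real.rpow_def_of_pos hl0, mul_comm]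
  have hlκ₂ : 1 ≤ l ^ κ₂ := Real.one_le_rpow (by linarith) (by linarith)
  set y := l ^ κ with hy
  set w := Real.exp (l ^ κ₂) with hw
  have hw2 : 2 ≤ w := by
    have := Real.add_one_le_exp (l ^ κ₂)
    linarith
  set P : Finset ℕ := (Pool.Agent.Helper44.primesUpTo w).filter
    (fun p : ℕ => y < (p : ℝ) ∧ ¬ p ∣ M0) with hPdef
  have hP : ∀ p, p ∈ P ↔ p.Prime ∧ y < p ∧ (p : ℝ) ≤ w ∧ ¬ p ∣ M0 := by
    intro p
    rw [hPdef, Finset.mem_filter, Pool.Agent.Helper44.mem_primesUpTo (by linarith)]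
    tauto
  have hP3 : ∀ p ∈ P, 3 ≤ p := by
    intro p hp
    have h1 : (2 : ℝ) < p := lt_of_le_of_lt c2 ((hP p).1 hp).2.1
    exact_mod_cast h1
  have hS : ∑ p ∈ P, 1 / ((p : ℝ) - 1) ≤ 3 * L := by
    have h1 : ∀ p ∈ P, 1 / ((p : ℝ) - 1) ≤ 2 * (1 / (p : ℝ)) := by
      intro p hp
      have h3 : (3 : ℝ) ≤ p := by exact_mod_cast hP3 p hp
      rw [mul_one_div, div_le_div_iff₀ (by linarith) (by linarith)]
      linarith
    refine (Finset.sum_le_sum h1).trans ?_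
    rw [← Finset.mul_sum]
    have h2 : ∑ p ∈ P, 1 / (p : ℝ) ≤ ∑ p ∈ Pool.Agent.Helper44.primesUpTo w, 1 / (p : ℝ) :=
      Finset.sum_le_sum_of_subset_of_nonneg (Finset.filter_subset _ _) fun p _ _ => by positivity
    have h3 := (abs_le.1 (hM w hw2)).2
    have h4 : Real.log (Real.log w) = κ₂ * L := by
      rw [hw, Real.log_exp, Real.log_rpow hl0]
    rw [h4] at h3
    nlinarith
  have hS' : ∑ p ∈ P, 1 / (p : ℝ) ≤ 3 * L := by
    refine le_trans (Finset.sum_le_sum fun p hp => ?_) hS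
    have h3 : (3 : ℝ) ≤ p := by exact_mod_cast hP3 p hp
    exact one_div_le_one_div_of_le (by linarith) (by linarith)
  set K := A + 16 with hK
  set r := ⌈K * L⌉₊ with hr
  have hr1 : K * L ≤ r := Nat.le_ceil _
  have hr2 : (r : ℝ) ≤ K * L + 1 := (Nat.ceil_lt_add_one (by positivity)).le
  have hr3 : K * L ≤ ((r + 1 : ℕ) : ℝ) := by push_cast; linarith
  refine ⟨P.powerset.filter (fun T => T.card ≤ r), ?_, ?_, ?_⟩
  · intro T hT
    rw [Finset.mem_filter, Finset.mem_powerset] at hT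
    refine ⟨fun p hp => ?_, ?_⟩
    · obtain ⟨q1, q2, q3, q4⟩ := (hP p).1 (hT.1 hp)
      exact ⟨q1, q4, q2, q3⟩
    have h1 : ((∏ p ∈ T, p : ℕ) : ℝ) ≤ w ^ T.card := by
      push_cast
      rw [← Finset.prod_const]
      exact Finset.prod_le_prod (fun p _ => Nat.cast_nonneg _)
        (fun p hp => ((hP p).1 (hT.1 hp)).2.2.1)
    have h2 : w ^ T.card ≤ w ^ r := pow_le_pow_right₀ (by linarith) hT.2
    refine h1.trans (h2.trans ?_)
    rw [hw, ← Real.exp_nat_mul, Real.rpow_def_of_pos hx0]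
    apply Real.exp_le_exp.2
    have h3 : (r : ℝ) * l ^ κ₂ ≤ (K * L + 1) * l ^ κ₂ :=
      mul_le_mul_of_nonneg_right hr2 (by linarith)
    rw [← hl]
    linarith
  · refine le_trans ?_ (sum_trunc P (fun p hp => ⟨((hP p).1 hp).1, hP3 p hp⟩) r)
    have h1 := prod_lower P hP3 hS
    have h2 := es_small (fun p => 1 / ((p : ℝ) - 1)) P (fun p hp => by
      have h3 : (3 : ℝ) ≤ p := by exact_mod_cast hP3 p hp
      show 0 ≤ 1 / ((p : ℝ) - 1)
      apply div_nonneg <;> linarith) hL0 hS (r + 1) hr3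
    have h3 : Real.exp ((9 - K) * L) ≤ Real.exp (-(7 * L)) := by
      apply Real.exp_le_exp.2
      nlinarith
    have h4 : Real.exp (-(6 * L)) = Real.exp (-(7 * L)) * l := by
      have e : l = Real.exp L := by rw [hL, Real.exp_log hl0]
      rw [e, ← Real.exp_add]
      congr 1
      ring
    have h5 : l ^ (-7 : ℝ) = Real.exp (-(7 * L)) := by
      rw [hpw]
      congr 1
      ring
    rw [h5]
    have h6 := Real.exp_pos (-(7 * L))
    rw [h4] at h1
    nlinarith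
  · intro b hb
    refine (main_errE h hg hG hG0 hx3 M0 P hP r b hb).trans ?_
    have h1 := es_small (fun p => 1 / (p : ℝ)) P (fun p _ => by positivity) hL0 hS' (r + 1) hr3
    have h2 := hE2 x hx3
    rw [← hl] at h2 ⊢
    have e1 : 1 / l ^ A = Real.exp (-(A * L)) := by
      rw [hpw, one_div, ← Real.exp_neg]
    have e2 : Real.exp ((9 - K) * L) = Real.exp (-(A * L)) * Real.exp (-(7 * L)) := by
      rw [← Real.exp_add]
      congr 1
      rw [hK]
      ring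
    have e3 : Real.exp (7 * L) = l ^ (7 : ℕ) := by
      have h := hpw (7 : ℝ)
      rw [← h]
      exact_mod_cast Real.rpow_natCast l 7
    have e4 : Real.exp (-(7 * L)) = 1 / l ^ (7 : ℕ) := by
      rw [Real.exp_neg, e3, one_div]
    have hA1 : 0 < Real.exp (-(A * L)) := Real.exp_pos _
    have h3 : G * l * (1 + l) * es (fun p => 1 / (p : ℝ)) P (r + 1) ≤
        1 / 2 * Real.exp (-(A * L)) := by
      have h4 : G * l * (1 + l) * es (fun p => 1 / (p : ℝ)) P (r + 1) ≤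
          G * l * (1 + l) * (Real.exp (-(A * L)) * (1 / l ^ (7 : ℕ))) := by
        rw [← e4, ← e2]
        exact mul_le_mul_of_nonneg_left h1 (by positivity)
      refine h4.trans ?_
      have h5 : G * l * (1 + l) * (1 / l ^ (7 : ℕ)) ≤ 1 / 2 := by
        rw [mul_one_div, div_le_div_iff₀ (by positivity) (by norm_num)]
        have h6 : l ^ 3 ≤ l ^ 7 := pow_le_pow_right₀ (by linarith) (by norm_num)
        have h7 : 4 * G * l ^ 2 ≤ l * l ^ 2 :=
          mul_le_mul_of_nonneg_right c5 (by positivity)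
        have h8 : 0 ≤ G * l * (l - 1) := mul_nonneg (by positivity) (by linarith)
        have h9 : G * l * (1 + l) * 2 = 4 * G * l ^ 2 - 2 * (G * l * (l - 1)) := by ring
        have h10 : l * l ^ 2 = l ^ 3 := by ring
        rw [h9, one_mul]
        linarith
      calc G * l * (1 + l) * (Real.exp (-(A * L)) * (1 / l ^ (7 : ℕ))) =
            (G * l * (1 + l) * (1 / l ^ (7 : ℕ))) * Real.exp (-(A * L)) := by ring
        _ ≤ 1 / 2 * Real.exp (-(A * L)) := mul_le_mul_of_nonneg_right h5 hA1.le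
    have h4 : C2 * l ^ 2 * x ^ (-(1 / 8) : ℝ) ≤ 1 / 2 * Real.exp (-(A * L)) := by
      have e5 : x ^ (-(1 / 8) : ℝ) = Real.exp (-(l / 8)) := by
        rw [Real.rpow_def_of_pos hx0]
        congr 1
        rw [← hl]
        ring
      have e6 : l ^ (A + 2) = Real.exp (A * L) * l ^ 2 := by
        rw [Real.rpow_add hl0, hpw A]
        congr 1
        exact_mod_cast Real.rpow_natCast l 2
      rw [e6] at c6
      have h5 : Real.exp (A * L) * Real.exp (-(A * L)) = 1 := by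
        rw [← Real.exp_add]; simp
      have h6 : Real.exp (l / 8) * Real.exp (-(l / 8)) = 1 := by
        rw [← Real.exp_add]; simp
      rw [e5]
      have h7 : 2 * C2 * (Real.exp (A * L) * l ^ 2) * (Real.exp (-(A * L)) * Real.exp (-(l / 8))) ≤
          Real.exp (l / 8) * (Real.exp (-(A * L)) * Real.exp (-(l / 8))) :=
        mul_le_mul_of_nonneg_right c6 (by positivity)
      have h8 : 2 * C2 * (Real.exp (A * L) * l ^ 2) * (Real.exp (-(A * L)) * Real.exp (-(l / 8))) =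
          2 * (C2 * l ^ 2 * Real.exp (-(l / 8))) * (Real.exp (A * L) * Real.exp (-(A * L))) := by
        ring
      have h9 : Real.exp (l / 8) * (Real.exp (-(A * L)) * Real.exp (-(l / 8))) =
          Real.exp (-(A * L)) * (Real.exp (l / 8) * Real.exp (-(l / 8))) := by ring
      rw [h8, h9, h5, h6, mul_one, mul_one] at h7
      linarith
    rw [e1]
    linarith [h2.trans h4]

end Pool.Agent.Helper11.CN
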