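import Pool.Agent.Helper11.CN.NApprox

/-!
The mass of the primes of `nzE`. Adapted from `Pool.Agent.Helper34.CA.NiceMass`.
-/

set_option autoImplicit false

open Finset Filter Topology
open scoped ArithmeticFunction.vonMangoldt

namespace Pool.Agent.Helper11.CN

open Pool.Agent.Helper18.BV
open Pool.Agent.Helper34.CA

/-- the mass of the nice primes -/
def NiceMassE : Prop :=
  ∀ κ κ₂ : ℝ, 0 < κ → κ < κ₂ → κ₂ < 1 → ∀ g : ℝ → ℝ, IsWt g → (∃ v, g v ≠ 0) →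
    ∃ C X0 : ℝ, 0 < C ∧ 3 ≤ X0 ∧ ∀ x : ℝ, X0 ≤ x → ∀ M : ℕ,
      Real.log x ^ (-C) ≤ ∑ ℓ ∈ nzE x (Real.log x ^ κ) (Real.exp (Real.log x ^ κ₂)) M,
        Real.log ℓ * wt g x ℓ

theorem niceMassE (h1 : NiceApproxE) (h2 : BVav) (h3 : Mass) : NiceMassE := by
  intro κ κ₂ hκ hκκ hκ₂ g hg hne
  obtain ⟨C0, hC0, h1'⟩ := h1 κ κ₂ hκ hκκ hκ₂ g hg
  obtain ⟨X1, hX1, h1''⟩ := h1' C0 hC0
  obtain ⟨C2, X2, hC2, hX2, h2'⟩ := h2 g hg C0 hC0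
  obtain ⟨c, C3, X3, hc, hC3, hX3, h3'⟩ := h3 g hg hne
  refine ⟨C0, max (max X1 X2) (max X3 (Real.exp ((2 + C2) / c))), hC0,
    hX1.trans ((le_max_left _ _).trans (le_max_left _ _)), ?_⟩
  intro x hx M
  have hx1 : X1 ≤ x := ((le_max_left _ _).trans (le_max_left _ _)).trans hx
  have hx2 : X2 ≤ x := ((le_max_right _ _).trans (le_max_left _ _)).trans hx
  have hx3 : X3 ≤ x := ((le_max_left _ _).trans (le_max_right _ _)).trans hx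
  have hx4 : Real.exp ((2 + C2) / c) ≤ x :=
    ((le_max_right _ _).trans (le_max_right _ _)).trans hx
  have hx0 : (3 : ℝ) ≤ x := hX1.trans hx1
  obtain ⟨𝒯, hT, hmain, happ⟩ := h1'' x hx1 M
  have h2x := h2' x hx2 (fun _ => 1) (fun d => Nat.coprime_one_left d)
  obtain ⟨h3x, -⟩ := h3' x hx3
  have hl4 : (2 + C2) / c ≤ Real.log x := (Real.le_log_iff_exp_le (by linarith)).2 hx4
  have hl0 : 0 < Real.log x := Real.log_pos (by linarith)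
  obtain ⟨l, hl⟩ : ∃ l, l = Real.log x := ⟨_, rfl⟩
  obtain ⟨S, hS⟩ : ∃ S, S = ∑ n ∈ Icc 1 ⌊x⌋₊, Λ n * wt g x n := ⟨_, rfl⟩
  obtain ⟨W, hW⟩ : ∃ W, W = ∑ T ∈ 𝒯, (-1 : ℝ) ^ T.card / ((∏ p ∈ T, p : ℕ).totient : ℝ) :=
    ⟨_, rfl⟩
  obtain ⟨R1, hR1⟩ : ∃ R1, R1 = ∑ ℓ ∈ nzE x (Real.log x ^ κ) (Real.exp (Real.log x ^ κ₂)) M,
    Real.log ℓ * wt g x ℓ := ⟨_, rfl⟩
  obtain ⟨R2, hR2⟩ : ∃ R2, R2 = ∑ T ∈ 𝒯, (-1 : ℝ) ^ T.card *
    ∑ n ∈ (Icc 1 ⌊x⌋₊).filter (fun n => n ≡ 1 [MOD ∏ p ∈ T, p]), Λ n * wt g x n := ⟨_, rfl⟩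
  have hinj : Set.InjOn (fun T : Finset ℕ => ∏ p ∈ T, p) (𝒯 : Set (Finset ℕ)) := by
    intro T hTm T' hT'm hTT
    have e1 := Nat.primeFactors_prod (fun p hp => ((hT T hTm).1 p hp).1)
    have e2 := Nat.primeFactors_prod (fun p hp => ((hT T' hT'm).1 p hp).1)
    rw [← e1, ← e2]
    exact congrArg Nat.primeFactors hTT
  have hsum : ∑ T ∈ 𝒯, |∑ n ∈ (Icc 1 ⌊x⌋₊).filter (fun n => n ≡ 1 [MOD ∏ p ∈ T, p]),
      Λ n * wt g x n - (1 / ((∏ p ∈ T, p : ℕ).totient : ℝ)) * S| ≤ C2 / l ^ C0 := by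
    rw [← Finset.sum_image (f := fun d : ℕ =>
      |∑ n ∈ (Icc 1 ⌊x⌋₊).filter (fun n => n ≡ 1 [MOD d]), Λ n * wt g x n -
        (1 / (d.totient : ℝ)) * S|) hinj]
    rw [hl, hS]
    refine (Finset.sum_le_sum_of_subset_of_nonneg ?_ fun d _ _ => abs_nonneg _).trans h2x
    intro d hd
    obtain ⟨T, hTm, rfl⟩ := Finset.mem_image.1 hd
    rw [Finset.mem_Icc]
    refine ⟨Nat.one_le_iff_ne_zero.2
      (Finset.prod_ne_zero_iff.2 fun p hp => ((hT T hTm).1 p hp).1.ne_zero), Nat.le_floor ?_⟩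
    exact (hT T hTm).2.trans (Real.rpow_le_rpow_of_exponent_le (by linarith) (by norm_num))
  have e1 : |R1 - R2| ≤ 1 / l ^ C0 := by
    have h := happ (fun _ => 1) (fun _ => by simp)
    have e : ∑ ℓ ∈ nzE x (Real.log x ^ κ) (Real.exp (Real.log x ^ κ₂)) M,
            (Real.log ℓ : ℂ) * (fun _ : ℕ => (1 : ℂ)) ℓ * (wt g x ℓ : ℂ) -
          ∑ T ∈ 𝒯, (-1 : ℂ) ^ T.card *
            ∑ n ∈ (Icc 1 ⌊x⌋₊).filter (fun n => n ≡ 1 [MOD ∏ p ∈ T, p]),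
              LaC n * (fun _ : ℕ => (1 : ℂ)) n * (wt g x n : ℂ) = ((R1 - R2 : ℝ) : ℂ) := by
      rw [hR1, hR2]
      push_cast
      simp only [LaC_apply, mul_one]
    rw [e, Complex.norm_real, Real.norm_eq_abs] at h
    rw [hl]
    exact h
  have e2 : |R2 - W * S| ≤ C2 / l ^ C0 := by
    have h : R2 - W * S = ∑ T ∈ 𝒯, (-1 : ℝ) ^ T.card *
        (∑ n ∈ (Icc 1 ⌊x⌋₊).filter (fun n => n ≡ 1 [MOD ∏ p ∈ T, p]), Λ n * wt g x n -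
          (1 / ((∏ p ∈ T, p : ℕ).totient : ℝ)) * S) := by
      rw [hR2, hW, Finset.sum_mul, ← Finset.sum_sub_distrib]
      refine Finset.sum_congr rfl fun T _ => ?_
      ring
    rw [h]
    refine (Finset.abs_sum_le_sum_abs _ _).trans (le_trans (le_of_eq ?_) hsum)
    refine Finset.sum_congr rfl fun T _ => ?_
    rw [abs_mul, abs_pow, abs_neg, abs_one, one_pow, one_mul]
  rw [← hR1, ← hl]
  rw [← hW, ← hl] at hmain
  rw [← hS, ← hl] at h3x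
  rw [← hl] at hl4 hl0
  have hlp : 0 < l ^ C0 := Real.rpow_pos_of_pos hl0 C0
  rw [Real.rpow_neg hl0.le] at hmain ⊢
  have h5 : 2 + C2 ≤ c * l := by
    rw [div_le_iff₀ hc] at hl4
    linarith
  have hu : 0 < (l ^ C0)⁻¹ := inv_pos.2 hlp
  rw [one_div] at e1
  rw [div_eq_mul_inv] at e2
  generalize (l ^ C0)⁻¹ = u at *
  have h6 : u * (c * l) ≤ W * S :=
    mul_le_mul hmain h3x (by positivity) (hu.le.trans hmain)
  have h7 := abs_le.1 e1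
  have h8 := abs_le.1 e2
  have h9 : u * (2 + C2) ≤ u * (c * l) := mul_le_mul_of_nonneg_left h5 hu.le
  nlinarith [h7.1, h8.1]

end Pool.Agent.Helper11.CN
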