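import Pool.Agent.Helper34.CA.QuadLB
import Pool.Agent.Helper11.CN.NHat
import Pool.Agent.Helper11.CN.NMass
import Pool.Agent.Helper11.CN.Primes

/-!
Products of four nice primes in a residue class modulo `M`, for moduli `M` which may have large
prime factors. Adapted from `Pool.Agent.Helper34.CA.QuadLB`.
-/

set_option autoImplicit false

open Finset Filter Topology
open scoped ArithmeticFunction.vonMangoldt

namespace Pool.Agent.Helper11.CN

open Pool.Agent.Helper18.BV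
open Pool.Agent.Helper34.CA
open Pool.Agent.Helper34.CA.QuadLBAux

/-- products of four nice primes in the residue classes `a` modulo `M` with `ξ(a) = 1` -/
def QuadLBE : Prop :=
  ∀ κ κ₁ κ₂ : ℝ, 0 < κ → κ < κ₁ → κ₁ < κ₂ → κ₂ < 1 →
    ∃ (b0 : ℕ) (X0 : ℝ), 3 ≤ X0 ∧ ∀ x : ℝ, X0 ≤ x →
      ∀ (M : ℕ) (y : ℝ), 0 < M → (M : ℝ) ≤ Real.exp (Real.log x ^ κ₁) →
        Real.log x ^ κ ≤ y → y ≤ Real.exp (Real.log x ^ κ₂) →
        (∀ q : ℕ, q.Prime → q ∣ M → (q : ℝ) ≤ y) →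
        (∀ q : ℕ, q.Prime → ((q : ℝ) ≤ Real.log x ^ κ ∨ q ∣ M) →
          Real.log x ^ b0 ≤ (q : ℝ) ^ (M.factorization q + 1)) →
        ∃ ξ : DirichletCharacter ℂ M, ξ ^ 2 = 1 ∧
        ∀ a : ℕ, ξ (a : ZMod M) = 1 → ∀ T : Finset (Fin 4 → ℕ),
          (∀ t, t ∈ T ↔
            (∀ i, NiceP x y (Real.exp (Real.log x ^ κ₂)) M (t i)) ∧
            ∏ i, t i ≡ a [MOD M]) →
          Real.exp (-(2 * Real.log x ^ κ₁)) ≤ ∑ t ∈ T, ∏ i, (1 / (t i : ℝ))

theorem mem_nzE {x y w : ℝ} {M ℓ : ℕ} : ℓ ∈ nzE x y w M ↔ (1 ≤ ℓ ∧ ℓ ≤ ⌊x⌋₊) ∧ ℓ.Prime ∧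
    ∀ q : ℕ, q.Prime → q ∣ ℓ - 1 → (q : ℝ) ≤ y ∨ w < q ∨ q ∣ M := by
  classical
  unfold nzE
  rw [Finset.mem_filter, Finset.mem_Icc]

/-- the primes which are not nice -/
theorem bad_leE {g : ℝ → ℝ} (hg : IsWt g) {G : ℝ} (hG0 : 0 ≤ G) (hG : ∀ v, g v ≤ G) {x y0 y w L : ℝ}
    (hx : 1 < x) (hy : 0 ≤ y0) (hyy : y0 ≤ y) (hyw : y ≤ w) (hL : 0 < L) {M : ℕ} (hM : 0 < M)
    (hMy : ∀ q : ℕ, q.Prime → q ∣ M → (q : ℝ) ≤ y)
    (hq : ∀ q : ℕ, q.Prime → ((q : ℝ) ≤ y0 ∨ q ∣ M) →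
      L ≤ (q : ℝ) ^ (M.factorization q + 1))
    (S : Finset ℕ) (hS : ∀ ℓ ∈ S, ℓ ∈ nzE x y0 w M ∧ ¬ NiceP x y w M ℓ) :
    ∑ ℓ ∈ S, hh g x ℓ ≤ (y0 + 2 * Real.log M) * (G * Real.log x * ((1 + Real.log x) / L)) := by
  classical
  have hl : 0 ≤ Real.log x := Real.log_nonneg hx.le
  have hx0 : 0 ≤ x := by linarith
  set Q : Finset ℕ := (Icc 1 ⌊y0⌋₊).filter Nat.Prime ∪ M.primeFactors with hQ
  have h1 : ∀ ℓ ∈ S, hh g x ℓ ≤
      ∑ q ∈ Q, if q ^ (M.factorization q + 1) ∣ ℓ - 1 then hh g x ℓ else 0 := by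
    intro ℓ hℓ
    obtain ⟨hnz, hnice⟩ := hS ℓ hℓ
    rw [mem_nzE] at hnz
    obtain ⟨⟨hℓ1, hℓx⟩, hℓp, hℓq0⟩ := hnz
    have hℓq : ∀ q : ℕ, q.Prime → q ∣ ℓ - 1 → (q : ℝ) ≤ y ∨ w < q := by
      intro q hq1 hq2
      rcases hℓq0 q hq1 hq2 with h | h | h
      · exact Or.inl (h.trans hyy)
      · exact Or.inr h
      · exact Or.inl (hMy q hq1 h)
    have hℓx' : (ℓ : ℝ) ≤ x := (Nat.le_floor_iff hx0).1 hℓx
    have hnn : ∀ q ∈ Q, 0 ≤ (if q ^ (M.factorization q + 1) ∣ ℓ - 1 then hh g x ℓ else 0) := by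
      intro q _
      split_ifs
      · exact hh_nonneg hg x ℓ
      · exact le_rfl
    by_cases hs : x ^ (1 / 2 : ℝ) < ℓ
    · have h2 : ∃ q j : ℕ, q.Prime ∧ (q : ℝ) ≤ y ∧ q ^ j ∣ ℓ - 1 ∧ ¬ q ^ j ∣ M := by
        by_contra hcon
        push Not at hcon
        exact hnice ⟨hℓp, hs, hℓx', hℓq, fun q j hq hqy hd => hcon q j hq hqy hd⟩
      obtain ⟨q, j, hqp, hqy, hd, hnd⟩ := h2
      have h3 : M.factorization q + 1 ≤ j := by
        by_contra hcon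
        apply hnd
        rw [hqp.pow_dvd_iff_le_factorization hM.ne']
        omega
      have h4 : q ^ (M.factorization q + 1) ∣ ℓ - 1 := (pow_dvd_pow q h3).trans hd
      have hqQ : q ∈ Q := by
        rw [hQ, Finset.mem_union, Finset.mem_filter, Finset.mem_Icc, Nat.mem_primeFactors]
        have hqd : q ∣ ℓ - 1 := (dvd_pow_self q (by omega)).trans h4
        rcases hℓq0 q hqp hqd with h | h | h
        · exact Or.inl ⟨⟨hqp.one_le, Nat.le_floor h⟩, hqp⟩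
        · exact absurd (hqy.trans hyw) (not_le.2 h)
        · exact Or.inr ⟨hqp, h, hM.ne'⟩
      have h5 := Finset.single_le_sum hnn hqQ
      rw [if_pos h4] at h5
      exact h5
    · have h2 : hh g x ℓ = 0 := by
        unfold hh
        rw [wt_zero hg hx (not_lt.1 hs), mul_zero]
      rw [h2]
      simp
  have h2 : ∀ q ∈ Q, ∑ ℓ ∈ S, (if q ^ (M.factorization q + 1) ∣ ℓ - 1 then hh g x ℓ else 0) ≤
      G * Real.log x * ((1 + Real.log x) / L) := by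
    intro q hqQ
    rw [hQ, Finset.mem_union, Finset.mem_filter, Finset.mem_Icc, Nat.mem_primeFactors] at hqQ
    have hqp : q.Prime := by
      rcases hqQ with h | h
      · exact h.2
      · exact h.1
    have hqL := hq q hqp (by
      rcases hqQ with h | h
      · exact Or.inl ((Nat.le_floor_iff hy).1 h.1.2)
      · exact Or.inr h.2.1)
    rw [← Finset.sum_filter]
    have hDpos : 0 < q ^ (M.factorization q + 1) := pow_pos hqp.pos _
    have h3 := class_le hg hG0 hG hx.le hDpos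
      (S.filter (fun ℓ => q ^ (M.factorization q + 1) ∣ ℓ - 1)) 1 (by
        intro n hn
        rw [Finset.mem_filter] at hn
        obtain ⟨hnS, hnd⟩ := hn
        have hnz := (hS n hnS).1
        rw [mem_nzE] at hnz
        obtain ⟨⟨hn1, hnx⟩, hnp, -⟩ := hnz
        have hn2 := hnp.two_le
        refine ⟨?_, (Nat.le_floor_iff hx0).1 hnx, ?_⟩
        · have := Nat.le_of_dvd (by omega) hnd
          omega
        · have h4 : ((n - 1 : ℕ) : ZMod (q ^ (M.factorization q + 1))) = 0 := by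
            rw [ZMod.natCast_eq_zero_iff]
            exact hnd
          have h5 : n = (n - 1) + 1 := by omega
          rw [h5, Nat.cast_add, h4]
          simp)
    refine h3.trans ?_
    apply mul_le_mul_of_nonneg_left _ (by positivity)
    apply div_le_div_of_nonneg_left (by positivity) hL
    exact_mod_cast hqL
  calc ∑ ℓ ∈ S, hh g x ℓ ≤
        ∑ ℓ ∈ S, ∑ q ∈ Q, (if q ^ (M.factorization q + 1) ∣ ℓ - 1 then hh g x ℓ else 0) :=
        Finset.sum_le_sum h1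
    _ = ∑ q ∈ Q, ∑ ℓ ∈ S, (if q ^ (M.factorization q + 1) ∣ ℓ - 1 then hh g x ℓ else 0) :=
        Finset.sum_comm
    _ ≤ ∑ q ∈ Q, G * Real.log x * ((1 + Real.log x) / L) := Finset.sum_le_sum h2
    _ = (Q.card : ℝ) * (G * Real.log x * ((1 + Real.log x) / L)) := by
        rw [Finset.sum_const, nsmul_eq_mul]
    _ ≤ (y0 + 2 * Real.log M) * (G * Real.log x * ((1 + Real.log x) / L)) := by
        apply mul_le_mul_of_nonneg_right _ (by positivity)
        have h3 : ((Icc 1 ⌊y0⌋₊).filter Nat.Prime).card ≤ ⌊y0⌋₊ := by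
          refine (Finset.card_filter_le _ _).trans ?_
          rw [Nat.card_Icc]
          omega
        have h4 : (((Icc 1 ⌊y0⌋₊).filter Nat.Prime).card : ℝ) ≤ y0 :=
          (Nat.cast_le.2 h3).trans (Nat.floor_le hy)
        have h5 := card_pf hM
        have h6 : (Q.card : ℝ) ≤
            ((Icc 1 ⌊y0⌋₊).filter Nat.Prime).card + M.primeFactors.card := by
          exact_mod_cast Finset.card_union_le _ _
        linarith

/-- The lower bound for given parameters. -/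
theorem coreE (h3 : Conv4) {g : ℝ → ℝ} (hg : IsWt g) {G : ℝ} (hG0 : 0 < G) (hG : ∀ v, g v ≤ G)
    {x y0 y w F η : ℝ} (hx : 3 ≤ x) (M : ℕ) [NeZero M] (hMx : (M : ℝ) ≤ x ^ (1 / 2 : ℝ))
    (hη : 0 ≤ η) (hF : 0 ≤ F)
    (hmass : F ≤ ∑ ℓ ∈ nzE x y0 w M, hh g x ℓ)
    (hbad : ∀ S : Finset ℕ, (∀ ℓ ∈ S, ℓ ∈ nzE x y0 w M ∧ ¬ NiceP x y w M ℓ) →
      ∑ ℓ ∈ S, hh g x ℓ ≤ η)
    (hηF : 2 * η ≤ F)
    (hηF3 : 64 * η ^ 2 * (G * Real.log x * (1 + Real.log x)) ≤ F ^ 3)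
    (ξ : DirichletCharacter ℂ M) (hξ : ξ ^ 2 = 1)
    (hhat : ∀ χ : DirichletCharacter ℂ M, χ ≠ 1 → χ ≠ ξ →
      ‖∑ ℓ ∈ nzE x y0 w M, (Real.log ℓ : ℂ) * χ (ℓ : ZMod M) * (wt g x ℓ : ℂ)‖ ≤ η)
    (a : ℕ) (ha : ξ (a : ZMod M) = 1) (T : Finset (Fin 4 → ℕ))
    (hT : ∀ t, t ∈ T ↔ (∀ i, NiceP x y w M (t i)) ∧ ∏ i, t i ≡ a [MOD M]) :
    F ^ 4 / 32 ≤ M * (G * Real.log x) ^ 4 * ∑ t ∈ T, ∏ i, (1 / (t i : ℝ)) := by
  classical
  have hx1 : 1 < x := by linarith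
  have hx0 : 0 ≤ x := by linarith
  have hl : 0 < Real.log x := Real.log_pos hx1
  have hMpos : 0 < M := Nat.pos_of_ne_zero (NeZero.ne M)
  have hMr : (0 : ℝ) < M := by exact_mod_cast hMpos
  set N := nzE x y0 w M with hN
  set GG : Finset ℕ := N.filter (fun ℓ => NiceP x y w M ℓ) with hGG
  set BB : Finset ℕ := N.filter (fun ℓ => ¬ NiceP x y w M ℓ) with hBB
  have hsplit : ∑ ℓ ∈ GG, hh g x ℓ + ∑ ℓ ∈ BB, hh g x ℓ = ∑ ℓ ∈ N, hh g x ℓ :=
    Finset.sum_filter_add_sum_filter_not N _ _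
  have hBle : ∑ ℓ ∈ BB, hh g x ℓ ≤ η := hbad BB (fun ℓ hℓ => by
    rw [hBB, Finset.mem_filter] at hℓ
    exact hℓ)
  have hBnn : 0 ≤ ∑ ℓ ∈ BB, hh g x ℓ := Finset.sum_nonneg (fun ℓ _ => hh_nonneg hg x ℓ)
  set FG := ∑ ℓ ∈ GG, hh g x ℓ with hFG
  have hFGlb : F / 2 ≤ FG := by linarith
  have hGGmem : ∀ ℓ ∈ GG, M ≤ ℓ ∧ (ℓ : ℝ) ≤ x ∧ ℓ.Prime ∧ NiceP x y w M ℓ ∧ IsUnit (ℓ : ZMod M) := by
    intro ℓ hℓ
    rw [hGG, Finset.mem_filter] at hℓ
    obtain ⟨-, hnice⟩ := hℓ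
    have hn := hnice
    obtain ⟨hp, hs, hlx, -, -⟩ := hn
    have hMl : (M : ℝ) < ℓ := lt_of_le_of_lt hMx hs
    have hMl' : M < ℓ := by exact_mod_cast hMl
    refine ⟨hMl'.le, hlx, hp, hnice, ?_⟩
    rw [ZMod.isUnit_iff_coprime]
    rw [Nat.Prime.coprime_iff_not_dvd hp]
    intro hd
    exact absurd (Nat.le_of_dvd hMpos hd) (not_le.2 hMl')
  set f : ZMod M → ℝ := fun u => ∑ ℓ ∈ GG.filter (fun ℓ : ℕ => ((ℓ : ℕ) : ZMod M) = u), hh g x ℓ with hf
  set B : ℝ := G * Real.log x * ((1 + Real.log x) / M) with hB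
  have hf1 : ∀ u, 0 ≤ f u ∧ f u ≤ B := by
    intro u
    refine ⟨Finset.sum_nonneg (fun ℓ _ => hh_nonneg hg x ℓ), ?_⟩
    apply class_le hg hG0.le hG hx1.le hMpos _ u
    intro n hn
    rw [Finset.mem_filter] at hn
    obtain ⟨h1, h2, -⟩ := hGGmem n hn.1
    exact ⟨h1, h2, hn.2⟩
  have hf2 : ∀ u, ¬ IsUnit u → f u = 0 := by
    intro u hu
    apply Finset.sum_eq_zero
    intro ℓ hℓ
    rw [Finset.mem_filter] at hℓ
    exact absurd (hℓ.2 ▸ (hGGmem ℓ hℓ.1).2.2.2.2) hu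
  have hfsum : ∑ u, f u = FG := by
    rw [hf, hFG]
    exact Finset.sum_fiberwise GG (fun ℓ : ℕ => (ℓ : ZMod M)) (fun ℓ => hh g x ℓ)
  have hfhat : ∀ χ : DirichletCharacter ℂ M, χ ≠ 1 → χ ≠ ξ → ‖∑ u, (f u : ℂ) * χ u‖ ≤ 2 * η := by
    intro χ hχ1 hχξ
    have h4 : ∑ u, (f u : ℂ) * χ u = ∑ ℓ ∈ GG, (hh g x ℓ : ℂ) * χ (ℓ : ZMod M) := by
      rw [← Finset.sum_fiberwise GG (fun ℓ : ℕ => (ℓ : ZMod M))
        (fun ℓ => (hh g x ℓ : ℂ) * χ (ℓ : ZMod M))]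
      apply Finset.sum_congr rfl
      intro u _
      rw [hf]
      push_cast
      rw [Finset.sum_mul]
      apply Finset.sum_congr rfl
      intro ℓ hℓ
      rw [Finset.mem_filter] at hℓ
      rw [hℓ.2]
    have h5 : ∑ ℓ ∈ GG, (hh g x ℓ : ℂ) * χ (ℓ : ZMod M) +
        ∑ ℓ ∈ BB, (hh g x ℓ : ℂ) * χ (ℓ : ZMod M) =
        ∑ ℓ ∈ N, (Real.log ℓ : ℂ) * χ (ℓ : ZMod M) * (wt g x ℓ : ℂ) := by
      rw [hGG, hBB, Finset.sum_filter_add_sum_filter_not N _ _]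
      apply Finset.sum_congr rfl
      intro ℓ _
      unfold hh
      push_cast
      ring
    have h6 : ‖∑ ℓ ∈ BB, (hh g x ℓ : ℂ) * χ (ℓ : ZMod M)‖ ≤ η := by
      refine (norm_sum_le _ _).trans (le_trans ?_ hBle)
      apply Finset.sum_le_sum
      intro ℓ _
      rw [norm_mul, Complex.norm_real, Real.norm_of_nonneg (hh_nonneg hg x ℓ)]
      exact mul_le_of_le_one_right (hh_nonneg hg x ℓ) (DirichletCharacter.norm_le_one χ _)
    have h7 := hhat χ hχ1 hχξ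
    rw [← h5] at h7
    rw [h4]
    have h8 : ∑ ℓ ∈ GG, (hh g x ℓ : ℂ) * χ (ℓ : ZMod M) =
        (∑ ℓ ∈ GG, (hh g x ℓ : ℂ) * χ (ℓ : ZMod M) +
        ∑ ℓ ∈ BB, (hh g x ℓ : ℂ) * χ (ℓ : ZMod M)) -
        ∑ ℓ ∈ BB, (hh g x ℓ : ℂ) * χ (ℓ : ZMod M) := by ring
    rw [h8]
    refine (norm_sub_le _ _).trans ?_
    linarith
  have hconv := h3 M f ξ (a : ZMod M) (2 * η) B hf1 hf2 hξ ha (by linarith) hfhat
  rw [hfsum] at hconv
  -- the sum over `v`
  have hsumv : ∑ v ∈ (univ : Finset (Fin 4 → ZMod M)).filter (fun v => ∏ i, v i = (a : ZMod M)),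
      ∏ i, f (v i) ≤ ∑ t ∈ T, ∏ i, hh g x (t i) := by
    have hnn : ∀ t : Fin 4 → ℕ, 0 ≤ ∏ i, hh g x (t i) :=
      fun t => Finset.prod_nonneg (fun i _ => hh_nonneg hg x (t i))
    calc ∑ v ∈ (univ : Finset (Fin 4 → ZMod M)).filter (fun v => ∏ i, v i = (a : ZMod M)),
          ∏ i, f (v i) ≤
          ∑ v ∈ (univ : Finset (Fin 4 → ZMod M)).filter (fun v => ∏ i, v i = (a : ZMod M)),
          ∑ t ∈ T.filter (fun t => (fun i => ((t i : ℕ) : ZMod M)) = v), ∏ i, hh g x (t i) := by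
          apply Finset.sum_le_sum
          intro v hv
          rw [Finset.mem_filter] at hv
          rw [hf]
          rw [Finset.prod_univ_sum]
          apply Finset.sum_le_sum_of_subset_of_nonneg
          · intro t ht
            rw [Fintype.mem_piFinset] at ht
            have ht1 : ∀ i, t i ∈ GG ∧ ((t i : ℕ) : ZMod M) = v i := by
              intro i
              have := ht i
              rw [Finset.mem_filter] at this
              exact this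
            rw [Finset.mem_filter, hT]
            refine ⟨⟨fun i => (hGGmem (t i) (ht1 i).1).2.2.2.1, ?_⟩, ?_⟩
            · rw [← ZMod.natCast_eq_natCast_iff]
              rw [Nat.cast_prod, ← hv.2]
              apply Finset.prod_congr rfl
              intro i _
              exact (ht1 i).2
            · funext i
              exact (ht1 i).2
          · intro t _ _
            exact hnn t
      _ ≤ ∑ v, ∑ t ∈ T.filter (fun t => (fun i => ((t i : ℕ) : ZMod M)) = v),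
          ∏ i, hh g x (t i) := by
          apply Finset.sum_le_sum_of_subset_of_nonneg (Finset.filter_subset _ _)
          intro v _ _
          exact Finset.sum_nonneg (fun t _ => hnn t)
      _ = ∑ t ∈ T, ∏ i, hh g x (t i) :=
          Finset.sum_fiberwise T (fun t : Fin 4 → ℕ => (fun i => ((t i : ℕ) : ZMod M)))
            (fun t => ∏ i, hh g x (t i))
  have hsumT : ∑ t ∈ T, ∏ i, hh g x (t i) ≤
      (G * Real.log x) ^ 4 * ∑ t ∈ T, ∏ i, (1 / (t i : ℝ)) := by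
    rw [Finset.mul_sum]
    apply Finset.sum_le_sum
    intro t ht
    rw [hT] at ht
    have h4 : ∏ i, hh g x (t i) ≤ ∏ i : Fin 4, (G * Real.log x * (1 / (t i : ℝ))) := by
      apply Finset.prod_le_prod
      · intro i _
        exact hh_nonneg hg x (t i)
      · intro i _
        obtain ⟨hp, -, hlx, -, -⟩ := ht.1 i
        exact hh_le hg hG hx1.le hp.one_le hlx
    refine h4.trans (le_of_eq ?_)
    rw [Finset.prod_mul_distrib, Finset.prod_const, Finset.card_univ, Fintype.card_fin]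
  have hφ : (M.totient : ℝ) ≤ M := by exact_mod_cast Nat.totient_le M
  have hφ0 : (0 : ℝ) ≤ M.totient := Nat.cast_nonneg _
  have hS0 : 0 ≤ ∑ t ∈ T, ∏ i, hh g x (t i) :=
    Finset.sum_nonneg (fun t _ => Finset.prod_nonneg (fun i _ => hh_nonneg hg x (t i)))
  have hmain : FG ^ 4 - (2 * η) ^ 2 * M.totient * B * FG ≤
      M * ((G * Real.log x) ^ 4 * ∑ t ∈ T, ∏ i, (1 / (t i : ℝ))) := by
    refine hconv.trans ?_
    calc (M.totient : ℝ) * _ ≤ M.totient * ∑ t ∈ T, ∏ i, hh g x (t i) :=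
          mul_le_mul_of_nonneg_left hsumv hφ0
      _ ≤ M * ∑ t ∈ T, ∏ i, hh g x (t i) := mul_le_mul_of_nonneg_right hφ hS0
      _ ≤ _ := mul_le_mul_of_nonneg_left hsumT hMr.le
  have hFG0 : 0 ≤ FG := by linarith
  -- `(2η)² φ(M) B ≤ FG³ / 2`
  have herr : (2 * η) ^ 2 * M.totient * B ≤ FG ^ 3 / 2 := by
    have h5 : (M.totient : ℝ) * B ≤ G * Real.log x * (1 + Real.log x) := by
      have hB0 : 0 ≤ B := by positivity
      calc (M.totient : ℝ) * B ≤ M * B := mul_le_mul_of_nonneg_right hφ hB0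
        _ = G * Real.log x * (1 + Real.log x) := by
          rw [hB]
          field_simp
    have h6 : (F / 2) ^ 3 ≤ FG ^ 3 := pow_le_pow_left₀ (by linarith) hFGlb 3
    have h7 : (2 * η) ^ 2 * M.totient * B ≤ (2 * η) ^ 2 * (G * Real.log x * (1 + Real.log x)) := by
      rw [mul_assoc]
      exact mul_le_mul_of_nonneg_left h5 (by positivity)
    nlinarith
  have hfin : FG ^ 4 / 2 ≤ FG ^ 4 - (2 * η) ^ 2 * M.totient * B * FG := by
    have := mul_le_mul_of_nonneg_right herr hFG0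
    nlinarith
  have h8 : (F / 2) ^ 4 ≤ FG ^ 4 := pow_le_pow_left₀ (by linarith) hFGlb 4
  calc F ^ 4 / 32 = (F / 2) ^ 4 / 2 := by ring
    _ ≤ FG ^ 4 / 2 := by linarith
    _ ≤ _ := hfin
    _ ≤ _ := hmain
    _ = _ := by ring

theorem quadLBE (h1 : NiceHatE) (h2 : NiceMassE) (h3 : Conv4) : QuadLBE := by
  intro κ κ₁ κ₂ hκ hκ₁ hκ₂ hκ₂1
  obtain ⟨g, hg, hgne⟩ := exists_wt
  obtain ⟨G, hG0, hG⟩ := hg.exists_bound
  obtain ⟨C, Xm, hC, hXm, hmass⟩ := h2 κ κ₂ hκ (hκ₁.trans hκ₂) hκ₂1 g hg hgne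
  set A : ℝ := (3 * C + 3) / 2 with hA
  have hA0 : 0 < A := by rw [hA]; linarith
  obtain ⟨Xh, hXh, hhat⟩ := h1 κ κ₁ κ₂ hκ hκ₁ hκ₂ hκ₂1 g hg A hA0
  set b0 : ℕ := ⌈A⌉₊ + 5 with hb0
  have hκ₁0 : 0 < κ₁ := hκ.trans hκ₁
  have hκ₁1 : κ₁ < 1 := hκ₂.trans hκ₂1
  -- eventual facts in `l`
  have e1 : ∀ᶠ l : ℝ in atTop, l ^ κ₁ ≤ l / 2 := by
    have h : Tendsto (fun l : ℝ => l ^ (1 - κ₁)) atTop atTop :=
      tendsto_rpow_atTop (by linarith)
    filter_upwards [h.eventually_ge_atTop 2, eventually_gt_atTop (0 : ℝ)] with l hl hl0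
    have h4 : l ^ κ₁ * l ^ (1 - κ₁) = l := by
      rw [← Real.rpow_add hl0]
      simp
    have h5 : 0 ≤ l ^ κ₁ := Real.rpow_nonneg hl0.le _
    nlinarith
  have e2 : ∀ᶠ l : ℝ in atTop, 32 * (G * l) ^ 4 * (l ^ C) ^ 4 ≤ Real.exp (l ^ κ₁) := by
    -- compare `exp (l^κ₁)` with powers of `l^κ₁`
    have h : Tendsto (fun l : ℝ => l ^ κ₁) atTop atTop := tendsto_rpow_atTop hκ₁0
    obtain ⟨n, hn⟩ := exists_nat_ge ((5 + 4 * C) / κ₁)
    have h4 : ∀ᶠ t : ℝ in atTop, t ^ n ≤ Real.exp t := by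
      have h5 := (Real.isLittleO_pow_exp_atTop (n := n)).bound (c := 1) one_pos
      filter_upwards [h5, eventually_ge_atTop (0 : ℝ)] with t ht ht0
      rw [one_mul, Real.norm_of_nonneg (by positivity), Real.norm_of_nonneg (by positivity)] at ht
      exact ht
    filter_upwards [h.eventually h4, eventually_ge_atTop (1 : ℝ),
      eventually_ge_atTop (32 * G ^ 4)] with l hl hl1 hlG
    have hl0 : 0 < l := by linarith
    refine le_trans ?_ hl
    rw [← Real.rpow_natCast (l ^ κ₁) n, ← Real.rpow_mul hl0.le]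
    have h6 : 5 + 4 * C ≤ κ₁ * n := by
      rw [div_le_iff₀ hκ₁0] at hn
      linarith
    have h7 : l ^ (5 + 4 * C) ≤ l ^ (κ₁ * n) := Real.rpow_le_rpow_of_exponent_le hl1 h6
    refine le_trans ?_ h7
    have h8 : (l ^ C) ^ 4 = l ^ (4 * C) := by
      rw [← Real.rpow_natCast (l ^ C) 4, ← Real.rpow_mul hl0.le]
      congr 1
      push_cast
      ring
    have h9 : l ^ (5 + 4 * C) = l ^ 5 * l ^ (4 * C) := by
      rw [Real.rpow_add hl0]
      congr 1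
      exact_mod_cast Real.rpow_natCast l 5
    rw [h8, h9]
    apply mul_le_mul_of_nonneg_right _ (Real.rpow_nonneg hl0.le _)
    have h10 : 0 ≤ l ^ 4 := by positivity
    nlinarith
  have e3 : ∀ᶠ l : ℝ in atTop, 3 ≤ l ∧ 2 * G ≤ l ∧ 128 * G ≤ l :=
    ((eventually_ge_atTop 3).and ((eventually_ge_atTop _).and (eventually_ge_atTop _)))
  have eall := Real.tendsto_log_atTop.eventually (e1.and (e2.and e3))
  obtain ⟨Xe, hXe⟩ := eventually_atTop.1 eall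
  refine ⟨b0, max Xm (max Xh Xe), hXm.trans (le_max_left _ _), fun x hx M y hM0 hMle hy0 hyw hMp hMq => ?_⟩
  have hxm : Xm ≤ x := (le_max_left _ _).trans hx
  have hxh : Xh ≤ x := (le_max_left _ _).trans ((le_max_right _ _).trans hx)
  have hxe : Xe ≤ x := (le_max_right _ _).trans ((le_max_right _ _).trans hx)
  have hx3 : 3 ≤ x := hXm.trans hxm
  obtain ⟨l1, l2, l3, l4, l5⟩ := hXe x hxe
  have : NeZero M := ⟨hM0.ne'⟩
  obtain ⟨ξ, hξ, hξhat⟩ := hhat x hxh M hMle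
  refine ⟨ξ, hξ, fun a ha T hT => ?_⟩
  set l : ℝ := Real.log x with hl
  have hl0 : 0 < l := by linarith
  have hl1 : 1 ≤ l := by linarith
  have hx0 : 0 < x := by linarith
  -- `M ≤ √x`
  have hMx : (M : ℝ) ≤ x ^ (1 / 2 : ℝ) := by
    refine hMle.trans ?_
    rw [Real.rpow_def_of_pos hx0]
    apply Real.exp_le_exp.2
    rw [← hl]
    linarith
  have hmass' := hmass x hxm M
  -- the bad primes
  have hκ1 : κ ≤ 1 := by linarith
  have hlκ : l ^ κ ≤ l := by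
    calc l ^ κ ≤ l ^ (1 : ℝ) := Real.rpow_le_rpow_of_exponent_le hl1 hκ1
      _ = l := Real.rpow_one l
  have hlκ0 : 0 ≤ l ^ κ := Real.rpow_nonneg hl0.le _
  have hlA : 0 < l ^ A := Real.rpow_pos_of_pos hl0 _
  have hlκ1 : l ^ κ₁ ≤ l := by
    calc l ^ κ₁ ≤ l ^ (1 : ℝ) := Real.rpow_le_rpow_of_exponent_le hl1 hκ₁1.le
      _ = l := Real.rpow_one l
  have hlogM : Real.log M ≤ l := by
    have h4 := Real.log_le_log (by exact_mod_cast hM0) hMle
    rw [Real.log_exp] at h4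
    exact h4.trans hlκ1
  have hlogM0 : 0 ≤ Real.log M := Real.log_natCast_nonneg M
  have hbad : ∀ S : Finset ℕ, (∀ ℓ ∈ S, ℓ ∈ nzE x (l ^ κ) (Real.exp (l ^ κ₂)) M ∧
      ¬ NiceP x y (Real.exp (l ^ κ₂)) M ℓ) → ∑ ℓ ∈ S, hh g x ℓ ≤ 1 / l ^ A := by
    intro S hS
    have h4 := bad_leE hg hG0.le hG (by linarith : 1 < x) hlκ0 hy0 hyw
      (by positivity : 0 < l ^ b0) hM0 hMp hMq S hS
    rw [← hl] at h4
    refine h4.trans ?_
    have h5 : l ^ A ≤ l ^ (b0 - 5 : ℕ) := by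
      rw [← Real.rpow_natCast]
      apply Real.rpow_le_rpow_of_exponent_le hl1
      rw [hb0]
      simpa using Nat.le_ceil A
    have h6 : l ^ b0 = l ^ (b0 - 5 : ℕ) * l ^ 5 := by
      rw [← pow_add]
      have h6' : b0 = b0 - 5 + 5 := by omega
      rw [← h6']
    have h7 : (l ^ κ + 2 * Real.log M) * (G * l * ((1 + l) / l ^ b0)) ≤
        (3 * l) * (G * l * ((1 + l) / l ^ b0)) :=
      mul_le_mul_of_nonneg_right (by linarith) (by positivity)
    refine h7.trans ?_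
    rw [div_eq_mul_inv (1 + l), ← mul_assoc, ← mul_assoc, ← div_eq_mul_inv,
      div_le_div_iff₀ (by positivity) hlA, h6, one_mul]
    have h8 : 3 * l * (G * l) * (1 + l) ≤ l ^ 5 := by
      have h9 : 3 * l * (G * l) * (1 + l) ≤ 3 * l * (G * l) * (2 * l) := by
        apply mul_le_mul_of_nonneg_left _ (by positivity)
        linarith
      have h10 : 3 * l * (G * l) * (2 * l) = 3 * (2 * G) * l ^ 3 := by ring
      have h11 : 3 * (2 * G) * l ^ 3 ≤ l * l * l ^ 3 := by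
        apply mul_le_mul_of_nonneg_right _ (by positivity)
        exact mul_le_mul l3 l4 (by positivity) hl0.le
      calc _ ≤ _ := h9
        _ = _ := h10
        _ ≤ _ := h11
        _ = l ^ 5 := by ring
    calc 3 * l * (G * l) * (1 + l) * l ^ A ≤ l ^ 5 * l ^ (b0 - 5 : ℕ) :=
          mul_le_mul h8 h5 hlA.le (by positivity)
      _ = _ := by ring
  have hFpos : 0 < l ^ (-C) := Real.rpow_pos_of_pos hl0 _
  have hηF : 2 * (1 / l ^ A) ≤ l ^ (-C) := by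
    have h4 : (1 : ℝ) / l ^ A = l ^ (-A) := by rw [Real.rpow_neg hl0.le, one_div]
    have h5 : l ^ (-C) = l ^ (-A) * l ^ (A - C) := by
      rw [← Real.rpow_add hl0]
      congr 1
      ring
    have h6 : l ≤ l ^ (A - C) := by
      calc l = l ^ (1 : ℝ) := (Real.rpow_one l).symm
        _ ≤ l ^ (A - C) := Real.rpow_le_rpow_of_exponent_le hl1 (by rw [hA]; linarith)
    rw [h4, h5]
    have h7 : 0 < l ^ (-A) := Real.rpow_pos_of_pos hl0 _
    nlinarith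
  have hηF3 : 64 * (1 / l ^ A) ^ 2 * (G * Real.log x * (1 + Real.log x)) ≤ (l ^ (-C)) ^ 3 := by
    rw [← hl]
    have h4 : (1 / l ^ A) ^ 2 = l ^ (-(3 * C + 3)) := by
      rw [one_div, ← Real.rpow_neg hl0.le, ← Real.rpow_natCast (l ^ (-A)) 2,
        ← Real.rpow_mul hl0.le]
      congr 1
      rw [hA]
      push_cast
      ring
    have h5 : (l ^ (-C)) ^ 3 = l ^ (-(3 * C + 3)) * l ^ 3 := by
      rw [← Real.rpow_natCast (l ^ (-C)) 3, ← Real.rpow_mul hl0.le,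
        ← Real.rpow_natCast l 3, ← Real.rpow_add hl0]
      congr 1
      push_cast
      ring
    rw [h4, h5]
    have h6 : 0 < l ^ (-(3 * C + 3)) := Real.rpow_pos_of_pos hl0 _
    have h7 : 64 * (G * l * (1 + l)) ≤ l ^ 3 := by
      have h8 : 64 * (G * l * (1 + l)) ≤ 64 * (G * l * (2 * l)) := by
        apply mul_le_mul_of_nonneg_left _ (by norm_num)
        apply mul_le_mul_of_nonneg_left _ (by positivity)
        linarith
      have h9 : 64 * (G * l * (2 * l)) = 128 * G * l ^ 2 := by ring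
      have h10 : 128 * G * l ^ 2 ≤ l * l ^ 2 := mul_le_mul_of_nonneg_right l5 (by positivity)
      calc _ ≤ _ := h8
        _ = _ := h9
        _ ≤ _ := h10
        _ = l ^ 3 := by ring
    calc 64 * l ^ (-(3 * C + 3)) * (G * l * (1 + l)) =
          l ^ (-(3 * C + 3)) * (64 * (G * l * (1 + l))) := by ring
      _ ≤ l ^ (-(3 * C + 3)) * l ^ 3 := mul_le_mul_of_nonneg_left h7 h6.le
  have hcore := coreE h3 hg hG0 hG hx3 M hMx (by positivity : 0 ≤ 1 / l ^ A) hFpos.le hmass'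
    hbad hηF hηF3 ξ hξ hξhat a ha T hT
  rw [← hl] at hcore
  -- conclusion
  set Sg : ℝ := ∑ t ∈ T, ∏ i, (1 / (t i : ℝ)) with hSg
  have hSg0 : 0 ≤ Sg := Finset.sum_nonneg (fun t _ => Finset.prod_nonneg (fun i _ => by positivity))
  have h4 : (l ^ (-C)) ^ 4 / 32 ≤ Real.exp (l ^ κ₁) * (G * l) ^ 4 * Sg := by
    refine hcore.trans ?_
    apply mul_le_mul_of_nonneg_right _ hSg0
    exact mul_le_mul_of_nonneg_right hMle (by positivity)
  have h5 : (l ^ (-C)) ^ 4 * (l ^ C) ^ 4 = 1 := by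
    rw [← mul_pow, ← Real.rpow_add hl0]
    simp
  have h6 : 0 < (l ^ C) ^ 4 := by positivity
  have h7 : 1 ≤ (32 * (G * l) ^ 4 * (l ^ C) ^ 4) * (Real.exp (l ^ κ₁) * Sg) := by
    have h8 := mul_le_mul_of_nonneg_right h4 h6.le
    nlinarith
  have h8 : 1 ≤ Real.exp (l ^ κ₁) * (Real.exp (l ^ κ₁) * Sg) := by
    refine h7.trans ?_
    exact mul_le_mul_of_nonneg_right l2 (by positivity)
  have h9 : Real.exp (-(2 * l ^ κ₁)) * (Real.exp (l ^ κ₁) * Real.exp (l ^ κ₁)) = 1 := by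
    rw [← Real.exp_add, ← Real.exp_add]
    rw [show -(2 * l ^ κ₁) + (l ^ κ₁ + l ^ κ₁) = 0 by ring, Real.exp_zero]
  have h10 : 0 < Real.exp (-(2 * l ^ κ₁)) := Real.exp_pos _
  have h11 := mul_le_mul_of_nonneg_left h8 h10.le
  calc Real.exp (-(2 * l ^ κ₁)) = Real.exp (-(2 * l ^ κ₁)) * 1 := (mul_one _).symm
    _ ≤ _ := h11
    _ = (Real.exp (-(2 * l ^ κ₁)) * (Real.exp (l ^ κ₁) * Real.exp (l ^ κ₁))) * Sg := by ring
    _ = Sg := by rw [h9, one_mul]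

end Pool.Agent.Helper11.CN
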