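import Pool.Agent.Helper11.CN.Divs

/-!
If there are many numbers `n ≤ exp y` with `f p ∣ n - 1` for all `p ∣ n`, then for some
`L ≤ exp y` and some `z` many primes `p ≤ z` satisfy `f p ∣ L`.
-/

set_option autoImplicit false

open Finset Filter Topology

namespace Pool.Agent.Helper11.CN

/-- There are `L ≤ exp y` and `z` between `y ^ (1 / ε)` and `exp (y ^ ε)` such that at least
`z ^ (1 - ε)` primes `p ≤ z` satisfy `f p ∣ L`. -/
def SM (f : ℕ → ℕ) (ε y : ℝ) : Prop :=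
  ∃ (L : ℕ) (z : ℝ), 1 ≤ L ∧ (L : ℝ) ≤ Real.exp y ∧ y ^ (1 / ε) ≤ z ∧ z ≤ Real.exp (y ^ ε) ∧
    ∃ P : Finset ℕ, (∀ p ∈ P, p.Prime ∧ (p : ℝ) ≤ z ∧ f p ∣ L) ∧ z ^ (1 - ε) ≤ (P.card : ℝ)

/-- large primes -/
theorem card_large {K : ℕ} {f : ℕ → ℕ} (hf : Adm K f) {L : ℕ} (hL : 0 < L) {y ε : ℝ}
    (hy : 1 ≤ y) (hLy : Real.log L ≤ y) (hε : 0 < ε) (hε1 : ε ≤ 1) (j : ℕ) (Q : Finset ℕ)
    (hQ : ∀ p ∈ Q, p.Prime ∧ f p ∣ L ∧ p < 2 ^ (j + 1))
    (hyv : 4 * (y ^ (ε / 2) * (3 + Real.log y)) ≤ ε / 12 * Real.log ((2 : ℝ) ^ j)) :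
    (Q.card : ℝ) ≤ (K + 2) * ((2 : ℝ) ^ j) ^ (1 - ε / 12) := by
  classical
  set v : ℝ := (2 : ℝ) ^ j with hv
  have hv1 : 1 ≤ v := one_le_pow₀ (by norm_num)
  have hv0 : 0 < v := by linarith
  set V : ℝ := v ^ (1 / 3 : ℝ) with hV
  have hV1 : 1 ≤ V := Real.one_le_rpow hv1 (by norm_num)
  have hV0 : 0 < V := by linarith
  have hsplit : (Q.card : ℝ) = ((Q.filter (fun p => (f p : ℝ) ≤ V)).card : ℝ) +
      ((Q.filter (fun p => ¬ (f p : ℝ) ≤ V)).card : ℝ) := by
    exact_mod_cast (Finset.card_filter_add_card_filter_not (s := Q) (fun p => (f p : ℝ) ≤ V)).symm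
  have h1 : ((Q.filter (fun p => (f p : ℝ) ≤ V)).card : ℝ) ≤ K * v ^ (1 - ε / 12) := by
    have hmaps : ∀ p ∈ Q.filter (fun p => (f p : ℝ) ≤ V), f p ∈ Icc 1 ⌊V⌋₊ := by
      intro p hp
      rw [mem_filter] at hp
      rw [mem_Icc]
      exact ⟨hf.pos p (hQ p hp.1).1, Nat.le_floor hp.2⟩
    rw [Finset.card_eq_sum_card_fiberwise hmaps]
    push_cast
    have h2 : ∀ m ∈ Icc 1 ⌊V⌋₊,
        ((((Q.filter (fun p => (f p : ℝ) ≤ V)).filter (fun p => f p = m)).card : ℕ) : ℝ) ≤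
          K * V := by
      intro m hm
      rw [mem_Icc] at hm
      have h3 := hf.fib m ((Q.filter (fun p => (f p : ℝ) ≤ V)).filter (fun p => f p = m)) (by
        intro p hp
        rw [mem_filter, mem_filter] at hp
        exact ⟨(hQ p hp.1.1).1, hp.2⟩)
      have h4 : ((((Q.filter (fun p => (f p : ℝ) ≤ V)).filter (fun p => f p = m)).card : ℕ) : ℝ) ≤
          K * m := by exact_mod_cast h3
      have h5 : (m : ℝ) ≤ V := (Nat.cast_le.2 hm.2).trans (Nat.floor_le hV0.le)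
      exact h4.trans (mul_le_mul_of_nonneg_left h5 (Nat.cast_nonneg K))
    refine (Finset.sum_le_sum h2).trans ?_
    rw [Finset.sum_const, nsmul_eq_mul, Nat.card_Icc, Nat.add_sub_cancel]
    calc (⌊V⌋₊ : ℝ) * (K * V) ≤ V * (K * V) :=
          mul_le_mul_of_nonneg_right (Nat.floor_le hV0.le) (by positivity)
      _ = K * (V * V) := by ring
      _ ≤ K * v ^ (1 - ε / 12) := by
          apply mul_le_mul_of_nonneg_left _ (Nat.cast_nonneg K)
          rw [hV, ← Real.rpow_add hv0]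
          exact Real.rpow_le_rpow_of_exponent_le hv1 (by linarith)
  have h2 : ((Q.filter (fun p => ¬ (f p : ℝ) ≤ V)).card : ℝ) ≤ 2 * v ^ (1 - ε / 12) := by
    have hmaps : ∀ p ∈ Q.filter (fun p => ¬ (f p : ℝ) ≤ V),
        f p ∈ L.divisors.filter (fun m : ℕ => V < (m : ℝ)) := by
      intro p hp
      rw [mem_filter] at hp
      rw [mem_filter, Nat.mem_divisors]
      exact ⟨⟨(hQ p hp.1).2.1, hL.ne'⟩, not_le.1 hp.2⟩
    rw [Finset.card_eq_sum_card_fiberwise hmaps]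
    push_cast
    have h3 : ∀ m ∈ L.divisors.filter (fun m : ℕ => V < (m : ℝ)),
        ((((Q.filter (fun p => ¬ (f p : ℝ) ≤ V)).filter (fun p => f p = m)).card : ℕ) : ℝ) ≤
          2 * v * (1 / (m : ℝ)) := by
      intro m hm
      rw [mem_filter] at hm
      have hm0 : (0 : ℝ) < m := hV0.trans hm.2
      have hm0' : 0 < m := by exact_mod_cast hm0
      have hsub : (Q.filter (fun p => ¬ (f p : ℝ) ≤ V)).filter (fun p => f p = m) ⊆
          (Icc 1 (2 ^ (j + 1) / m)).image (fun k => m * k + 1) := by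
        intro p hp
        rw [mem_filter, mem_filter] at hp
        obtain ⟨⟨hpQ, -⟩, hpm⟩ := hp
        obtain ⟨hpp, -, hpj⟩ := hQ p hpQ
        obtain ⟨k, hk⟩ := hf.dvd p hpp
        rw [hpm] at hk
        have h2 := hpp.two_le
        have hpk : p = m * k + 1 := by omega
        rw [mem_image]
        refine ⟨k, ?_, hpk.symm⟩
        rw [mem_Icc]
        constructor
        · apply Nat.pos_of_ne_zero
          rintro rfl
          omega
        · rw [Nat.le_div_iff_mul_le hm0']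
          rw [mul_comm]
          omega
      have h4 := (Finset.card_le_card hsub).trans Finset.card_image_le
      rw [Nat.card_Icc, Nat.add_sub_cancel] at h4
      have h5 : ((2 ^ (j + 1) / m : ℕ) : ℝ) ≤ ((2 ^ (j + 1) : ℕ) : ℝ) / m := Nat.cast_div_le
      have h6 : ((2 ^ (j + 1) : ℕ) : ℝ) / m = 2 * v * (1 / (m : ℝ)) := by
        rw [hv]
        push_cast
        rw [pow_succ]
        ring
      rw [← h6]
      exact le_trans (by exact_mod_cast h4) h5
    refine (Finset.sum_le_sum h3).trans ?_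
    rw [← Finset.mul_sum]
    have h4 := big_div_sum hL hy hLy (s := ε / 2) (by linarith) (by linarith) hV0
    have h5 : V ^ (-(ε / 2)) * Real.exp (4 * (y ^ (ε / 2) * (3 + Real.log y))) ≤
        v ^ (-(ε / 12)) := by
      have h6 : Real.exp (4 * (y ^ (ε / 2) * (3 + Real.log y))) ≤ v ^ (ε / 12) := by
        rw [Real.rpow_def_of_pos hv0]
        apply Real.exp_le_exp.2
        linarith
      have h7 : V ^ (-(ε / 2)) = v ^ (-(ε / 6)) := by
        rw [hV, ← Real.rpow_mul hv0.le]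
        congr 1
        ring
      rw [h7]
      calc v ^ (-(ε / 6)) * Real.exp (4 * (y ^ (ε / 2) * (3 + Real.log y))) ≤
            v ^ (-(ε / 6)) * v ^ (ε / 12) := mul_le_mul_of_nonneg_left h6 (by positivity)
        _ = v ^ (-(ε / 12)) := by
            rw [← Real.rpow_add hv0]
            congr 1
            ring
    calc 2 * v * ∑ m ∈ L.divisors.filter (fun m : ℕ => V < (m : ℝ)), 1 / (m : ℝ) ≤
          2 * v * v ^ (-(ε / 12)) :=
          mul_le_mul_of_nonneg_left (h4.trans h5) (by positivity)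
      _ = 2 * v ^ (1 - ε / 12) := by
          rw [show 1 - ε / 12 = 1 + -(ε / 12) by ring, Real.rpow_add hv0, Real.rpow_one]
          ring
  rw [hsplit]
  linarith

/-- the bound for `TL` -/
theorem TL_le2 {K : ℕ} {f : ℕ → ℕ} (hf : Adm K f) {ε y : ℝ} (hε : 0 < ε) (hε1 : ε ≤ 1)
    (hy : 1 ≤ y) (hyε : 4 * (y ^ (ε / 2) * (3 + Real.log y)) ≤ ε / 12 * (y ^ ε - 2))
    (hSM : ¬ SM f ε y) {N L : ℕ} (hL : 1 ≤ L) (hLy : (L : ℝ) ≤ Real.exp y) :
    TL f N L (1 - ε / 24) ≤ y ^ (1 / 24 : ℝ) * (1 + 1 / ε * Real.log y) +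
      2 / (1 - (2 : ℝ) ^ (-(ε - ε / 24))) + (K + 2) / (1 - (2 : ℝ) ^ (-(ε / 12 - ε / 24))) := by
  classical
  have hy0 : 0 < y := by linarith
  have hL0 : (0 : ℝ) < L := by exact_mod_cast hL
  have hlogL : Real.log L ≤ y := by
    have := Real.log_le_log hL0 hLy
    rwa [Real.log_exp] at this
  set X : ℝ := y ^ (1 / ε) with hX
  have hX1 : 1 ≤ X := Real.one_le_rpow hy (by positivity)
  unfold TL
  rw [← Finset.sum_filter_add_sum_filter_not (PL f N L) (fun p : ℕ => (p : ℝ) ≤ X),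
    ← Finset.sum_filter_add_sum_filter_not ((PL f N L).filter (fun p : ℕ => ¬ (p : ℝ) ≤ X))
      (fun p : ℕ => 2 * (p : ℝ) ≤ Real.exp (y ^ ε)), ← add_assoc]
  apply add_le_add (add_le_add _ _) _
  · have h1 : ∑ p ∈ (PL f N L).filter (fun p : ℕ => (p : ℝ) ≤ X), (p : ℝ) ^ (-(1 - ε / 24)) ≤
        ∑ n ∈ Icc 1 ⌊X⌋₊, (n : ℝ) ^ (-(1 - ε / 24)) := by
      apply Finset.sum_le_sum_of_subset_of_nonneg
      · intro p hp
        rw [mem_filter, mem_PL] at hp
        rw [mem_Icc]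
        exact ⟨hp.1.2.1.one_lt.le, Nat.le_floor hp.2⟩
      · intro i _ _
        positivity
    refine (h1.trans (sum_pow_le (by positivity) (by linarith))).trans ?_
    have h2 : X ^ (ε / 24) = y ^ (1 / 24 : ℝ) := by
      rw [hX, ← Real.rpow_mul hy0.le]
      congr 1
      field_simp
    rw [h2]
    apply mul_le_mul_of_nonneg_left _ (by positivity)
    have h3 := log_floor_le hX1
    have h4 : Real.log X = 1 / ε * Real.log y := by rw [hX, Real.log_rpow hy0]
    linarith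
  · apply sum_dyadic (by linarith) (by linarith) (by norm_num)
    · intro p hp
      rw [mem_filter, mem_filter, mem_PL] at hp
      exact hp.1.1.2.1.ne_zero
    · intro j Q hQP hQj hQne
      obtain ⟨p0, hp0⟩ := hQne
      have hp0' := hQP hp0
      rw [mem_filter, mem_filter, mem_PL] at hp0'
      obtain ⟨⟨-, hp0X⟩, hp0e⟩ := hp0'
      have h1 : ((2 : ℝ) ^ j) ≤ p0 := by exact_mod_cast (hQj p0 hp0).1
      have h2 : (p0 : ℝ) ≤ (2 : ℝ) ^ (j + 1) := by exact_mod_cast (hQj p0 hp0).2.le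
      have h3 : (2 : ℝ) ^ (j + 1) = 2 * 2 ^ j := by rw [pow_succ]; ring
      have hcard : (Q.card : ℝ) < ((2 : ℝ) ^ (j + 1)) ^ (1 - ε) := by
        by_contra hcon
        apply hSM
        refine ⟨L, (2 : ℝ) ^ (j + 1), hL, hLy, ?_, ?_, Q, ?_, not_lt.1 hcon⟩
        · linarith [not_le.1 hp0X]
        · rw [h3]
          linarith
        · intro p hp
          have hp' := hQP hp
          rw [mem_filter, mem_filter, mem_PL] at hp'
          exact ⟨hp'.1.1.2.1, by exact_mod_cast (hQj p hp).2.le, hp'.1.1.2.2⟩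
      refine hcard.le.trans ?_
      rw [h3, Real.mul_rpow (by norm_num) (by positivity)]
      apply mul_le_mul_of_nonneg_right _ (by positivity)
      calc (2 : ℝ) ^ (1 - ε) ≤ (2 : ℝ) ^ (1 : ℝ) :=
            Real.rpow_le_rpow_of_exponent_le (by norm_num) (by linarith)
        _ = 2 := Real.rpow_one 2
  · apply sum_dyadic (by linarith) (by linarith) (by positivity)
    · intro p hp
      rw [mem_filter, mem_filter, mem_PL] at hp
      exact hp.1.1.2.1.ne_zero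
    · intro j Q hQP hQj hQne
      obtain ⟨p0, hp0⟩ := hQne
      have hp0' := hQP hp0
      rw [mem_filter, mem_filter, mem_PL] at hp0'
      obtain ⟨-, hp0e⟩ := hp0'
      have h2 : (p0 : ℝ) ≤ (2 : ℝ) ^ (j + 1) := by exact_mod_cast (hQj p0 hp0).2.le
      have h3 : (2 : ℝ) ^ (j + 1) = 2 * 2 ^ j := by rw [pow_succ]; ring
      apply card_large hf hL hy hlogL hε hε1 j Q
      · intro p hp
        have hp' := hQP hp
        rw [mem_filter, mem_filter, mem_PL] at hp'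
        exact ⟨hp'.1.1.2.1, hp'.1.1.2.2, (hQj p hp).2⟩
      · refine hyε.trans ?_
        apply mul_le_mul_of_nonneg_left _ (by positivity)
        have h4 : Real.exp (y ^ ε) ≤ 4 * (2 : ℝ) ^ j := by
          have := not_le.1 hp0e
          linarith
        have h5 : Real.exp (y ^ ε - 2) ≤ (2 : ℝ) ^ j := by
          rw [Real.exp_sub, div_le_iff₀ (Real.exp_pos _)]
          have h6 : (4 : ℝ) ≤ Real.exp 2 := by
            have h7 := Real.exp_one_gt_d9
            have h8 : Real.exp 2 = Real.exp 1 * Real.exp 1 := by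
              rw [← Real.exp_add]
              norm_num
            rw [h8]
            nlinarith
          have h9 : (0 : ℝ) < 2 ^ j := by positivity
          nlinarith
        have h6 := Real.log_le_log (Real.exp_pos _) h5
        rwa [Real.log_exp] at h6

/-- necessity -/
theorem nec (K : ℕ) {ε : ℝ} (hε : 0 < ε) (hε1 : ε ≤ 1) :
    ∃ y0 : ℝ, ∀ y : ℝ, y0 ≤ y → ∀ f : ℕ → ℕ, Adm K f →
      ((⌊Real.exp y⌋₊ : ℕ) : ℝ) ^ (1 - ε / 384) ≤ ((cnt f ⌊Real.exp y⌋₊).card : ℝ) →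
      SM f ε y := by
  obtain ⟨N1, hN1⟩ := main_of_TL K (ε := ε / 6) (by positivity) (by linarith)
  set C1 : ℝ := 2 / (1 - (2 : ℝ) ^ (-(ε - ε / 24))) +
    (K + 2) / (1 - (2 : ℝ) ^ (-(ε / 12 - ε / 24))) with hC1
  -- eventual inequalities
  have e1 : ∀ᶠ y : ℝ in atTop, N1 ≤ ⌊Real.exp y⌋₊ :=
    (tendsto_nat_floor_atTop.comp Real.tendsto_exp_atTop).eventually_ge_atTop N1
  have e2 : ∀ᶠ y : ℝ in atTop,
      4 * (y ^ (ε / 2) * (3 + Real.log y)) ≤ ε / 12 * (y ^ ε - 2) := by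
    have h1 : Tendsto (fun y : ℝ => y ^ (ε / 4)) atTop atTop := tendsto_rpow_atTop (by positivity)
    filter_upwards [h1.eventually_ge_atTop (12 / ε * (4 * (3 + 1 / (ε / 4)) + ε / 6)),
      eventually_ge_atTop (1 : ℝ)] with y hy hy1
    have hy0 : 0 < y := by linarith
    have h2 : Real.log y ≤ y ^ (ε / 4) / (ε / 4) := Real.log_le_rpow_div hy0.le (by positivity)
    have h3 : 1 ≤ y ^ (ε / 4) := Real.one_le_rpow hy1 (by positivity)
    have h4 : y ^ ε = y ^ (ε / 2) * y ^ (ε / 4) * y ^ (ε / 4) := by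
      rw [← Real.rpow_add hy0, ← Real.rpow_add hy0]
      congr 1
      ring
    have h5 : 1 ≤ y ^ (ε / 2) := Real.one_le_rpow hy1 (by positivity)
    have h6 : 3 + Real.log y ≤ (3 + 1 / (ε / 4)) * y ^ (ε / 4) := by
      have : y ^ (ε / 4) / (ε / 4) = 1 / (ε / 4) * y ^ (ε / 4) := by ring
      rw [this] at h2
      linarith
    have h7 : 4 * (3 + 1 / (ε / 4)) + ε / 6 ≤ ε / 12 * y ^ (ε / 4) := by
      have h8 := mul_le_mul_of_nonneg_left hy (by positivity : 0 ≤ ε / 12)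
      have h9 : ε / 12 * (12 / ε * (4 * (3 + 1 / (ε / 4)) + ε / 6)) =
          4 * (3 + 1 / (ε / 4)) + ε / 6 := by
        field_simp
      linarith
    have hq : 0 ≤ y ^ (ε / 2) * y ^ (ε / 4) := by positivity
    have hq1 : 1 ≤ y ^ (ε / 2) * y ^ (ε / 4) := one_le_mul_of_one_le_of_one_le h5 h3
    have h10 := mul_le_mul_of_nonneg_left h7 hq
    have h11 : y ^ (ε / 2) * (3 + Real.log y) ≤
        y ^ (ε / 2) * ((3 + 1 / (ε / 4)) * y ^ (ε / 4)) :=
      mul_le_mul_of_nonneg_left h6 (by positivity)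
    rw [h4]
    nlinarith
  have e3 : ∀ᶠ y : ℝ in atTop,
      y ^ (1 / 24 : ℝ) * (1 + 1 / ε * Real.log y) + C1 ≤ ε / 96 * (y - 1) := by
    have h1 : Tendsto (fun y : ℝ => y ^ (1 / 2 : ℝ)) atTop atTop :=
      tendsto_rpow_atTop (by norm_num)
    filter_upwards [h1.eventually_ge_atTop (96 / ε * (1 + 1 / ε * 4 + |C1| + ε / 96)),
      eventually_ge_atTop (1 : ℝ)] with y hy hy1
    have hy0 : 0 < y := by linarith
    have h2 : Real.log y ≤ y ^ (1 / 4 : ℝ) / (1 / 4) := Real.log_le_rpow_div hy0.le (by norm_num)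
    have h3 : 1 ≤ y ^ (1 / 4 : ℝ) := Real.one_le_rpow hy1 (by norm_num)
    have h4 : y ^ (1 / 24 : ℝ) ≤ y ^ (1 / 4 : ℝ) :=
      Real.rpow_le_rpow_of_exponent_le hy1 (by norm_num)
    have h5 : y ^ (1 / 4 : ℝ) * y ^ (1 / 4 : ℝ) = y ^ (1 / 2 : ℝ) := by
      rw [← Real.rpow_add hy0]
      norm_num
    have h6 : y ^ (1 / 2 : ℝ) * y ^ (1 / 2 : ℝ) = y := by
      rw [← Real.rpow_add hy0]
      norm_num
    have h7 : 1 ≤ y ^ (1 / 2 : ℝ) := Real.one_le_rpow hy1 (by norm_num)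
    have h8 : 1 + 1 / ε * Real.log y ≤ (1 + 1 / ε * 4) * y ^ (1 / 4 : ℝ) := by
      have h9 : 1 / ε * Real.log y ≤ 1 / ε * (y ^ (1 / 4 : ℝ) / (1 / 4)) :=
        mul_le_mul_of_nonneg_left h2 (by positivity)
      have h10 : 1 / ε * (y ^ (1 / 4 : ℝ) / (1 / 4)) = 1 / ε * 4 * y ^ (1 / 4 : ℝ) := by ring
      linarith
    have h9 : 0 ≤ Real.log y := Real.log_nonneg hy1
    have h10 : y ^ (1 / 24 : ℝ) * (1 + 1 / ε * Real.log y) ≤
        (1 + 1 / ε * 4) * y ^ (1 / 2 : ℝ) := by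
      calc y ^ (1 / 24 : ℝ) * (1 + 1 / ε * Real.log y) ≤
            y ^ (1 / 4 : ℝ) * ((1 + 1 / ε * 4) * y ^ (1 / 4 : ℝ)) :=
            mul_le_mul h4 h8 (by positivity) (by positivity)
        _ = (1 + 1 / ε * 4) * (y ^ (1 / 4 : ℝ) * y ^ (1 / 4 : ℝ)) := by ring
        _ = _ := by rw [h5]
    have h11 : C1 ≤ |C1| * y ^ (1 / 2 : ℝ) :=
      (le_abs_self C1).trans (le_mul_of_one_le_right (abs_nonneg _) h7)
    have h12 : 1 + 1 / ε * 4 + |C1| + ε / 96 ≤ ε / 96 * y ^ (1 / 2 : ℝ) := by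
      have h13 := mul_le_mul_of_nonneg_left hy (by positivity : 0 ≤ ε / 96)
      have h14 : ε / 96 * (96 / ε * (1 + 1 / ε * 4 + |C1| + ε / 96)) =
          1 + 1 / ε * 4 + |C1| + ε / 96 := by
        field_simp
      linarith
    have h13 := mul_le_mul_of_nonneg_right h12 (by positivity : 0 ≤ y ^ (1 / 2 : ℝ))
    have h14 : ε / 96 * y ^ (1 / 2 : ℝ) * y ^ (1 / 2 : ℝ) = ε / 96 * y := by
      rw [mul_assoc, h6]
    have h15 : ε / 96 ≤ ε / 96 * y ^ (1 / 2 : ℝ) := le_mul_of_one_le_right (by positivity) h7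
    linarith
  obtain ⟨y0, hy0⟩ := (e1.and (e2.and (e3.and (eventually_ge_atTop (2 : ℝ))))).exists_forall_of_atTop
  refine ⟨y0, fun y hy f hf hcard => ?_⟩
  obtain ⟨b1, b2, b3, b4⟩ := hy0 y hy
  by_contra hSM
  have h1 := hN1 _ b1 f hf (by
    intro L hL hLN
    have h2 : (L : ℝ) ≤ Real.exp y := hLN.trans (Nat.floor_le (Real.exp_pos y).le)
    have h3 := TL_le2 hf hε hε1 (by linarith) b2 hSM (N := ⌊Real.exp y⌋₊) hL h2
    have h4 : y - 1 ≤ Real.log ((⌊Real.exp y⌋₊ : ℕ) : ℝ) := by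
      rw [← Real.log_exp (y - 1)]
      apply Real.log_le_log (Real.exp_pos _)
      have h5 := Nat.lt_floor_add_one (Real.exp y)
      have h6 : Real.exp y = Real.exp (y - 1) * Real.exp 1 := by
        rw [← Real.exp_add]
        congr 1
        ring
      have h7 : (2 : ℝ) ≤ Real.exp 1 := by
        have := Real.add_one_le_exp (1 : ℝ)
        linarith
      have h8 : 1 ≤ Real.exp (y - 1) := Real.one_le_exp (by linarith)
      nlinarith
    have h5 : 1 - ε / 6 / 4 = 1 - ε / 24 := by ring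
    have h6 : ε / 6 / 16 = ε / 96 := by ring
    rw [h5, h6]
    have h7 : ε / 96 * (y - 1) ≤ ε / 96 * Real.log ((⌊Real.exp y⌋₊ : ℕ) : ℝ) :=
      mul_le_mul_of_nonneg_left h4 (by positivity)
    have h8 := h3.trans (le_of_eq (add_assoc _ _ _))
    rw [← hC1] at h8
    linarith)
  have h2 : ε / 6 / 64 = ε / 384 := by ring
  rw [h2] at h1
  exact absurd hcard (not_le.2 h1)

end Pool.Agent.Helper11.CN
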