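import Pool.Agent.Helper11.CN.Forms

/-!
Arbitrarily large `N`: the criterion in terms of smooth numbers.
-/

set_option autoImplicit false

open Finset Filter Topology

namespace Pool.Agent.Helper11.CN

open Pool.Agent.Helper34.CA

/-- necessity, arbitrarily large `N` -/
theorem often_nec {K : ℕ} {f : ℕ → ℕ} (hf : Adm K f)
    (h : ∀ ε : ℝ, 0 < ε → ∀ N0 : ℕ, ∃ N : ℕ, N0 ≤ N ∧ (N : ℝ) ^ (1 - ε) ≤ ((cnt f N).card : ℝ))
    {ε : ℝ} (hε : 0 < ε) (z0 : ℝ) :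
    ∃ z : ℝ, z0 ≤ z ∧ z ^ (1 - ε) ≤ ((SmS f z ε).card : ℝ) := by
  have hε' : 0 < min ε 1 := lt_min hε one_pos
  by_contra hcon
  push Not at hcon
  obtain ⟨N0, hN0⟩ := main hf (ε := min ε 1) (z0 := max z0 1) hε' (min_le_right _ _) (by
    intro z hz
    have hz1 : 1 ≤ z := (le_max_right _ _).trans hz
    have h1 := hcon z ((le_max_left _ _).trans hz)
    have h2 : SmS f z (min ε 1) ⊆ SmS f z ε := by
      intro p hp
      rw [mem_SmS (by linarith)] at hp ⊢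
      refine ⟨hp.1, hp.2.1, fun q hq hqf => (hp.2.2 q hq hqf).trans ?_⟩
      exact Real.rpow_le_rpow_of_exponent_le hz1 (min_le_left _ _)
    have h3 : ((SmS f z (min ε 1)).card : ℝ) ≤ (SmS f z ε).card := by
      exact_mod_cast Finset.card_le_card h2
    refine (h3.trans h1.le).trans ?_
    exact Real.rpow_le_rpow_of_exponent_le hz1 (by linarith [min_le_left ε 1]))
  obtain ⟨N, hN, hN'⟩ := h (min ε 1 / 64) (by positivity) N0
  exact absurd hN' (not_le.2 (hN0 N hN))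

/-- smooth numbers give a modulus -/
theorem SM_of_smooth {ε : ℝ} (hε : 0 < ε) :
    ∃ z1 : ℝ, ∀ z : ℝ, z1 ≤ z → ∀ f : ℕ → ℕ, (∀ p : ℕ, p.Prime → f p ∣ p - 1) →
      z ^ (1 - ε / 2) ≤ ((SmS f z (ε / 2)).card : ℝ) → SM f ε (z ^ ε) := by
  have e1 : ∀ᶠ z : ℝ in atTop, 2 * (z ^ (ε / 2) * (2 * Real.log z + 1)) ≤ z ^ ε := by
    filter_upwards [ev_log (b := ε / 4) 8 (by positivity), ev_const (b := ε / 4) 4 (by positivity),
      ev_const (b := ε / 4) 1 (by positivity), eventually_ge_atTop (1 : ℝ)] with z h1 h2 h3 h4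
    have hz0 : 0 < z := by linarith
    have h5 : z ^ ε = z ^ (ε / 2) * (z ^ (ε / 4) * z ^ (ε / 4)) := by
      rw [← Real.rpow_add hz0, ← Real.rpow_add hz0]
      congr 1
      ring
    have h6 : 0 ≤ z ^ (ε / 2) := by positivity
    have h7 : 2 * (2 * Real.log z + 1) ≤ z ^ (ε / 4) * z ^ (ε / 4) := by nlinarith
    rw [h5]
    calc 2 * (z ^ (ε / 2) * (2 * Real.log z + 1)) =
          z ^ (ε / 2) * (2 * (2 * Real.log z + 1)) := by ring
      _ ≤ _ := mul_le_mul_of_nonneg_left h7 h6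
  have e2 : ∀ᶠ z : ℝ in atTop, 1 * Real.log z ≤ z ^ (ε * ε) := ev_log 1 (by positivity)
  obtain ⟨z1, hz1⟩ := (e1.and (e2.and (eventually_ge_atTop (1 : ℝ)))).exists_forall_of_atTop
  refine ⟨z1, fun z hz f hf hcard => ?_⟩
  obtain ⟨b1, b2, b3⟩ := hz1 z hz
  have hz0 : 0 < z := by linarith
  have hlog : 0 ≤ Real.log z := Real.log_nonneg b3
  set B : ℕ := ⌊2 * Real.log z⌋₊ + 1 with hB
  have hB1 : (B : ℝ) ≤ 2 * Real.log z + 1 := by
    rw [hB]
    push_cast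
    linarith [Nat.floor_le (by linarith : 0 ≤ 2 * Real.log z)]
  have hB2 : 2 * Real.log z < B := by
    rw [hB]
    push_cast
    exact Nat.lt_floor_add_one _
  have hzB : z < (2 : ℝ) ^ B := by
    rw [← Real.log_lt_log_iff hz0 (by positivity), Real.log_pow]
    have h1 : (1 / 2 : ℝ) < Real.log 2 := by
      have := Real.log_two_gt_d9
      linarith
    have h2 : (0 : ℝ) < B := by linarith
    nlinarith
  have hy0 : 0 ≤ z ^ (ε / 2) := by positivity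
  refine ⟨MM ⌊z ^ (ε / 2)⌋₊ B, z, MM_pos _ _, ?_, ?_, ?_, SmS f z (ε / 2), ?_, ?_⟩
  · refine (MM_le hy0 B).trans ?_
    rw [Real.rpow_def_of_pos (by norm_num)]
    apply Real.exp_le_exp.2
    refine le_trans ?_ b1
    have h1 : Real.log 4 ≤ 2 := by
      have : Real.log 4 = 2 * Real.log 2 := by
        rw [show (4 : ℝ) = 2 ^ 2 by norm_num, Real.log_pow]; norm_num
      have := Real.log_two_lt_d9
      linarith
    have h2 : z ^ (ε / 2) * (B : ℝ) ≤ z ^ (ε / 2) * (2 * Real.log z + 1) :=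
      mul_le_mul_of_nonneg_left hB1 hy0
    have h3 : 0 ≤ z ^ (ε / 2) * (B : ℝ) := by positivity
    calc Real.log 4 * (z ^ (ε / 2) * B) ≤ 2 * (z ^ (ε / 2) * B) :=
          mul_le_mul_of_nonneg_right h1 h3
      _ ≤ _ := by linarith
  · rw [← Real.rpow_mul hz0.le, mul_one_div_cancel hε.ne', Real.rpow_one]
  · rw [← Real.rpow_mul hz0.le]
    calc z = Real.exp (Real.log z) := (Real.exp_log hz0).symm
      _ ≤ _ := Real.exp_le_exp.2 (by linarith)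
  · intro p hp
    rw [mem_SmS hz0.le] at hp
    obtain ⟨h1, h2, h3⟩ := hp
    have h4 := h1.two_le
    have h5 : 0 < f p := Nat.pos_of_dvd_of_pos (hf p h1) (by omega)
    have h6 : f p ≤ p - 1 := Nat.le_of_dvd (by omega) (hf p h1)
    refine ⟨h1, h2, dvd_MM h5 h3 ?_⟩
    have h7 : (p : ℝ) < (2 : ℝ) ^ B := lt_of_le_of_lt h2 hzB
    have h8 : p < 2 ^ B := by exact_mod_cast h7
    omega
  · exact (Real.rpow_le_rpow_of_exponent_le b3 (by linarith)).trans hcard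

/-- sufficiency, arbitrarily large `N` -/
theorem often_suff {f : ℕ → ℕ} (hf : ∀ p : ℕ, p.Prime → f p ∣ p - 1)
    (h : ∀ ε : ℝ, 0 < ε → ∀ z0 : ℝ, ∃ z : ℝ, z0 ≤ z ∧ z ^ (1 - ε) ≤ ((SmS f z ε).card : ℝ))
    {ε : ℝ} (hε : 0 < ε) (u0 : ℝ) (N0 : ℕ) :
    ∃ N : ℕ, N0 ≤ N ∧ ∀ S : Finset ℕ, (∀ n, n ≤ N → IsG f u0 n → n ∈ S) →
      (N : ℝ) ^ (1 - ε) ≤ (S.card : ℝ) := by
  classical
  obtain ⟨ε₁, c, C, hε₁, hε₁1, hc, hc1, hC, hev⟩ :=
    suff c_quad c_tail equi swapT badT pop (ε := min ε 1) (lt_min hε one_pos) (min_le_right _ _)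
  obtain ⟨z1, hz1⟩ := SM_of_smooth hε₁
  have hC0 : 0 < C := by linarith
  have e1 : ∀ᶠ l : ℝ in atTop, u0 ≤ l ^ c := (tendsto_rpow_atTop hc).eventually_ge_atTop _
  have e2 : ∀ᶠ l : ℝ in atTop, N0 ≤ ⌊Real.exp (C * l)⌋₊ := by
    have : Tendsto (fun l : ℝ => ⌊Real.exp (C * l)⌋₊) atTop atTop :=
      tendsto_nat_floor_atTop.comp (Real.tendsto_exp_atTop.comp
        (tendsto_id.const_mul_atTop hC0))
    exact this.eventually_ge_atTop N0
  have e3 : Tendsto (fun z : ℝ => (z ^ ε₁) ^ (1 / c)) atTop atTop :=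
    (tendsto_rpow_atTop (by positivity)).comp (tendsto_rpow_atTop hε₁)
  have e4 := e3.eventually ((hev.and e1).and (e2.and (eventually_ge_atTop (0 : ℝ))))
  obtain ⟨z2, hz2⟩ := (e4.and (eventually_ge_atTop (1 : ℝ))).exists_forall_of_atTop
  obtain ⟨z, hzz, hcard⟩ := h (ε₁ / 2) (by positivity) (max z1 z2)
  obtain ⟨⟨⟨b1, b2⟩, b3, b4⟩, b5⟩ := hz2 z ((le_max_right _ _).trans hzz)
  have hz0 : 0 < z := by linarith
  have hSM := hz1 z ((le_max_left _ _).trans hzz) f hf hcard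
  set l : ℝ := (z ^ ε₁) ^ (1 / c) with hl
  have hlc : l ^ c = z ^ ε₁ := by
    rw [hl, ← Real.rpow_mul (by positivity), one_div_mul_cancel hc.ne', Real.rpow_one]
  rw [← hlc] at hSM
  set N : ℕ := ⌊Real.exp (C * l)⌋₊ with hN
  refine ⟨N, b3, fun S hS => ?_⟩
  set S' : Finset ℕ := (Icc 1 N).filter (fun n => IsG f (l ^ c) n) with hS'
  have h7 := b1 f hf hSM S' (by
    intro n
    rw [hS', mem_filter, mem_Icc, hN, Nat.le_floor_iff (Real.exp_pos _).le]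
    constructor
    · rintro ⟨⟨_, h8⟩, h9⟩
      exact ⟨h9, h8⟩
    · rintro ⟨h8, h9⟩
      exact ⟨⟨h8.1.le, h9⟩, h8⟩)
  have h8 : S' ⊆ S := by
    intro n hn
    rw [hS', mem_filter, mem_Icc] at hn
    obtain ⟨⟨_, h9⟩, h10⟩ := hn
    refine hS n h9 ⟨h10.1, h10.2.1, h10.2.2.1, fun p hp hpn => ?_⟩
    have := h10.2.2.2 p hp hpn
    exact ⟨this.1, by linarith⟩
  have h9 : (S'.card : ℝ) ≤ S.card := by exact_mod_cast Finset.card_le_card h8
  refine le_trans ?_ (h7.trans h9)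
  have hNle : (N : ℝ) ≤ Real.exp (C * l) := Nat.floor_le (Real.exp_pos _).le
  have hN1 : (1 : ℝ) ≤ N := by
    have : 1 ≤ N := Nat.le_floor (by
      rw [Nat.cast_one]
      exact Real.one_le_exp (mul_nonneg hC0.le b4))
    exact_mod_cast this
  calc (N : ℝ) ^ (1 - ε) ≤ (N : ℝ) ^ (1 - min ε 1) :=
        Real.rpow_le_rpow_of_exponent_le hN1 (by linarith [min_le_left ε 1])
    _ ≤ Real.exp (C * l) ^ (1 - min ε 1) :=
        Real.rpow_le_rpow (by linarith) hNle (by linarith [min_le_right ε 1])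
    _ = Real.exp ((1 - min ε 1) * (C * l)) := by
        rw [← Real.exp_mul, mul_comm]

/-- the smooth criterion for Carmichael numbers -/
theorem carm_often :
    (∀ ε : ℝ, 0 < ε → ∀ N0 : ℕ, ∃ N : ℕ, N0 ≤ N ∧ (N : ℝ) ^ (1 - ε) ≤
      (({n : ℕ | n ≤ N ∧ 1 < n ∧ ¬ n.Prime ∧
        ∀ b : ℕ, Nat.Coprime b n → b ^ (n - 1) ≡ 1 [MOD n]}.ncard : ℕ) : ℝ)) ↔
    ∀ ε : ℝ, 0 < ε → ∀ z0 : ℝ, ∃ z : ℝ, z0 ≤ z ∧
      z ^ (1 - ε) ≤ (({p : ℕ | p.Prime ∧ (p : ℝ) ≤ z ∧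
        ∀ q : ℕ, q.Prime → q ∣ p - 1 → (q : ℝ) ≤ z ^ ε}.ncard : ℕ) : ℝ) := by
  classical
  constructor
  · intro h ε hε z0
    obtain ⟨z, hz, hz'⟩ := often_nec adm_carm (fun ε hε N0 => by
      obtain ⟨N, hN, hN'⟩ := h ε hε N0
      exact ⟨N, hN, hN'.trans (by exact_mod_cast carm_le_cnt N)⟩) hε (max z0 0)
    refine ⟨z, (le_max_left _ _).trans hz, hz'.trans ?_⟩
    rw [Nat.cast_le, ← Set.ncard_coe_finset]
    refine Set.ncard_le_ncard (fun p hp => ?_) (finite_le' z _)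
    rw [Finset.mem_coe, mem_SmS ((le_max_right _ _).trans hz)] at hp
    exact hp
  · intro h ε hε N0
    obtain ⟨N, hN, hN'⟩ := often_suff adm_carm.dvd (fun ε hε z0 => by
      obtain ⟨z, hz, hz'⟩ := h ε hε (max z0 0)
      refine ⟨z, (le_max_left _ _).trans hz, hz'.trans ?_⟩
      rw [Nat.cast_le, ← Set.ncard_coe_finset]
      refine Set.ncard_le_ncard (fun p hp => ?_) (Finset.finite_toSet _)
      rw [Finset.mem_coe, mem_SmS ((le_max_right _ _).trans hz)]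
      exact hp) hε 1 N0
    refine ⟨N, hN, ?_⟩
    have h1 := hN' (finite_le N (fun n => 1 < n ∧ ¬ n.Prime ∧
        ∀ b : ℕ, Nat.Coprime b n → b ^ (n - 1) ≡ 1 [MOD n])).toFinset (by
      intro n hn hG
      rw [Set.Finite.mem_toFinset]
      refine ⟨hn, ?_⟩
      exact kors n hG.1 hG.2.1 hG.2.2.1 (fun p hp hpn => (hG.2.2.2 p hp hpn).1))
    rwa [← Set.ncard_eq_toFinset_card _ (finite_le N _)] at h1

end Pool.Agent.Helper11.CN
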