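import Pool.Agent.Helper34.CA.MainD
import Pool.Agent.Helper11.CN.CoreU
import Pool.Agent.Helper11.CN.ML
import Pool.Agent.Helper11.CN.NQuad

/-!
The choice of the parameters. Adapted from `Pool.Agent.Helper34.CA.MainD` (the primes `p` satisfy
`f p ∣ L` for an arbitrary `L ≤ exp (l ^ (1 - 4 e))`, and `l ^ (4 / δ) ≤ z ≤ exp (l ^ e)`).
-/

set_option autoImplicit false

open Finset Filter Topology

namespace Pool.Agent.Helper11.CN

open Pool.Agent.Helper18.BV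
open Pool.Agent.Helper34.CA

/-- the output of `QuadLBE` for `x = exp l` -/
def QuadAtE (κ κ₁ κ₂ : ℝ) (b0 : ℕ) (l : ℝ) : Prop :=
  ∀ (M : ℕ) (y : ℝ), 0 < M → (M : ℝ) ≤ Real.exp (l ^ κ₁) →
    l ^ κ ≤ y → y ≤ Real.exp (l ^ κ₂) →
    (∀ q : ℕ, q.Prime → q ∣ M → (q : ℝ) ≤ y) →
    (∀ q : ℕ, q.Prime → ((q : ℝ) ≤ l ^ κ ∨ q ∣ M) → l ^ b0 ≤ (q : ℝ) ^ (M.factorization q + 1)) →
    ∃ ξ : DirichletCharacter ℂ M, ξ ^ 2 = 1 ∧
      ∀ a : ℕ, ξ (a : ZMod M) = 1 → ∀ T : Finset (Fin 4 → ℕ),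
        (∀ t, t ∈ T ↔ (∀ i, NiceP (Real.exp l) y (Real.exp (l ^ κ₂)) M (t i)) ∧
          ∏ i, t i ≡ a [MOD M]) →
        Real.exp (-(2 * l ^ κ₁)) ≤ ∑ t ∈ T, ∏ i, (1 / (t i : ℝ))

/-- The inequalities between powers of `l` which are needed. -/
structure AtomsE (δ e K CT : ℝ) (b0 : ℕ) (l : ℝ) : Prop where
  big : 100 ≤ l
  a2 : 4 ≤ l ^ (4 / δ)
  a3 : 2 * l ^ (1 - e) ≤ l
  a5 : 100 * l ^ e ≤ l ^ (1 - 2 * e)
  a6 : l ^ (1 - 2 * e) ≤ δ * l ^ (1 - e)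
  a7 : 4 * K * l ^ (2 * e) ≤ l ^ (4 : ℝ)
  a8 : 3 * l ^ (1 - 4 * e + e / 2) ≤ l ^ (1 - 3 * e)
  a9 : 2 * l ^ (1 - 3 * e) ≤ δ * l ^ (1 - 2 * e)
  a10 : 4 * K * l ≤ l ^ (8 : ℝ)
  a11 : b0 * Real.log l ≤ (l ^ (e / 2) - 1) / 2
  a12 : 3200 + 4 * Real.log l + 2 * l ^ (1 - 3 * e) ≤ l ^ (1 - e)
  a13 : 64 + 5 * Real.log l + 6 * l ^ (1 - 3 * e) + 65536 * l ^ e + |CT| ≤ 3 * δ * l ^ (1 - e)
  a14 : 2 * l ^ (1 - 2 * e) + K * l ^ (3 * e) ≤ δ * K * l
  a15 : 2 * l ^ (1 - 3 * e) + 96 ≤ 4 * l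
  a16 : 4 * l ^ (1 - 3 * e) ≤ l ^ (2 : ℝ)

theorem atomsE {δ e K CT : ℝ} {b0 : ℕ} (hδ : 0 < δ)
    (hδ2 : δ ≤ 1 / 100) (he : e = δ / 16) (hK : 64 ≤ K) :
    ∀ᶠ l : ℝ in atTop, AtomsE δ e K CT b0 l := by
  have he0 : 0 < e := by rw [he]; positivity
  have he1 : e ≤ 1 / 1600 := by rw [he]; linarith
  have h2 : ∀ᶠ l : ℝ in atTop, 4 ≤ l ^ (4 / δ) := ev_const 4 (by positivity)
  have h3 : ∀ᶠ l : ℝ in atTop, 2 * l ^ (1 - e) ≤ l ^ (1 : ℝ) := ev_pow 2 (by linarith)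
  have h5 : ∀ᶠ l : ℝ in atTop, 100 * l ^ e ≤ l ^ (1 - 2 * e) := ev_pow 100 (by linarith)
  have h6 : ∀ᶠ l : ℝ in atTop, 1 / δ * l ^ (1 - 2 * e) ≤ l ^ (1 - e) := ev_pow _ (by linarith)
  have h7 : ∀ᶠ l : ℝ in atTop, 4 * K * l ^ (2 * e) ≤ l ^ (4 : ℝ) := ev_pow _ (by linarith)
  have h8 : ∀ᶠ l : ℝ in atTop, 3 * l ^ (1 - 4 * e + e / 2) ≤ l ^ (1 - 3 * e) :=
    ev_pow _ (by linarith)
  have h9 : ∀ᶠ l : ℝ in atTop, 2 / δ * l ^ (1 - 3 * e) ≤ l ^ (1 - 2 * e) := ev_pow _ (by linarith)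
  have h10 : ∀ᶠ l : ℝ in atTop, 4 * K * l ^ (1 : ℝ) ≤ l ^ (8 : ℝ) := ev_pow _ (by norm_num)
  have h11a : ∀ᶠ l : ℝ in atTop, 4 * (b0 : ℝ) * Real.log l ≤ l ^ (e / 2) :=
    ev_log _ (by linarith)
  have h11b : ∀ᶠ l : ℝ in atTop, 2 ≤ l ^ (e / 2) := ev_const _ (by linarith)
  have h12a : ∀ᶠ l : ℝ in atTop, 9600 ≤ l ^ (1 - e) := ev_const _ (by linarith)
  have h12b : ∀ᶠ l : ℝ in atTop, 12 * Real.log l ≤ l ^ (1 - e) := ev_log _ (by linarith)
  have h12c : ∀ᶠ l : ℝ in atTop, 6 * l ^ (1 - 3 * e) ≤ l ^ (1 - e) := ev_pow _ (by linarith)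
  have h13a : ∀ᶠ l : ℝ in atTop, (64 + |CT|) / δ * 2 ≤ l ^ (1 - e) := ev_const _ (by linarith)
  have h13b : ∀ᶠ l : ℝ in atTop, 10 / δ * Real.log l ≤ l ^ (1 - e) := ev_log _ (by linarith)
  have h13c : ∀ᶠ l : ℝ in atTop, 12 / δ * l ^ (1 - 3 * e) ≤ l ^ (1 - e) := ev_pow _ (by linarith)
  have h13d : ∀ᶠ l : ℝ in atTop, 131072 / δ * l ^ e ≤ l ^ (1 - e) := ev_pow _ (by linarith)
  have h14a : ∀ᶠ l : ℝ in atTop, 4 / (δ * K) * l ^ (1 - 2 * e) ≤ l ^ (1 : ℝ) :=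
    ev_pow _ (by linarith)
  have h14b : ∀ᶠ l : ℝ in atTop, 2 / δ * l ^ (3 * e) ≤ l ^ (1 : ℝ) := ev_pow _ (by linarith)
  have h15 : ∀ᶠ l : ℝ in atTop, 2 * l ^ (1 - 3 * e) ≤ l ^ (1 : ℝ) := ev_pow _ (by linarith)
  have h16 : ∀ᶠ l : ℝ in atTop, 4 * l ^ (1 - 3 * e) ≤ l ^ (2 : ℝ) := ev_pow _ (by linarith)
  filter_upwards [eventually_ge_atTop (100 : ℝ), h2, h3, h5, h6, h7, h8, h9, h10, h11a, h11b,
    h12a, h12b, h12c, h13a, h13b, h13c, h13d, h14a, h14b, h15, h16] with l b b2 b3 b5 b6 b7 b8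
    b9 b10 b11a b11b b12a b12b b12c b13a b13b b13c b13d b14a b14b b15 b16
  rw [Real.rpow_one] at b3 b10 b14a b14b b15
  have hK0 : 0 < K := by linarith
  refine ⟨b, b2, b3, b5, ?_, b7, b8, ?_, b10, ?_, ?_, ?_, ?_, ?_, b16⟩
  · rw [div_mul_eq_mul_div, one_mul, div_le_iff₀ hδ] at b6
    linarith
  · rw [div_mul_eq_mul_div, div_le_iff₀ hδ] at b9
    linarith
  · linarith
  · linarith
  · rw [div_mul_eq_mul_div, div_le_iff₀ hδ] at b13a b13b b13c b13d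
    nlinarith
  · rw [div_mul_eq_mul_div, div_le_iff₀ (by positivity)] at b14a
    rw [div_mul_eq_mul_div, div_le_iff₀ hδ] at b14b
    have : K * (2 * l ^ (3 * e)) ≤ K * (l * δ) := mul_le_mul_of_nonneg_left b14b hK0.le
    linarith
  · linarith

theorem stepE (h4 : SwapT) (h5 : BadT) (h3 : Equi) (h6 : Pop) (h7 : CountU) {CT : ℝ}
    (h2 : PhiTailC CT) {f : ℕ → ℕ} (hf : ∀ p : ℕ, p.Prime → f p ∣ p - 1) {δ e K : ℝ} {b0 : ℕ}
    {l : ℝ} (hδ : 0 < δ) (hδ2 : δ ≤ 1 / 100) (he : e = δ / 16)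
    (hK : 64 ≤ K) (hat : AtomsE δ e K CT b0 l) {L : ℕ} (hL : 0 < L)
    (hLl : (L : ℝ) ≤ Real.exp (l ^ (1 - 4 * e))) {z : ℝ} (hzl : l ^ (4 / δ) ≤ z)
    (hzu : z ≤ Real.exp (l ^ e)) {P0 : Finset ℕ}
    (hP0 : ∀ p ∈ P0, p.Prime ∧ (p : ℝ) ≤ z ∧ f p ∣ L)
    (hP0c : z ^ (1 - δ) ≤ (P0.card : ℝ))
    (hQ : QuadAtE (1 - 4 * e) (1 - 3 * e) (1 - e) b0 l)
    {S : Finset ℕ} (hS : ∀ n, n ∈ S ↔ IsG f (l ^ (1 - 4 * e)) n ∧ (n : ℝ) ≤ Real.exp ((K + 4) * l)) :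
    Real.exp ((1 - 5 * δ) * (K * l) - 2 * l ^ (1 - 3 * e) - 96) ≤ S.card := by
  classical
  obtain ⟨big, a2, a3, a5, a6, a7, a8, a9, a10, a11, a12, a13, a14, a15, a16⟩ := hat
  have he0 : 0 < e := by rw [he]; positivity
  have he1 : e ≤ 1 / 1600 := by rw [he]; linarith
  have l0 : 0 < l := by linarith
  have l1 : 1 ≤ l := by linarith
  have K0 : 0 < K := by linarith
  have hlog0 : 0 < Real.log l := Real.log_pos (by linarith)
  have hβ0 : 0 < 4 / δ := by positivity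
  -- `y`, `z`, `w`
  unfold QuadAtE at hQ
  obtain ⟨y, hy⟩ : ∃ y : ℝ, y = l ^ (1 - 4 * e) := ⟨_, rfl⟩
  obtain ⟨yN, hyN⟩ : ∃ yN : ℝ, yN = Real.exp (l ^ (1 - 4 * e)) := ⟨_, rfl⟩
  obtain ⟨w, hw⟩ : ∃ w : ℝ, w = Real.exp (l ^ (1 - e)) := ⟨_, rfl⟩
  rw [← hy] at hQ hS
  rw [← hw] at hQ
  have hy1 : 1 ≤ y := by rw [hy]; exact Real.one_le_rpow l1 (by linarith)
  have hy0 : 0 ≤ y := by linarith
  have hz4' : 4 ≤ z := a2.trans hzl
  have hz0 : 0 < z := by linarith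
  have hz1 : 1 ≤ z := by linarith
  obtain ⟨z0, hz0'⟩ : ∃ z0 : ℕ, z0 = ⌊z⌋₊ := ⟨_, rfl⟩
  have hz4 : 4 ≤ z0 := by rw [hz0']; exact Nat.le_floor (by exact_mod_cast hz4')
  have hz4r : (4 : ℝ) ≤ z0 := by exact_mod_cast hz4
  have hz0le : (z0 : ℝ) ≤ z := by rw [hz0']; exact Nat.floor_le hz0.le
  have hz0gt : z < z0 + 1 := by rw [hz0']; exact Nat.lt_floor_add_one z
  have hz0pos : (0 : ℝ) < z0 := by linarith
  have hlogz0 : 1 ≤ Real.log z0 := by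
    rw [Real.le_log_iff_exp_le hz0pos]
    have := Real.exp_one_lt_d9
    linarith
  have hlogz : Real.log z ≤ l ^ e := by
    have := Real.log_le_log hz0 hzu
    rwa [Real.log_exp] at this
  have hlogz0e : Real.log z0 ≤ l ^ e := (Real.log_le_log hz0pos hz0le).trans hlogz
  -- powers
  have p1 : l ^ (2 * e) * l ^ (1 - 2 * e) = l := by
    rw [← Real.rpow_add l0]
    simp
  have p2 : l ^ e * l ^ (2 * e) = l ^ (3 * e) := by
    rw [← Real.rpow_add l0]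
    congr 1
    ring
  have p3 : 1 ≤ l ^ (2 * e) := Real.one_le_rpow l1 (by linarith)
  have p4 : 1 ≤ l ^ e := Real.one_le_rpow l1 (by linarith)
  have p5 : 1 ≤ l ^ (1 - 2 * e) := Real.one_le_rpow l1 (by linarith)
  have p6 : 0 < l ^ (1 - 3 * e) := Real.rpow_pos_of_pos l0 _
  -- `h`
  obtain ⟨h, hh⟩ : ∃ h : ℕ, h = ⌊l ^ (1 - 2 * e) / Real.log z0⌋₊ := ⟨_, rfl⟩
  have hh1 : (h : ℝ) ≤ l ^ (1 - 2 * e) / Real.log z0 := by
    rw [hh]; exact Nat.floor_le (by positivity)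
  have hh2 : l ^ (1 - 2 * e) / Real.log z0 < h + 1 := by rw [hh]; exact Nat.lt_floor_add_one _
  obtain ⟨Λ, hΛ⟩ : ∃ Λ : ℝ, Λ = h * Real.log z0 := ⟨_, rfl⟩
  have hL0 : 0 < Real.log z0 := by linarith
  have hΛ1 : Λ ≤ l ^ (1 - 2 * e) := by rwa [le_div_iff₀ hL0, ← hΛ] at hh1
  have hΛ2 : l ^ (1 - 2 * e) - l ^ e ≤ Λ := by
    rw [div_lt_iff₀ hL0] at hh2
    rw [hΛ]
    linarith
  have hΛ3 : l ^ (1 - 2 * e) ≤ 2 * Λ := by linarith
  have hΛ0 : 0 < Λ := by linarith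
  have hhge : 1 ≤ h := by
    rcases Nat.eq_zero_or_pos h with h0 | h0
    · rw [hΛ, h0] at hΛ0
      simp at hΛ0
    · exact h0
  have hhr : (1 : ℝ) ≤ h := by exact_mod_cast hhge
  have hhle : (h : ℝ) ≤ l ^ (1 - 2 * e) := hh1.trans (div_le_self (by linarith) hlogz0)
  -- `J`
  obtain ⟨J, hJ⟩ : ∃ J : ℕ, J = ⌊K * l ^ (2 * e)⌋₊ := ⟨_, rfl⟩
  have hJ1 : (J : ℝ) ≤ K * l ^ (2 * e) := by rw [hJ]; exact Nat.floor_le (by positivity)
  have hJ2 : K * l ^ (2 * e) < J + 1 := by rw [hJ]; exact Nat.lt_floor_add_one _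
  have hKp : K ≤ K * l ^ (2 * e) := le_mul_of_one_le_right K0.le p3
  have hJ64 : 63 < (J : ℝ) := by linarith
  have hJn : 63 < J := by exact_mod_cast hJ64
  have hJ0 : (0 : ℝ) < J := by linarith
  have hJh : (J : ℝ) * h ≤ K * l := by
    calc (J : ℝ) * h ≤ (K * l ^ (2 * e)) * l ^ (1 - 2 * e) :=
          mul_le_mul hJ1 hhle (Nat.cast_nonneg _) (by positivity)
      _ = K * l := by rw [mul_assoc, p1]
  -- `X`
  have hX : ((z0 ^ h : ℕ) : ℝ) = Real.exp Λ := by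
    rw [Nat.cast_pow, hΛ, Real.exp_nat_mul, Real.exp_log hz0pos]
  have hXpow : ∀ n : ℕ, ((z0 ^ h : ℕ) : ℝ) ^ n = Real.exp (n * Λ) := by
    intro n
    rw [hX, ← Real.exp_nat_mul]
  have hXr : ∀ s : ℝ, ((z0 ^ h : ℕ) : ℝ) ^ s = Real.exp (Λ * s) := by
    intro s
    rw [hX, ← Real.exp_mul]
  -- `B` and `M`
  obtain ⟨B, hB⟩ : ∃ B : ℕ, B = ⌊l ^ (e / 2)⌋₊ := ⟨_, rfl⟩
  have hB1 : (B : ℝ) ≤ l ^ (e / 2) := by rw [hB]; exact Nat.floor_le (by positivity)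
  have hB2 : l ^ (e / 2) < B + 1 := by rw [hB]; exact Nat.lt_floor_add_one _
  have hB0 : B ≠ 0 := by
    rintro h0
    have e1 : (1 : ℝ) ≤ l ^ (e / 2) := Real.one_le_rpow l1 (by linarith)
    have e2 : 1 ≤ B := by rw [hB]; exact Nat.le_floor (by simpa using e1)
    omega
  obtain ⟨M, hM⟩ : ∃ M : ℕ, M = ML L ⌊y⌋₊ B := ⟨_, rfl⟩
  have hMpos : 0 < M := by rw [hM]; exact ML_pos hL _ _
  have hMr : (0 : ℝ) < M := by exact_mod_cast hMpos
  have hM1 : (M : ℝ) ≤ Real.exp (l ^ (1 - 3 * e)) := by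
    rw [hM]
    refine (ML_le hy0 hLl B).trans ?_
    refine Real.exp_le_exp.2 (le_trans ?_ a8)
    rw [← hy]
    have e2 : y * (B : ℝ) ≤ l ^ (1 - 4 * e + e / 2) := by
      rw [Real.rpow_add l0, ← hy]
      exact mul_le_mul_of_nonneg_left hB1 hy0
    calc (y + 2 * y) * (B : ℝ) = 3 * (y * B) := by ring
      _ ≤ 3 * l ^ (1 - 4 * e + e / 2) := by linarith
  have hM2 : l ^ (1 - 3 * e) ≤ δ * Λ := by
    have : δ * l ^ (1 - 2 * e) ≤ δ * (2 * Λ) := mul_le_mul_of_nonneg_left hΛ3 hδ.le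
    linarith
  have h2B1 : l ^ b0 ≤ (2 : ℝ) ^ B := by
    rw [← Real.rpow_natCast, ← Real.rpow_natCast, exp_of_log (by norm_num : (0 : ℝ) < 2),
      exp_of_log l0, mul_comm]
    refine Real.exp_le_exp.2 (a11.trans ?_)
    have e1 := Real.log_two_gt_d9
    have e2 : (1 / 2 : ℝ) * B ≤ Real.log 2 * B :=
      mul_le_mul_of_nonneg_right (by linarith) (Nat.cast_nonneg _)
    linarith
  -- the quadruples
  have hyyN : y ≤ yN := by
    rw [hyN, ← hy]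
    linarith [Real.add_one_le_exp y]
  have hyNw : yN < w := by
    rw [hyN, hw]
    exact Real.exp_lt_exp.2 (Real.rpow_lt_rpow_of_exponent_lt (by linarith) (by linarith))
  have hMyN : ∀ q : ℕ, q.Prime → q ∣ M → (q : ℝ) ≤ yN := by
    intro q hq hqM
    rw [hM] at hqM
    rcases prime_dvd_ML hy0 hq hqM with h1 | h1
    · rw [hyN]
      exact (Nat.cast_le.2 (Nat.le_of_dvd hL h1)).trans hLl
    · exact h1.trans hyyN
  obtain ⟨ξ, hξ, hξQ⟩ := hQ M yN hMpos hM1 hyyN hyNw.le hMyN (by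
    intro q hq hqy
    refine h2B1.trans ?_
    have e0 : B ≤ M.factorization q := by
      rw [hM]
      rw [hM] at hqy
      exact factorization_ML hL hq hqy
    have e1 : (2 : ℝ) ≤ q := by exact_mod_cast hq.two_le
    calc (2 : ℝ) ^ B ≤ (q : ℝ) ^ B := pow_le_pow_left₀ (by norm_num) e1 B
      _ ≤ (q : ℝ) ^ (M.factorization q + 1) := pow_le_pow_right₀ (by linarith) (by omega))
  -- the primes
  obtain ⟨P, hP⟩ : ∃ P : Finset ℕ, P = P0.filter (fun p : ℕ => ¬ p ∣ M) := ⟨_, rfl⟩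
  have hzE : z ^ (1 - δ) ≤ 2 * (P.card : ℝ) := by
    have e1 : P0.card ≤ P.card + M.primeFactors.card := by
      have e2 := Finset.card_filter_add_card_filter_not (s := P0) (fun p : ℕ => ¬ p ∣ M)
      rw [← hP] at e2
      have e3 : (P0.filter (fun p : ℕ => ¬ ¬ p ∣ M)).card ≤ M.primeFactors.card := by
        refine Finset.card_le_card fun p hp => ?_
        rw [Finset.mem_filter, not_not] at hp
        exact Nat.mem_primeFactors.2 ⟨(hP0 p hp.1).1, hp.2, hMpos.ne'⟩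
      omega
    have e4 : (P0.card : ℝ) ≤ P.card + M.primeFactors.card := by exact_mod_cast e1
    have e5 := card_pf hMpos
    have e6 : Real.log M ≤ l ^ (1 - 3 * e) := by
      have := Real.log_le_log hMr hM1
      rwa [Real.log_exp] at this
    have e7 : l ^ (2 : ℝ) ≤ z ^ (1 - δ) := by
      calc l ^ (2 : ℝ) ≤ l ^ (4 / δ * (1 - δ)) := by
            apply Real.rpow_le_rpow_of_exponent_le l1
            rw [div_mul_eq_mul_div, le_div_iff₀ hδ]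
            linarith
        _ = (l ^ (4 / δ)) ^ (1 - δ) := Real.rpow_mul l0.le _ _
        _ ≤ z ^ (1 - δ) := Real.rpow_le_rpow (by positivity) hzl (by linarith)
    linarith
  have hPp : ∀ p ∈ P, p.Prime ∧ p ≤ z0 ∧ Nat.Coprime p M ∧ f p ∣ M ∧ y < (p : ℝ) := by
    intro p hp
    rw [hP, Finset.mem_filter] at hp
    obtain ⟨b1, b2, b3⟩ := hP0 p hp.1
    refine ⟨b1, by rw [hz0']; exact Nat.le_floor b2, ?_, ?_, ?_⟩
    · rw [b1.coprime_iff_not_dvd]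
      exact hp.2
    · rw [hM]
      exact b3.trans (dvd_ML _ hB0)
    · by_contra hcon
      apply hp.2
      have e1 : p ∣ primorial ⌊y⌋₊ := (prime_dvd_primorial b1).2 (Nat.le_floor (not_lt.1 hcon))
      rw [hM]
      exact (e1.trans (Dvd.intro_left _ rfl)).trans (dvd_pow_self _ hB0)
  -- `a`
  have hex : 0 ≤ 1 - 3 * δ := by linarith
  obtain ⟨v, hv⟩ : ∃ v : ℝ, v = z ^ (1 - 3 * δ) := ⟨_, rfl⟩
  have hv1 : 1 ≤ v := by rw [hv]; exact Real.one_le_rpow hz1 (by linarith)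
  have hv0 : 0 < v := by linarith
  have hvE : 4 * K * (l * v) ≤ z ^ (1 - δ) := by
    have e1 : z ^ (1 - δ) = z ^ (2 * δ) * v := by
      rw [hv, ← Real.rpow_add hz0]
      congr 1
      ring
    have e2 : l ^ (8 : ℝ) ≤ z ^ (2 * δ) := by
      calc l ^ (8 : ℝ) = (l ^ (4 / δ)) ^ (2 * δ) := by
            rw [← Real.rpow_mul l0.le]
            congr 1
            field_simp
            norm_num
        _ ≤ z ^ (2 * δ) := Real.rpow_le_rpow (by positivity) hzl (by linarith)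
    rw [e1]
    calc 4 * K * (l * v) = (4 * K * l) * v := by ring
      _ ≤ z ^ (2 * δ) * v := mul_le_mul_of_nonneg_right (a10.trans e2) hv0.le
  have hKl : K * l ≤ K * (l * v) := by
    refine mul_le_mul_of_nonneg_left ?_ K0.le
    exact le_mul_of_one_le_right l0.le hv1
  have hKlpos : 0 < K * l := by positivity
  have hJhP : J * h ≤ P.card := by
    have : ((J * h : ℕ) : ℝ) ≤ (P.card : ℝ) := by
      push_cast
      have e1 : 4 * K * (l * v) = 4 * (K * (l * v)) := by ring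
      linarith
    exact_mod_cast this
  obtain ⟨b, hb⟩ : ∃ b : ℝ, b = (z0 : ℝ) ^ (1 - 3 * δ) := ⟨_, rfl⟩
  have hb0 : 0 < b := by rw [hb]; exact Real.rpow_pos_of_pos hz0pos _
  have hbv : b ≤ v := by
    rw [hb, hv]
    exact Real.rpow_le_rpow hz0pos.le hz0le hex
  have hbh : b ≤ ((P.card / J : ℕ) : ℝ) / h := by
    rw [le_div_iff₀ (by linarith)]
    have e1 : P.card < J * (P.card / J + 1) := by
      have := Nat.lt_mul_div_succ P.card (show 0 < J by omega)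
      exact this
    have e2 : (P.card : ℝ) < J * (((P.card / J : ℕ) : ℝ) + 1) := by exact_mod_cast e1
    have e3 : (J : ℝ) * (b * h + 1) ≤ P.card := by
      have e4 : (J : ℝ) * h * b ≤ K * l * v :=
        mul_le_mul hJh hbv hb0.le (by positivity)
      have e5 : (J : ℝ) ≤ K * l * v := by
        have e6 : (J : ℝ) ≤ J * h := le_mul_of_one_le_right hJ0.le hhr
        rw [mul_assoc]
        exact e6.trans (hJh.trans hKl)
      exact aux_P e4 e5 hvE hzE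
    have e6 : (J : ℝ) * (b * h + 1) < J * (((P.card / J : ℕ) : ℝ) + 1) := lt_of_le_of_lt e3 e2
    have e7 := lt_of_mul_lt_mul_left e6 hJ0.le
    linarith
  have ha : Real.exp (Λ * (1 - 4 * δ)) ≤ (((P.card / J : ℕ) : ℝ) / h) ^ h / M := by
    rw [le_div_iff₀ hMr]
    have e1 : b ^ h = Real.exp (Λ * (1 - 3 * δ)) := by
      rw [hb, exp_of_log hz0pos, ← Real.exp_nat_mul, hΛ]
      congr 1
      ring
    calc Real.exp (Λ * (1 - 4 * δ)) * M ≤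
          Real.exp (Λ * (1 - 4 * δ)) * Real.exp (δ * Λ) :=
          mul_le_mul_of_nonneg_left (hM1.trans (Real.exp_le_exp.2 hM2)) (Real.exp_pos _).le
      _ = b ^ h := by
          rw [← Real.exp_add, e1]
          congr 1
          ring
      _ ≤ (((P.card / J : ℕ) : ℝ) / h) ^ h := pow_le_pow_left₀ hb0.le hbh h
  -- the remaining inequalities
  have hl2 : l ^ (1 - e) ≤ l / 2 := by linarith
  have hyN1 : 1 ≤ yN := hy1.trans hyyN
  have hxh : Real.exp l ^ (1 / 2 : ℝ) = Real.exp (l / 2) := by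
    rw [← Real.exp_mul]
    congr 1
    ring
  have hwx : w ≤ Real.exp l ^ (1 / 2 : ℝ) := by
    rw [hxh, hw]
    exact Real.exp_le_exp.2 hl2
  have hzw : (z0 : ℝ) ≤ w := by
    refine hz0le.trans (hzu.trans ?_)
    rw [hw]
    exact Real.exp_le_exp.2 (Real.rpow_le_rpow_of_exponent_le l1 (by linarith))
  have hXw : ((z0 ^ h : ℕ) : ℝ) ≤ w ^ δ := by
    rw [hX, hw, ← Real.exp_mul]
    exact Real.exp_le_exp.2 (by linarith)
  have hX2 : 2 ≤ z0 ^ h := by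
    calc 2 ≤ z0 := by omega
      _ = z0 ^ 1 := (pow_one _).symm
      _ ≤ z0 ^ h := Nat.pow_le_pow_right (by omega) hhge
  have hJhX : (J : ℝ) ^ h ≤ ((z0 ^ h : ℕ) : ℝ) ^ δ := by
    have e1 : (J : ℝ) ≤ (z0 : ℝ) ^ δ := by
      have e2 : (z / 2) ^ δ ≤ (z0 : ℝ) ^ δ :=
        Real.rpow_le_rpow (by positivity) (by linarith) hδ.le
      have e3 : (z / 2) ^ δ = z ^ δ / 2 ^ δ := Real.div_rpow hz0.le (by norm_num) δ
      have e4 : (2 : ℝ) ^ δ ≤ 2 := by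
        calc (2 : ℝ) ^ δ ≤ (2 : ℝ) ^ (1 : ℝ) :=
              Real.rpow_le_rpow_of_exponent_le (by norm_num) (by linarith)
          _ = 2 := Real.rpow_one 2
      have e5 : l ^ (4 : ℝ) ≤ z ^ δ := by
        calc l ^ (4 : ℝ) = (l ^ (4 / δ)) ^ δ := by
              rw [← Real.rpow_mul l0.le]
              congr 1
              field_simp
          _ ≤ z ^ δ := Real.rpow_le_rpow (by positivity) hzl hδ.le
      have e6 : l ^ (4 : ℝ) / 2 ≤ z ^ δ / 2 ^ δ := by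
        refine le_trans (div_le_div_of_nonneg_right e5 (by norm_num)) ?_
        exact div_le_div_of_nonneg_left (Real.rpow_nonneg hz0.le _)
          (Real.rpow_pos_of_pos (by norm_num) _) e4
      have e7 : 0 ≤ K * l ^ (2 * e) := by positivity
      linarith
    calc (J : ℝ) ^ h ≤ ((z0 : ℝ) ^ δ) ^ h := pow_le_pow_left₀ (Nat.cast_nonneg _) e1 h
      _ = ((z0 ^ h : ℕ) : ℝ) ^ δ := by
          rw [Nat.cast_pow, ← Real.rpow_natCast, ← Real.rpow_natCast, ← Real.rpow_mul hz0pos.le,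
            ← Real.rpow_mul hz0pos.le, mul_comm δ]
  have hJd : (J : ℝ) - 2 ≤ 2 * (((J - 1) / 2 : ℕ) : ℝ) := by
    have e1 : J ≤ 2 * ((J - 1) / 2) + 2 := by omega
    have e2 : (J : ℝ) ≤ 2 * (((J - 1) / 2 : ℕ) : ℝ) + 2 := by exact_mod_cast e1
    linarith
  have hx8 : Real.exp l ^ 8 ≤ ((z0 ^ h : ℕ) : ℝ) ^ ((J - 1) / 2) := by
    rw [hXpow, ← Real.exp_nat_mul]
    refine Real.exp_le_exp.2 ?_
    have e1 : K * l ^ (2 * e) / 4 ≤ (((J - 1) / 2 : ℕ) : ℝ) := by linarith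
    have e2 : (K * l ^ (2 * e) / 4) * (l ^ (1 - 2 * e) / 2) ≤ (((J - 1) / 2 : ℕ) : ℝ) * Λ :=
      mul_le_mul e1 (by linarith) (by positivity) (Nat.cast_nonneg _)
    have e3 : (K * l ^ (2 * e) / 4) * (l ^ (1 - 2 * e) / 2) = K * l / 8 := by
      calc (K * l ^ (2 * e) / 4) * (l ^ (1 - 2 * e) / 2) =
            K * (l ^ (2 * e) * l ^ (1 - 2 * e)) / 8 := by ring
        _ = K * l / 8 := by rw [p1]
    have e4 : 64 * l ≤ K * l := mul_le_mul_of_nonneg_right hK l0.le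
    push_cast
    linarith
  have haX : ((z0 ^ h : ℕ) : ℝ) ^ (1 / 2 + 3 * δ) ≤ Real.exp (Λ * (1 - 4 * δ)) := by
    rw [hXr]
    refine Real.exp_le_exp.2 (mul_le_mul_of_nonneg_left ?_ hΛ0.le)
    linarith
  have hlogx : Real.log (Real.exp l) = l := Real.log_exp l
  obtain ⟨μ, hμ⟩ : ∃ μ : ℝ, μ = Real.exp (-(2 * l ^ (1 - 3 * e))) / 2 := ⟨_, rfl⟩
  have h1l : (1 + l) ^ 4 ≤ 16 * Real.exp (4 * Real.log l) := by
    have e1 : Real.exp (4 * Real.log l) = l ^ 4 := by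
      have := Real.exp_nat_mul (Real.log l) 4
      rw [Real.exp_log l0] at this
      rw [← this]
      norm_num
    rw [e1]
    calc (1 + l) ^ 4 ≤ (2 * l) ^ 4 := pow_le_pow_left₀ (by linarith) (by linarith) 4
      _ = 16 * l ^ 4 := by ring
  have hbad : 100 * (1 + Real.log (Real.exp l)) ^ 4 / w ≤ μ := by
    rw [hlogx, hw, div_le_iff₀ (Real.exp_pos _), hμ]
    have e1 : (3200 : ℝ) ≤ Real.exp 3200 := by
      have := Real.add_one_le_exp (3200 : ℝ)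
      linarith
    have e2 : 3200 * Real.exp (4 * Real.log l) ≤
        Real.exp (-(2 * l ^ (1 - 3 * e))) * Real.exp (l ^ (1 - e)) := by
      calc 3200 * Real.exp (4 * Real.log l) ≤ Real.exp 3200 * Real.exp (4 * Real.log l) :=
            mul_le_mul_of_nonneg_right e1 (Real.exp_pos _).le
        _ = Real.exp (3200 + 4 * Real.log l) := (Real.exp_add _ _).symm
        _ ≤ Real.exp (-(2 * l ^ (1 - 3 * e)) + l ^ (1 - e)) := Real.exp_le_exp.2 (by linarith)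
        _ = _ := Real.exp_add _ _
    linarith
  have herr : (M.divisors.card * (1 + Real.log (Real.exp l))) ^ 4 *
      (65536 : ℝ) ^ (Real.log (Real.exp l) / Real.log w) *
      (CT * Real.log (Real.exp l) * w ^ (-(3 * δ))) ≤ μ / 2 := by
    rw [hlogx, hw, Real.log_exp]
    have q1 : l / l ^ (1 - e) = l ^ e := by
      rw [div_eq_iff (Real.rpow_pos_of_pos l0 _).ne', ← Real.rpow_add l0]
      simp
    rw [q1]
    have q2 : (65536 : ℝ) ^ (l ^ e) ≤ Real.exp (65536 * l ^ e) := by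
      rw [exp_of_log (by norm_num)]
      refine Real.exp_le_exp.2 (mul_le_mul_of_nonneg_right ?_ (by linarith))
      have := Real.log_le_sub_one_of_pos (show (0 : ℝ) < 65536 by norm_num)
      linarith
    have q3 : (M.divisors.card : ℝ) ≤ Real.exp (l ^ (1 - 3 * e)) := by
      refine le_trans ?_ hM1
      exact_mod_cast Nat.card_divisors_le_self M
    have q4 : ((M.divisors.card : ℝ) * (1 + l)) ^ 4 ≤
        Real.exp (4 * l ^ (1 - 3 * e)) * (16 * Real.exp (4 * Real.log l)) := by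
      rw [mul_pow]
      refine mul_le_mul ?_ h1l (by positivity) (Real.exp_pos _).le
      have := Real.exp_nat_mul (l ^ (1 - 3 * e)) 4
      push_cast at this
      rw [this]
      exact pow_le_pow_left₀ (Nat.cast_nonneg _) q3 4
    have q5 : CT * l * Real.exp (l ^ (1 - e)) ^ (-(3 * δ)) ≤
        Real.exp (|CT| + Real.log l + l ^ (1 - e) * (-(3 * δ))) := by
      rw [Real.exp_add, Real.exp_add, Real.exp_log l0, ← Real.exp_mul]
      refine mul_le_mul_of_nonneg_right ?_ (Real.exp_pos _).le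
      refine mul_le_mul_of_nonneg_right ?_ l0.le
      have e1 := Real.add_one_le_exp |CT|
      have e2 := le_abs_self CT
      linarith
    have q6 : (0 : ℝ) ≤ ((M.divisors.card : ℝ) * (1 + l)) ^ 4 * (65536 : ℝ) ^ (l ^ e) := by
      positivity
    have q7 : ((M.divisors.card : ℝ) * (1 + l)) ^ 4 * (65536 : ℝ) ^ (l ^ e) ≤
        (Real.exp (4 * l ^ (1 - 3 * e)) * (16 * Real.exp (4 * Real.log l))) *
          Real.exp (65536 * l ^ e) :=
      mul_le_mul q4 q2 (by positivity) (by positivity)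
    have q8 : (64 : ℝ) ≤ Real.exp 64 := by
      have := Real.add_one_le_exp (64 : ℝ)
      linarith
    calc ((M.divisors.card : ℝ) * (1 + l)) ^ 4 * (65536 : ℝ) ^ (l ^ e) *
          (CT * l * Real.exp (l ^ (1 - e)) ^ (-(3 * δ)))
        ≤ ((M.divisors.card : ℝ) * (1 + l)) ^ 4 * (65536 : ℝ) ^ (l ^ e) *
          Real.exp (|CT| + Real.log l + l ^ (1 - e) * (-(3 * δ))) :=
          mul_le_mul_of_nonneg_left q5 q6
      _ ≤ ((Real.exp (4 * l ^ (1 - 3 * e)) * (16 * Real.exp (4 * Real.log l))) *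
          Real.exp (65536 * l ^ e)) *
          Real.exp (|CT| + Real.log l + l ^ (1 - e) * (-(3 * δ))) :=
          mul_le_mul_of_nonneg_right q7 (Real.exp_pos _).le
      _ = 64 * Real.exp (4 * l ^ (1 - 3 * e) + 4 * Real.log l + 65536 * l ^ e +
          (|CT| + Real.log l + l ^ (1 - e) * (-(3 * δ)))) / 4 := by
          exact aux_exp _ _ _ _
      _ ≤ Real.exp 64 * Real.exp (4 * l ^ (1 - 3 * e) + 4 * Real.log l + 65536 * l ^ e +
          (|CT| + Real.log l + l ^ (1 - e) * (-(3 * δ)))) / 4 := by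
          refine div_le_div_of_nonneg_right ?_ (by norm_num)
          exact mul_le_mul_of_nonneg_right q8 (Real.exp_pos _).le
      _ = Real.exp (64 + (4 * l ^ (1 - 3 * e) + 4 * Real.log l + 65536 * l ^ e +
          (|CT| + Real.log l + l ^ (1 - e) * (-(3 * δ))))) / 4 := by
          rw [← Real.exp_add]
      _ ≤ Real.exp (-(2 * l ^ (1 - 3 * e))) / 4 := by
          refine div_le_div_of_nonneg_right ?_ (by norm_num)
          exact Real.exp_le_exp.2 (by linarith)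
      _ = μ / 2 := by rw [hμ]; ring
  -- the set of Carmichael numbers
  have hXJ : ((z0 ^ h : ℕ) : ℝ) ^ J * Real.exp l ^ 4 ≤ Real.exp ((K + 4) * l) := by
    rw [hXpow, ← Real.exp_nat_mul, ← Real.exp_add]
    refine Real.exp_le_exp.2 ?_
    have e1 : (J : ℝ) * Λ ≤ (K * l ^ (2 * e)) * l ^ (1 - 2 * e) :=
      mul_le_mul hJ1 hΛ1 hΛ0.le (by positivity)
    rw [mul_assoc, p1] at e1
    push_cast
    linarith
  have hS' : ∀ n : ℕ, n ∈ S.filter (fun n : ℕ => (n : ℝ) ≤ ((z0 ^ h : ℕ) : ℝ) ^ J *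
      Real.exp l ^ 4) ↔ IsG f y n ∧ (n : ℝ) ≤ ((z0 ^ h : ℕ) : ℝ) ^ J * Real.exp l ^ 4 := by
    intro n
    rw [Finset.mem_filter, hS]
    exact ⟨fun h => ⟨h.1.1, h.2⟩, fun h => ⟨⟨h.1, h.2.trans hXJ⟩, h.2⟩⟩
  have hx3 : 3 ≤ Real.exp l := by
    have := Real.add_one_le_exp l
    linarith
  have hux : y ≤ Real.exp l ^ (1 / 2 : ℝ) := (hyyN.trans hyNw.le).trans hwx
  have hmain := coreU h4 h5 h3 h6 h7 h2 hf (a := Real.exp (Λ * (1 - 4 * δ))) hx3 hyN1 hyNw hwx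
    hux hMpos (hzw.trans hwx) hzw hδ (by linarith) (by omega) hhge hJhP hPp hX2 hXw hJhX hx8 haX ha
    ⟨ξ, hξ, fun a ha T hT => by
      have := hξQ a ha T hT
      rw [hμ]
      linarith⟩ hbad herr hS'
  have hcard : (((S.filter (fun n : ℕ => (n : ℝ) ≤ ((z0 ^ h : ℕ) : ℝ) ^ J *
      Real.exp l ^ 4)).card : ℕ) : ℝ) ≤ S.card := by exact_mod_cast Finset.card_filter_le _ _
  refine le_trans ?_ (hmain.trans hcard)
  have f1 : Real.exp (Λ * (1 - 4 * δ)) ^ (J - 1) * μ / 48 =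
      Real.exp (((J - 1 : ℕ) : ℝ) * (Λ * (1 - 4 * δ)) + -(2 * l ^ (1 - 3 * e))) / 96 := by
    rw [Real.exp_add, Real.exp_nat_mul, hμ]
    ring
  rw [f1]
  have f2 : (96 : ℝ) ≤ Real.exp 96 := by
    have := Real.add_one_le_exp (96 : ℝ)
    linarith
  have f3 : Real.exp (-96) ≤ 1 / 96 := by
    rw [Real.exp_neg, ← one_div]
    exact one_div_le_one_div_of_le (by norm_num) f2
  have f4 : (1 - δ) * (K * l) ≤ ((J - 1 : ℕ) : ℝ) * Λ := by
    have e0 : ((J - 1 : ℕ) : ℝ) = J - 1 := by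
      rw [Nat.cast_sub (by omega)]
      norm_num
    have e1 : K * l ^ (2 * e) - 2 ≤ ((J - 1 : ℕ) : ℝ) := by rw [e0]; linarith
    have e2 : (K * l ^ (2 * e) - 2) * (l ^ (1 - 2 * e) - l ^ e) ≤ ((J - 1 : ℕ) : ℝ) * Λ :=
      mul_le_mul e1 hΛ2 (by linarith) (by positivity)
    have e3 : (K * l ^ (2 * e) - 2) * (l ^ (1 - 2 * e) - l ^ e) =
        K * (l ^ (2 * e) * l ^ (1 - 2 * e)) - K * (l ^ e * l ^ (2 * e)) - 2 * l ^ (1 - 2 * e) +
          2 * l ^ e := by ring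
    rw [e3, p1, p2] at e2
    exact aux_f4 e2 a14 p4
  have f5 : (1 - 5 * δ) * (K * l) ≤ ((J - 1 : ℕ) : ℝ) * (Λ * (1 - 4 * δ)) := by
    have := aux_f5 (θ := 0) f4 (by linarith) hδ.le le_rfl hKlpos.le
    simpa only [sub_zero] using this
  calc Real.exp ((1 - 5 * δ) * (K * l) - 2 * l ^ (1 - 3 * e) - 96)
      ≤ Real.exp (((J - 1 : ℕ) : ℝ) * (Λ * (1 - 4 * δ)) + -(2 * l ^ (1 - 3 * e)) + -96) :=
        Real.exp_le_exp.2 (by linarith)
    _ = Real.exp (((J - 1 : ℕ) : ℝ) * (Λ * (1 - 4 * δ)) + -(2 * l ^ (1 - 3 * e))) *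
        Real.exp (-96) := Real.exp_add _ _
    _ ≤ Real.exp (((J - 1 : ℕ) : ℝ) * (Λ * (1 - 4 * δ)) + -(2 * l ^ (1 - 3 * e))) *
        (1 / 96) := mul_le_mul_of_nonneg_left f3 (Real.exp_pos _).le
    _ = Real.exp (((J - 1 : ℕ) : ℝ) * (Λ * (1 - 4 * δ)) + -(2 * l ^ (1 - 3 * e))) / 96 := by
        ring

end Pool.Agent.Helper11.CN
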