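import Pool.Agent.Helper11.CN.StepE
import Pool.Agent.Helper11.CN.Nec

/-!
If many primes `p ≤ z` satisfy `f p ∣ L`, then there are many numbers `n` with `f p ∣ n - 1` for
all `p ∣ n`.
-/

set_option autoImplicit false

open Finset Filter Topology

namespace Pool.Agent.Helper11.CN

open Pool.Agent.Helper18.BV
open Pool.Agent.Helper34.CA

theorem quadE_ev (h1 : QuadLBE) {κ κ₁ κ₂ : ℝ} (k0 : 0 < κ) (k1 : κ < κ₁) (k2 : κ₁ < κ₂)
    (k3 : κ₂ < 1) : ∃ b0 : ℕ, ∀ᶠ l : ℝ in atTop, QuadAtE κ κ₁ κ₂ b0 l := by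
  obtain ⟨b0, X0, _, h⟩ := h1 κ κ₁ κ₂ k0 k1 k2 k3
  refine ⟨b0, ?_⟩
  filter_upwards [Real.tendsto_exp_atTop.eventually_ge_atTop X0] with l hl
  intro M y hM hM1 hy1 hy2 hq1 hq2
  have h2 := h (Real.exp l) hl M y hM (by rwa [Real.log_exp]) (by rwa [Real.log_exp])
    (by rwa [Real.log_exp]) hq1 (by rwa [Real.log_exp])
  simpa only [Real.log_exp] using h2

/-- sufficiency -/
theorem suff (h1 : QuadLBE) (h2 : PhiTail) (h3 : Equi) (h4 : SwapT) (h5 : BadT) (h6 : Pop)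
    {ε : ℝ} (hε : 0 < ε) (hε1 : ε ≤ 1) :
    ∃ ε₁ c C : ℝ, 0 < ε₁ ∧ ε₁ ≤ 1 ∧ 0 < c ∧ c < 1 ∧ 1 ≤ C ∧ ∀ᶠ l : ℝ in atTop,
      ∀ f : ℕ → ℕ, (∀ p : ℕ, p.Prime → f p ∣ p - 1) → SM f ε₁ (l ^ c) → ∀ S : Finset ℕ,
      (∀ n, n ∈ S ↔ IsG f (l ^ c) n ∧ (n : ℝ) ≤ Real.exp (C * l)) →
      Real.exp ((1 - ε) * (C * l)) ≤ S.card := by
  obtain ⟨δ, hδdef⟩ : ∃ δ : ℝ, δ = min (1 / 100) (ε / 10) := ⟨_, rfl⟩
  have hδ : 0 < δ := by
    rw [hδdef]
    exact lt_min (by norm_num) (by linarith)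
  have hδ2 : δ ≤ 1 / 100 := by rw [hδdef]; exact min_le_left _ _
  have hδε : 10 * δ ≤ ε := by
    have : δ ≤ ε / 10 := by rw [hδdef]; exact min_le_right _ _
    linarith
  obtain ⟨e, he⟩ : ∃ e : ℝ, e = δ / 16 := ⟨_, rfl⟩
  have he0 : 0 < e := by rw [he]; positivity
  have he1 : e ≤ 1 / 1600 := by rw [he]; linarith
  obtain ⟨K, hKdef⟩ : ∃ K : ℝ, K = max 64 (16 / ε) := ⟨_, rfl⟩
  have hK : 64 ≤ K := by rw [hKdef]; exact le_max_left _ _
  have hKε : 16 ≤ ε * K := by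
    have : 16 / ε ≤ K := by rw [hKdef]; exact le_max_right _ _
    rw [div_le_iff₀ hε] at this
    linarith
  obtain ⟨CT, _, hCT⟩ := h2
  obtain ⟨b0, hQ⟩ := quadE_ev h1 (κ := 1 - 4 * e) (κ₁ := 1 - 3 * e) (κ₂ := 1 - e)
    (by linarith) (by linarith) (by linarith) (by linarith)
  refine ⟨δ / 32, 1 - 4 * e, K + 4, by positivity, by linarith, by linarith, by linarith,
    by linarith, ?_⟩
  filter_upwards [atomsE (b0 := b0) (CT := CT) hδ hδ2 he hK, hQ] with l hat hQl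
  intro f hf hSM S hS
  have l1 : 1 ≤ l := by linarith [hat.big]
  have l0 : 0 < l := by linarith
  obtain ⟨L, z, hL, hLy, hz1, hz2, P, hP, hPc⟩ := hSM
  have hzl : l ^ (4 / δ) ≤ z := by
    refine le_trans ?_ hz1
    rw [← Real.rpow_mul l0.le]
    apply Real.rpow_le_rpow_of_exponent_le l1
    rw [mul_one_div, div_div_eq_mul_div, div_le_div_iff₀ hδ hδ]
    nlinarith
  have hz1' : 1 ≤ z := (Real.one_le_rpow l1 (by positivity)).trans hzl
  have hzu : z ≤ Real.exp (l ^ e) := by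
    refine hz2.trans (Real.exp_le_exp.2 ?_)
    rw [← Real.rpow_mul l0.le]
    apply Real.rpow_le_rpow_of_exponent_le l1
    rw [he]
    nlinarith
  have hPc' : z ^ (1 - δ) ≤ (P.card : ℝ) :=
    (Real.rpow_le_rpow_of_exponent_le hz1' (by linarith)).trans hPc
  have key := stepE h4 h5 h3 h6 countU hCT hf hδ hδ2 he hK hat (by omega) hLy hzl hzu hP hPc'
    hQl hS
  refine le_trans (Real.exp_le_exp.2 ?_) key
  have e1 := hat.a15
  have e2 : (1 - ε) * ((K + 4) * l) ≤ (1 - 5 * δ) * (K * l) - 4 * l := by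
    have e3 : (1 - 5 * δ) * (K * l) - 4 * l - (1 - ε) * ((K + 4) * l) =
        (ε * K - 5 * δ * K - 8 + 4 * ε) * l := by ring
    have e4 : 5 * δ * K ≤ ε * K / 2 := by nlinarith
    have e5 : 0 ≤ (ε * K - 5 * δ * K - 8 + 4 * ε) * l := by
      apply mul_nonneg _ l0.le
      linarith
    linarith
  linarith

end Pool.Agent.Helper11.CN
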